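import Pool.Agent.B5X.Defs
import Pool.Agent.B5.FH2
import Pool.Agent.B5.FE
import Pool.Agent.B5.FB
import Pool.Agent.B5.MO

/-!
B5X / MCO: operations on MC. jacobiSym (d) 5 is 1 or -1 for gamma in Gamma0(5) (d is prime to 5), so only the parity of eps matters. `MC_fa`: for gamma = (a b; c d) in
Gamma1(36) and Gamma0(5): 6 gamma z = gamma' (6 z), gamma' = (a, 6 b; c/6, d) in Gamma0(5), fa_slash; boundedness by `bdd_int`, `scale_slash` (Pool.Agent.B5.TR). `MC.toMF`: an element of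
Gamma1(180) is in Gamma1(36) and Gamma0(5), with d = 1 mod 5.
-/

set_option autoImplicit false

namespace Pool.Agent.B5X

open PowerSeries UpperHalfPlane Pool.Agent.B5
open scoped MatrixGroups ModularForm Manifold ArithmeticFunction.sigma

variable {ε ε' : ℕ} {k l : ℤ} {g g' : ℍ → ℂ}

private theorem mco_jac (γ : SL(2, ℤ)) (h : γ ∈ CongruenceSubgroup.Gamma0 5) :
    (jacobiSym (γ 1 1) 5) ^ 2 = 1 := by
  apply jacobiSym.sq_one
  have hdet : γ 0 0 * γ 1 1 - γ 0 1 * γ 1 0 = 1 := by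
    have := γ.det_coe
    rw [Matrix.det_fin_two] at this
    exact this
  rw [CongruenceSubgroup.Gamma0_mem] at h
  have h5 : (5 : ℤ) ∣ γ 1 0 := by
    have := (ZMod.intCast_zmod_eq_zero_iff_dvd (γ 1 0) 5).mp h
    exact_mod_cast this
  obtain ⟨c, hc⟩ := h5
  rw [← Int.isCoprime_iff_gcd_eq_one]
  refine ⟨γ 0 0, -(γ 0 1 * c), ?_⟩
  rw [hc] at hdet
  push_cast
  linarith

private theorem mco_pow (γ : SL(2, ℤ)) (h : γ ∈ CongruenceSubgroup.Gamma0 5)
    (he : ε % 2 = ε' % 2) : jacobiSym (γ 1 1) 5 ^ ε = jacobiSym (γ 1 1) 5 ^ ε' := by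
  have h2 := mco_jac γ h
  have key : ∀ n : ℕ, jacobiSym (γ 1 1) 5 ^ n = jacobiSym (γ 1 1) 5 ^ (n % 2) := by
    intro n
    conv_lhs => rw [← Nat.div_add_mod n 2, pow_add, pow_mul, h2, one_pow, one_mul]
  rw [key ε, key ε', he]

theorem MC.add (h : MC ε k g) (h' : MC ε k g') : MC ε k (fun z => g z + g' z) := by
  have he : (fun z => g z + g' z) = g + g' := rfl
  rw [he]
  refine ⟨h.holo.add h'.holo, ?_, ?_⟩
  · intro γ hγ h5
    rw [SlashAction.add_slash, h.inv γ hγ h5, h'.inv γ hγ h5]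
    funext z
    simp only [Pi.add_apply]
    ring
  · intro γ
    rw [SlashAction.add_slash]
    exact Filter.BoundedAtFilter.add (h.bdd γ) (h'.bdd γ)

theorem MC.mul (h : MC ε k g) (h' : MC ε' l g') : MC (ε + ε') (k + l) (fun z => g z * g' z) := by
  have he : (fun z => g z * g' z) = g * g' := rfl
  rw [he]
  refine ⟨h.holo.mul h'.holo, ?_, ?_⟩
  · intro γ hγ h5
    rw [ModularForm.mul_slash_SL2, h.inv γ hγ h5, h'.inv γ hγ h5]
    funext z
    simp only [Pi.mul_apply]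
    push_cast
    ring
  · intro γ
    rw [ModularForm.mul_slash_SL2]
    exact mo_bdd_mul (h.bdd γ) (h'.bdd γ)

private theorem mco_const (a : ℂ) : MC 0 0 (fun _ => a) := by
  have he : (fun _ : ℍ => a) = Function.const ℍ a := rfl
  rw [he]
  refine ⟨mdifferentiable_const, ?_, ?_⟩
  · intro γ _ _
    rw [ModularForm.is_invariant_const γ a]
    funext z
    simp
  · intro γ
    rw [ModularForm.is_invariant_const γ a]
    exact Filter.const_boundedAtFilter _ _

theorem MC.smul (h : MC ε k g) (a : ℂ) : MC ε k (fun z => a * g z) := by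
  have := (mco_const a).mul h
  rwa [zero_add, zero_add] at this

theorem MC.one : MC 0 0 (fun _ => (1 : ℂ)) := mco_const 1

theorem MC.zero (ε : ℕ) (k : ℤ) : MC ε k (fun _ => (0 : ℂ)) := by
  have he : (fun _ : ℍ => (0 : ℂ)) = 0 := rfl
  refine ⟨?_, ?_, ?_⟩
  · rw [he]
    exact mdifferentiable_const
  · intro γ _ _
    rw [he, SlashAction.zero_slash k γ]
    funext z
    simp
  · intro γ
    rw [he, SlashAction.zero_slash]
    exact zero_form_isBoundedAtImInfty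

theorem MC.pow (h : MC ε k g) (n : ℕ) : MC (n * ε) (n * k) (fun z => g z ^ n) := by
  induction n with
  | zero =>
    simp only [Nat.cast_zero, zero_mul, pow_zero]
    exact mco_const 1
  | succ n ih =>
    have := ih.mul h
    have e1 : (n : ℤ) * k + k = ((n + 1 : ℕ) : ℤ) * k := by push_cast; ring
    have e2 : n * ε + ε = (n + 1) * ε := by ring
    rw [e1, e2] at this
    exact this

theorem MC.parity (h : MC ε k g) (he : ε % 2 = ε' % 2) : MC ε' k g := by
  refine ⟨h.holo, ?_, h.bdd⟩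
  intro γ hγ h5
  rw [h.inv γ hγ h5, mco_pow γ h5 he]

theorem MC_fH : MC 0 2 fH := by
  refine ⟨MF_fH.holo, ?_, MF_fH.bdd⟩
  intro γ hγ _
  rw [MF_fH.inv γ hγ]
  funext z
  simp

private theorem mco_scale {h : ℍ → ℂ} (hm : MDiff h)
    (hs : ∀ γ : SL(2, ℤ), γ ∈ CongruenceSubgroup.Gamma0 5 →
      h ∣[k] γ = fun z => ((jacobiSym (γ 1 1) 5 ^ ε : ℤ) : ℂ) * h z)
    (hb : ∀ γ : SL(2, ℤ), IsBoundedAtImInfty (h ∣[k] γ)) :
    MC ε k (fun z => h (sc 6 z)) := by
  refine ⟨scale_mdiff hm 6, ?_, scale_bdd hb 6⟩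
  intro γ hγ hγ5
  rw [CongruenceSubgroup.Gamma1_mem] at hγ
  rw [CongruenceSubgroup.Gamma0_mem, ZMod.intCast_zmod_eq_zero_iff_dvd] at hγ5
  obtain ⟨h1, h2, h3⟩ := hγ
  rw [ZMod.intCast_zmod_eq_zero_iff_dvd] at h3
  obtain ⟨c0, hc0⟩ := h3
  have hc : γ 1 0 = ((6 : ℕ+) : ℕ) * (6 * c0) := by
    rw [hc0]
    have : (((6 : ℕ+) : ℕ) : ℤ) = 6 := rfl
    rw [this]
    push_cast
    ring
  obtain ⟨γ', g00, g01, g10, g11, hs'⟩ := scale_conj h k 6 γ _ hc
  have hmem : γ' ∈ CongruenceSubgroup.Gamma0 5 := by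
    rw [CongruenceSubgroup.Gamma0_mem, g10, ZMod.intCast_zmod_eq_zero_iff_dvd]
    rw [hc0] at hγ5
    push_cast at hγ5 ⊢
    omega
  funext z
  rw [hs' z, hs γ' hmem, g11]

theorem MC_fa : MC 1 2 (fun z => fa (sc 6 z)) := by
  refine mco_scale fa_mdiff ?_ fa_bdd
  intro γ hγ
  rw [fa_slash γ hγ, pow_one]

theorem MC_fb : MC 1 2 (fun z => fb (sc 6 z)) := by
  refine mco_scale fb_mdiff ?_ fb_bdd
  intro γ hγ
  rw [fb_slash γ hγ, pow_one]

theorem MC_fE : MC 0 2 (fun z => fE (sc 6 z)) := by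
  refine mco_scale fE_mdiff ?_ fE_bdd
  intro γ hγ
  rw [fE_slash γ hγ]
  funext z
  simp

theorem MC.toMF (h : MC ε k g) : MF 180 k g := by
  refine ⟨h.holo, ?_, h.bdd⟩
  intro γ hγ
  rw [CongruenceSubgroup.Gamma1_mem] at hγ
  obtain ⟨h1, h2, h3⟩ := hγ
  have key : ∀ n : ℕ, n ∣ 180 → ∀ x y : ℤ, (x : ZMod 180) = (y : ZMod 180) →
      (x : ZMod n) = (y : ZMod n) := by
    intro n hn x y hxy
    rw [ZMod.intCast_eq_intCast_iff_dvd_sub] at hxy ⊢
    exact (Int.natCast_dvd_natCast.mpr hn).trans hxy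
  have a36 : γ ∈ CongruenceSubgroup.Gamma1 36 := by
    rw [CongruenceSubgroup.Gamma1_mem]
    refine ⟨?_, ?_, ?_⟩
    · have := key 36 (by norm_num) _ 1 (by rw [h1]; simp)
      simpa using this
    · have := key 36 (by norm_num) _ 1 (by rw [h2]; simp)
      simpa using this
    · have := key 36 (by norm_num) _ 0 (by rw [h3]; simp)
      simpa using this
  have a5 : γ ∈ CongruenceSubgroup.Gamma0 5 := by
    rw [CongruenceSubgroup.Gamma0_mem]
    have := key 5 (by norm_num) _ 0 (by rw [h3]; simp)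
    simpa using this
  have hd : γ 1 1 % ((5 : ℕ) : ℤ) = 1 := by
    have h4 := key 5 (by norm_num) _ 1 (by rw [h2]; simp)
    rw [ZMod.intCast_eq_intCast_iff_dvd_sub] at h4
    push_cast at h4 ⊢
    omega
  have hj : jacobiSym (γ 1 1) 5 = 1 := by
    rw [jacobiSym.mod_left, hd, jacobiSym.one_left]
  rw [h.inv γ a36 a5, hj]
  funext z
  simp

end Pool.Agent.B5X
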