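import Pool.Agent.B5X.Defs
import Pool.Agent.B5.HK2

/-!
B5X / HC2: q-expansion of TC (as Pool.Agent.B5.HK2).
-/

set_option autoImplicit false

namespace Pool.Agent.B5X

open PowerSeries UpperHalfPlane Pool.Agent.B5
open scoped MatrixGroups ModularForm Manifold ArithmeticFunction.sigma

theorem HasQ_TC (ε : ℕ) {k : ℕ} (hk : 1 ≤ k) {g : ℍ → ℂ} {c : ℂ⟦X⟧} (hg : HasQ g c) (Q : ℕ+) :
    HasQ (TC ε Q k g) (tg (Q : ℕ) (((jacobiSym ((Q : ℕ) : ℤ) 5 ^ ε : ℤ) : ℂ) * ((Q : ℕ) : ℂ) ^ (k - 1)) c) := by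
  intro z
  have h := (hk_part1 (k := k) hg Q z).add
    ((hk_part2 hk hg Q z).mul_left ((jacobiSym ((Q : ℕ) : ℤ) 5 ^ ε : ℤ) : ℂ))
  have e : TC ε Q k g z = (∑ b ∈ Finset.range (Q : ℕ), (g ∣[(k : ℤ)] tri 1 (b : ℝ) ((Q : ℕ) : ℝ) (by simp)) z)
      + ((jacobiSym ((Q : ℕ) : ℤ) 5 ^ ε : ℤ) : ℂ) * (g ∣[(k : ℤ)] tri ((Q : ℕ) : ℝ) 0 1 (by simp)) z := by
    unfold TC
    rw [Pi.add_apply, Finset.sum_apply]
  rw [e]
  convert h using 2 with n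
  simp only [tg, PowerSeries.coeff_mk]
  rw [add_mul]
  congr 1
  split_ifs
  · ring
  · ring

end Pool.Agent.B5X
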