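import Pool.Agent.B5X.Defs
import Pool.Agent.B5.PE

/-!
B5X / PC: the periodicity argument of Pool.Agent.B5.PE with a general constant δ prime to m (same proof).
-/

set_option autoImplicit false

namespace Pool.Agent.B5X

open PowerSeries UpperHalfPlane Pool.Agent.B5
open scoped MatrixGroups ModularForm Manifold

/-- the Hecke operator as a linear map -/
noncomputable def tgL (Q : ℕ) (δ : ℤ) : ℤ⟦X⟧ →ₗ[ℤ] ℤ⟦X⟧ where
  toFun c := tg Q δ c
  map_add' a b := by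
    ext n
    simp only [tg, PowerSeries.coeff_mk, map_add]
    split_ifs <;> ring
  map_smul' a b := by
    ext n
    simp only [tg, PowerSeries.coeff_mk, map_smul, smul_eq_mul, RingHom.id_apply]
    split_ifs <;> ring

/-- the recursive sequence, `cs 0 = 0`, `cs 1 = c` -/
noncomputable def csg (Q : ℕ) (δ : ℤ) (c : ℤ⟦X⟧) : ℕ → ℤ⟦X⟧
  | 0 => 0
  | 1 => c
  | r + 2 => tg Q δ (csg Q δ c (r + 1)) - PowerSeries.C (δ) * csg Q δ c r

theorem csg_mem (L : Submodule ℤ ℤ⟦X⟧) (Q : ℕ) (δ : ℤ) (hT : ∀ c ∈ L, tg Q δ c ∈ L) (c : ℤ⟦X⟧) (hc : c ∈ L) :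
    ∀ r, csg Q δ c r ∈ L ∧ csg Q δ c (r + 1) ∈ L := by
  intro r
  induction r with
  | zero => exact ⟨by simp [csg], by simpa [csg] using hc⟩
  | succ r ih =>
    refine ⟨ih.2, ?_⟩
    show tg Q δ (csg Q δ c (r + 1)) - PowerSeries.C (δ) * csg Q δ c r ∈ L
    apply L.sub_mem (hT _ ih.2)
    rw [← PowerSeries.smul_eq_C_mul]
    exact L.smul_mem _ ih.1

/-- the auxiliary difference -/
noncomputable def ddg (Q : ℕ) (δ : ℤ) (c : ℤ⟦X⟧) (x i r : ℕ) : ℤ :=
  PowerSeries.coeff (Q ^ i * x) (csg Q δ c (r + 1)) -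
    δ * (if i = 0 then 0 else PowerSeries.coeff (Q ^ (i - 1) * x) (csg Q δ c r))

theorem ddg_step (Q : ℕ) (δ : ℤ) (hQ : Q.Prime) (c : ℤ⟦X⟧) (x : ℕ) (hx : Nat.Coprime Q x) (i r : ℕ) :
    ddg Q δ c x i (r + 1) = ddg Q δ c x (i + 1) r := by
  have hpos := hQ.pos
  unfold ddg
  have h1 : csg Q δ c (r + 1 + 1) = tg Q δ (csg Q δ c (r + 1)) -
      PowerSeries.C (δ) * csg Q δ c r := rfl
  rw [h1, map_sub, PowerSeries.coeff_C_mul]
  have h2 : PowerSeries.coeff (Q ^ i * x) (tg Q δ (csg Q δ c (r + 1))) =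
      PowerSeries.coeff (Q ^ (i + 1) * x) (csg Q δ c (r + 1)) +
      δ * (if i = 0 then 0 else PowerSeries.coeff (Q ^ (i - 1) * x) (csg Q δ c (r + 1))) := by
    rw [tg, PowerSeries.coeff_mk]
    have h3 : Q * (Q ^ i * x) = Q ^ (i + 1) * x := by ring
    rw [h3]
    congr 1
    by_cases hi : i = 0
    · subst hi
      have : ¬ Q ∣ Q ^ 0 * x := by
        rw [pow_zero, one_mul]
        intro h
        have := Nat.Coprime.eq_one_of_dvd hx h
        exact hQ.one_lt.ne' this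
      simp only [this, if_false, if_true, mul_zero]
    · obtain ⟨i', rfl⟩ := Nat.exists_eq_succ_of_ne_zero hi
      have h4 : Q ∣ Q ^ (i' + 1) * x := Dvd.dvd.mul_right (dvd_pow_self Q (Nat.succ_ne_zero i')) x
      have h5 : Q ^ (i' + 1) * x / Q = Q ^ i' * x := by
        rw [pow_succ]
        rw [show Q ^ i' * Q * x = Q * (Q ^ i' * x) by ring]
        exact Nat.mul_div_cancel_left _ hpos
      simp only [Nat.succ_eq_add_one, h4, if_true, h5, Nat.add_sub_cancel, if_neg (Nat.succ_ne_zero i')]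
  rw [h2]
  simp only [Nat.succ_ne_zero, if_false, Nat.add_sub_cancel]
  ring

theorem ddg_zero (Q : ℕ) (δ : ℤ) (hQ : Q.Prime) (c : ℤ⟦X⟧) (x : ℕ) (hx : Nat.Coprime Q x) (r : ℕ) :
    ∀ i, ddg Q δ c x i r = PowerSeries.coeff (Q ^ (i + r) * x) c := by
  induction r with
  | zero =>
    intro i
    unfold ddg
    simp [csg]
  | succ r ih =>
    intro i
    rw [ddg_step Q δ hQ c x hx, ih]
    congr 3
    ring

/-- for `x` coprime to `Q` the coefficient of `cs (r+1)` at `x` -/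
theorem coeff_csg (Q : ℕ) (δ : ℤ) (hQ : Q.Prime) (c : ℤ⟦X⟧) (x : ℕ) (hx : Nat.Coprime Q x) (r : ℕ) :
    PowerSeries.coeff x (csg Q δ c (r + 1)) = PowerSeries.coeff (Q ^ r * x) c := by
  have h := ddg_zero Q δ hQ c x hx r 0
  unfold ddg at h
  simpa using h

theorem period_gen (L : Submodule ℤ ℤ⟦X⟧) (hL : L.FG) (Q m : ℕ) (δ : ℤ) (hQ : Q.Prime)
    (hm : 0 < m) (hδ : IsCoprime δ (m : ℤ)) (hT : ∀ c ∈ L, tg Q δ c ∈ L) (c : ℤ⟦X⟧) (hc : c ∈ L) :
    ∃ π : ℕ, 0 < π ∧ ∀ j : ℕ, 2 ≤ j → ∀ x : ℕ, Nat.Coprime Q x →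
      (m : ℤ) ∣ PowerSeries.coeff (Q ^ (π * j - 1) * x) c ∧
      (m : ℤ) ∣ δ * PowerSeries.coeff (Q ^ (π * j - 2) * x) c +
        PowerSeries.coeff x c := by
  classical
  have : Module.Finite ℤ L := Module.Finite.iff_fg.mpr hL
  let TL : L →ₗ[ℤ] L := (tgL Q δ).restrict (fun c hc => hT c hc)
  let P : Submodule ℤ L := LinearMap.range ((m : ℤ) • (LinearMap.id : L →ₗ[ℤ] L))
  have hP : P ≤ P.comap TL := by
    rintro _ ⟨y, rfl⟩
    exact ⟨TL y, by simp⟩
  let TM : (L ⧸ P) →ₗ[ℤ] (L ⧸ P) := P.mapQ P TL hP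
  have hmP : ∀ y : L, (m : ℤ) • y ∈ P := fun y => ⟨y, by simp⟩
  have hkill : ∀ y : L ⧸ P, (m : ℤ) • y = 0 := by
    intro y
    obtain ⟨y, rfl⟩ := P.mkQ_surjective y
    rw [← map_smul]
    exact (Submodule.Quotient.mk_eq_zero P).mpr (hmP y)
  have hfin : Finite (L ⧸ P) := by
    apply Module.finite_of_fg_torsion
    intro y
    exact ⟨⟨(m : ℤ), by
      rw [mem_nonZeroDivisors_iff_ne_zero]; exact_mod_cast hm.ne'⟩, hkill y⟩
  let Φ : (L ⧸ P) × (L ⧸ P) → (L ⧸ P) × (L ⧸ P) := fun v => (TM v.1 - δ • v.2, v.1)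
  have hinj : Function.Injective Φ := by
    rintro ⟨x, y⟩ ⟨x', y'⟩ h
    have h1 : x = x' := congrArg Prod.snd h
    subst h1
    have h2 : TM x - δ • y = TM x - δ • y' := congrArg Prod.fst h
    have h3 : δ • y = δ • y' := by simpa using h2
    obtain ⟨u, v, huv⟩ := hδ
    have key : ∀ z : L ⧸ P, z = u • (δ • z) := by
      intro z
      calc z = (1 : ℤ) • z := (one_smul _ _).symm
        _ = (u * δ + v * (m : ℤ)) • z := by rw [huv]
        _ = u • (δ • z) := by rw [add_smul, mul_smul, mul_smul, hkill, smul_zero, add_zero]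
    have : y = y' := by rw [key y, key y', h3]
    rw [this]
  have hbij : Function.Bijective Φ := Finite.injective_iff_bijective.mp hinj
  let σ : Equiv.Perm ((L ⧸ P) × (L ⧸ P)) := Equiv.ofBijective Φ hbij
  obtain ⟨π, hπ0, hπ⟩ := (isOfFinOrder_iff_pow_eq_one.mp (isOfFinOrder_of_finite σ))
  let e : ℕ → L := fun r => ⟨csg Q δ c r, (csg_mem L Q δ hT c hc r).1⟩
  have he : ∀ r, P.mkQ (e (r + 2)) = TM (P.mkQ (e (r + 1))) - δ • P.mkQ (e r) := by
    intro r
    have h1 : e (r + 2) = TL (e (r + 1)) - δ • e r := by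
      apply Subtype.ext
      show tg Q δ (csg Q δ c (r + 1)) - PowerSeries.C (δ) * csg Q δ c r = _
      rw [← PowerSeries.smul_eq_C_mul]
      rfl
    rw [h1, map_sub, map_smul]
    rfl
  have hpair : ∀ r, (σ ^ r) (P.mkQ (e 1), P.mkQ (e 0)) = (P.mkQ (e (r + 1)), P.mkQ (e r)) := by
    intro r
    induction r with
    | zero => simp
    | succ r ih =>
      rw [pow_succ', Equiv.Perm.mul_apply, ih]
      show (TM (P.mkQ (e (r + 1))) - δ • P.mkQ (e r), P.mkQ (e (r + 1))) = _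
      rw [← he]
  have hper : ∀ j, P.mkQ (e (π * j + 1)) = P.mkQ (e 1) ∧ P.mkQ (e (π * j)) = P.mkQ (e 0) := by
    intro j
    have h1 := hpair (π * j)
    rw [pow_mul, hπ, one_pow] at h1
    simp only [Equiv.Perm.coe_one, id_eq, Prod.mk.injEq] at h1
    exact ⟨h1.1.symm, h1.2.symm⟩
  have hdiv : ∀ y y' : L, P.mkQ y = P.mkQ y' → ∀ n, (m : ℤ) ∣
      PowerSeries.coeff n (y : ℤ⟦X⟧) - PowerSeries.coeff n (y' : ℤ⟦X⟧) := by
    intro y y' h n
    have h1 : y - y' ∈ P := by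
      have : P.mkQ (y - y') = 0 := by rw [map_sub, h, sub_self]
      exact (Submodule.Quotient.mk_eq_zero P).mp this
    obtain ⟨z, hz⟩ := h1
    have h2 : (y : ℤ⟦X⟧) - y' = (m : ℤ) • (z : ℤ⟦X⟧) := by
      have := congrArg (Subtype.val) hz
      simpa using this.symm
    refine ⟨PowerSeries.coeff n (z : ℤ⟦X⟧), ?_⟩
    rw [← map_sub, h2, map_smul, smul_eq_mul]
  refine ⟨π, hπ0, ?_⟩
  intro j hj x hx
  have hπj : 2 ≤ π * j := by nlinarith
  obtain ⟨r, hr⟩ : ∃ r, π * j = r + 2 := ⟨π * j - 2, by omega⟩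
  have h1 := hper j
  rw [hr] at h1 ⊢
  have e0 : ∀ n, PowerSeries.coeff n (e 0 : ℤ⟦X⟧) = 0 := by
    intro n
    show PowerSeries.coeff n (0 : ℤ⟦X⟧) = 0
    simp
  constructor
  · have h2 := hdiv _ _ h1.2 x
    rw [e0, sub_zero] at h2
    have h3 : PowerSeries.coeff x (e (r + 2) : ℤ⟦X⟧) = PowerSeries.coeff (Q ^ (r + 1) * x) c :=
      coeff_csg Q δ hQ c x hx (r + 1)
    rw [h3] at h2
    have : r + 2 - 1 = r + 1 := by omega
    rw [this]
    exact h2
  · have h2 : P.mkQ (e (r + 3)) = P.mkQ (e 1) := h1.1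
    rw [he (r + 1), h1.2] at h2
    have h3 : P.mkQ (e 0) = 0 := by
      have : e 0 = 0 := by
        apply Subtype.ext
        rfl
      rw [this, map_zero]
    rw [h3, map_zero, zero_sub] at h2
    have h4 : P.mkQ (-(δ • e (r + 1))) = P.mkQ (e 1) := by
      rw [map_neg, map_smul]; exact h2
    have h5 := hdiv _ _ h4 x
    have h6 : PowerSeries.coeff x (e (r + 1) : ℤ⟦X⟧) = PowerSeries.coeff (Q ^ r * x) c :=
      coeff_csg Q δ hQ c x hx r
    have h7 : PowerSeries.coeff x ((-(δ • e (r + 1)) : L) : ℤ⟦X⟧) = -(δ * PowerSeries.coeff (Q ^ r * x) c) := by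
      rw [← h6]
      rw [Submodule.coe_neg, Submodule.coe_smul, map_neg, map_smul, smul_eq_mul]
    have h8 : PowerSeries.coeff x (e 1 : ℤ⟦X⟧) = PowerSeries.coeff x c := rfl
    rw [h7, h8] at h5
    have : r + 2 - 2 = r := by omega
    rw [this]
    have h9 := (dvd_neg (α := ℤ)).mpr h5
    have h10 : -(-(δ * PowerSeries.coeff (Q ^ r * x) c) - PowerSeries.coeff x c) =
        δ * PowerSeries.coeff (Q ^ r * x) c + PowerSeries.coeff x c := by
      show -(-(δ * PowerSeries.coeff (Q ^ r * x) c) - PowerSeries.coeff x c) = _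
      ring
    rw [h10] at h9
    exact h9

end Pool.Agent.B5X
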