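import Pool.Agent.B5X.Defs
import Pool.Agent.B5X.PC
import Pool.Agent.B5X.HC1
import Pool.Agent.B5X.HC2
import Pool.Agent.B5.LF

/-!
B5X / LCP: LC ε k is the set of a submodule of ℤ⟦X⟧, contained in LL 180 k (MC.toMF), so finitely generated (`LL_fg`, ℤ is Noetherian), and stable under the Hecke operator
(HC1, HC2; toC and tg commute). Apply `period_gen`.
-/

set_option autoImplicit false

namespace Pool.Agent.B5X

open PowerSeries UpperHalfPlane Pool.Agent.B5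
open scoped MatrixGroups ModularForm Manifold ArithmeticFunction.sigma

theorem LC_period (ε k : ℕ) (hk : 1 ≤ k) (c : ℤ⟦X⟧) (hc : c ∈ LC ε k) (Q : ℕ) (hQ : Q.Prime)
    (hQ1 : Q ≡ 1 [MOD 36]) (hQ5 : Q ≠ 5) (m : ℕ) (hm : 0 < m) (hQm : Nat.Coprime Q m) :
    ∃ π : ℕ, 0 < π ∧ ∀ j : ℕ, 2 ≤ j → ∀ x : ℕ, Nat.Coprime Q x →
      (m : ℤ) ∣ PowerSeries.coeff (Q ^ (π * j - 1) * x) c ∧
      (m : ℤ) ∣ (jacobiSym (Q : ℤ) 5 ^ ε * (Q : ℤ) ^ (k - 1)) * PowerSeries.coeff (Q ^ (π * j - 2) * x) c +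
        PowerSeries.coeff x c := by
  classical
  let L' : Submodule ℤ ℤ⟦X⟧ :=
    { carrier := LC ε k
      add_mem' := by
        rintro a b ⟨g, hg, hgq⟩ ⟨g', hg', hgq'⟩
        refine ⟨_, hg.add hg', ?_⟩
        have := hgq.add hgq'
        rwa [show toC (a + b) = toC a + toC b from map_add _ _ _]
      zero_mem' := by
        refine ⟨_, MC.zero ε k, ?_⟩
        rw [show toC 0 = 0 from map_zero _]
        intro z
        simp [hasSum_zero]
      smul_mem' := by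
        rintro m a ⟨g, hg, hgq⟩
        refine ⟨_, hg.smul (m : ℂ), ?_⟩
        have h1 := (HasQ.const (m : ℂ)).mul hgq
        have h2 : toC (m • a) = PowerSeries.C (m : ℂ) * toC a := by
          ext n
          simp [toC]
        rw [h2]
        exact h1 }
  obtain ⟨L, hL, hLmem⟩ := LL_fg 180 k (by norm_num)
  have hle : L' ≤ L := by
    rintro a ⟨g, hg, hgq⟩
    rw [hLmem]
    exact ⟨g, hg.toMF, hgq⟩
  have hfin : Module.Finite ℤ L := Module.Finite.iff_fg.2 hL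
  have hN : IsNoetherian ℤ L := isNoetherian_of_isNoetherianRing_of_finite ℤ L
  have hFG : L'.FG := (isNoetherian_submodule.mp hN) L' hle
  set δ : ℤ := jacobiSym (Q : ℤ) 5 ^ ε * (Q : ℤ) ^ (k - 1) with hδ
  have hcop : IsCoprime δ (m : ℤ) := by
    have h1 : IsCoprime (Q : ℤ) (m : ℤ) := Nat.isCoprime_iff_coprime.2 hQm
    have h2 : IsCoprime (jacobiSym (Q : ℤ) 5) (m : ℤ) := by
      have h3 : Int.gcd (Q : ℤ) (5 : ℕ) = 1 := by
        rw [Int.gcd_natCast_natCast]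
        rw [← Nat.coprime_iff_gcd_eq_one, Nat.coprime_primes hQ (by norm_num)]
        exact hQ5
      have h4 : jacobiSym (Q : ℤ) 5 = 1 ∨ jacobiSym (Q : ℤ) 5 = -1 :=
        jacobiSym.eq_one_or_neg_one h3
      rcases h4 with h | h
      · rw [h]
        exact isCoprime_one_left
      · rw [h]
        exact isCoprime_one_left.neg_left
    exact (h2.pow_left).mul_left (h1.pow_left)
  refine period_gen L' hFG Q m δ hQ hm hcop ?_ c hc
  rintro a ⟨g, hg, hgq⟩
  refine ⟨TC ε ⟨Q, hQ.pos⟩ k g, MC_TC hg ⟨Q, hQ.pos⟩ hQ hQ1 hQ5, ?_⟩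
  have h1 := HasQ_TC ε hk hgq ⟨Q, hQ.pos⟩
  have h2 : toC (tg Q δ a) = tg Q (((jacobiSym ((Q : ℕ) : ℤ) 5 ^ ε : ℤ) : ℂ) *
      ((Q : ℕ) : ℂ) ^ (k - 1)) (toC a) := by
    ext n
    simp only [toC, tg, PowerSeries.coeff_map, PowerSeries.coeff_mk, map_add, eq_intCast]
    split_ifs
    · rw [hδ]
      push_cast
      ring
    · push_cast
      ring
  rw [h2]
  exact h1

end Pool.Agent.B5X
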