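import Pool.Agent.B5X.Defs
import Pool.Agent.B5.HA2

/-!
B5X / EI: Eisenstein series of weight w = p^s (p-1), w >= 4 even. E_w = 1 - (2w/B_w) sum sigma_(w-1)(n) q^n (`EisensteinSeries.E_qExpansion_coeff`),
B_w = N/D in lowest terms, p | D and p does not divide N by von Staudt - Clausen ((p-1) | w); f = N E_w. Same proof as in Pool.Agent.B5.HA2.
-/

set_option autoImplicit false

namespace Pool.Agent.B5X

open PowerSeries UpperHalfPlane Pool.Agent.B5
open scoped MatrixGroups ModularForm Manifold ArithmeticFunction.sigma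

private theorem EI_ND (p : ℕ) [hpp : Fact p.Prime] (w : ℕ) (hw : Even w) (hpw : (p - 1) ∣ w)
    (hw0 : 0 < w) :
    ∃ N D : ℤ, (p : ℤ) ∣ D ∧ ¬ (p : ℤ) ∣ N ∧ D ≠ 0 ∧ bernoulli w * D = N := by
  have hpr : p.Prime := hpp.out
  obtain ⟨m, hm⟩ : ∃ m, w = 2 * m := by
    obtain ⟨m, hm⟩ := hw
    exact ⟨m, by omega⟩
  have hple : p - 1 ≤ w := Nat.le_of_dvd hw0 hpw
  rw [hm]
  obtain ⟨T, hT⟩ := Bernoulli.vonStaudt_clausen m
  set S := (Finset.range (2 * m + 2)).filter (fun q => q.Prime ∧ (q - 1) ∣ 2 * m) with hS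
  have hpS : p ∈ S := by
    rw [hS, Finset.mem_filter, Finset.mem_range]
    refine ⟨by omega, hpr, ?_⟩
    rw [← hm]
    exact hpw
  rw [← Finset.add_sum_erase S (fun q : ℕ => (1 : ℚ) / q) hpS] at hT
  have hprime : ∀ q ∈ S.erase p, q.Prime := by
    intro q hq
    have := Finset.mem_of_mem_erase hq
    rw [hS, Finset.mem_filter] at this
    exact this.2.1
  obtain ⟨R, hR⟩ := HA2.sum_inv_primes (S.erase p) (fun q hq => (hprime q hq).ne_zero)
  set M : ℕ := ∏ q ∈ S.erase p, q with hM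
  have hcop : ¬ p ∣ M := by
    rw [hM, Prime.dvd_finsetProd_iff hpr.prime]
    rintro ⟨q, hq, hdvd⟩
    have h1 := (Nat.prime_dvd_prime_iff_eq hpr (hprime q hq)).mp hdvd
    exact (Finset.ne_of_mem_erase hq) h1.symm
  have hM0 : M ≠ 0 := by
    intro h
    exact hcop (h ▸ dvd_zero p)
  have hp0 : (p : ℚ) ≠ 0 := by exact_mod_cast hpr.ne_zero
  refine ⟨T * p * M - M - R * p, p * M, ⟨M, rfl⟩, ?_, ?_, ?_⟩
  · intro h
    apply hcop
    have h2 : (p : ℤ) ∣ (M : ℤ) := by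
      have h3 : (M : ℤ) = p * (T * M - R) - (T * p * M - M - R * p) := by ring
      rw [h3]
      exact dvd_sub (dvd_mul_right _ _) h
    exact_mod_cast h2
  · exact mul_ne_zero (by exact_mod_cast hpr.ne_zero) (by exact_mod_cast hM0)
  · have hB : bernoulli (2 * m) = T - (1 / (p : ℚ) + ∑ q ∈ S.erase p, (1 : ℚ) / q) := by
      rw [hT]; ring
    push_cast
    rw [hB, ← hR]
    field_simp
    ring

theorem eis (p : ℕ) [Fact p.Prime] (hp : 3 < p) (s : ℕ) :
    ∃ (N D : ℤ) (f : ModularForm 𝒮ℒ (((p ^ s * (p - 1) : ℕ)) : ℤ)), ¬ (p : ℤ) ∣ N ∧ (p : ℤ) ∣ D ∧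
      HasQ f (toC (PowerSeries.mk fun n => if n = 0 then N else
        -2 * ((p ^ s * (p - 1) : ℕ) : ℤ) * D * (σ (p ^ s * (p - 1) - 1) n : ℤ))) := by
  have hpr : p.Prime := Fact.out
  set w : ℕ := p ^ s * (p - 1) with hwdef
  have hpe : Even (p - 1) := by
    rcases hpr.eq_two_or_odd with h | h
    · omega
    · exact ⟨(p - 1) / 2, by omega⟩
  have hwe : Even w := hpe.mul_left _
  have hge : 3 ≤ w := by
    have h1 : 1 ≤ p ^ s := Nat.one_le_pow _ _ hpr.pos
    calc 3 ≤ 1 * (p - 1) := by omega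
      _ ≤ p ^ s * (p - 1) := Nat.mul_le_mul_right _ h1
  obtain ⟨N, D, hD, hN, hD0, hND⟩ := EI_ND p w hwe (Dvd.intro_left _ rfl) (by omega)
  have hN0 : N ≠ 0 := by
    intro h
    exact hN (h ▸ dvd_zero _)
  have hB0 : bernoulli w ≠ 0 := by
    intro h
    rw [h, zero_mul] at hND
    exact hN0 (by exact_mod_cast hND.symm)
  set c : ℤ⟦X⟧ := PowerSeries.mk (fun n => if n = 0 then N else
    -2 * ((w : ℕ) : ℤ) * D * (σ (w - 1) n : ℤ)) with hc
  have hq : qExpansion 1 ((N : ℂ) • (ModularForm.E hge) : ModularForm 𝒮ℒ ((w : ℕ) : ℤ)) = toC c := by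
    rw [FunLike.coe_smul, ModularForm.qExpansion_smul one_pos one_mem_strictPeriods_SL]
    ext n
    rw [PowerSeries.coeff_smul, EisensteinSeries.E_qExpansion_coeff hge hwe, HA1.coeff_toC, hc,
      PowerSeries.coeff_mk]
    by_cases hn : n = 0
    · simp [hn]
    · rw [if_neg hn, if_neg hn]
      have h1 : ((bernoulli w : ℚ) : ℂ) * (D : ℂ) = (N : ℂ) := by
        have := congrArg (fun t : ℚ => (t : ℂ)) hND
        push_cast at this
        exact this
      have hB0' : ((bernoulli w : ℚ) : ℂ) ≠ 0 := by exact_mod_cast hB0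
      rw [smul_eq_mul, ← h1]
      push_cast
      field_simp
  refine ⟨N, D, (N : ℂ) • (ModularForm.E hge), hN, hD, ?_⟩
  intro z
  have h := ModularForm.hasSum_qExpansion (f := ((N : ℂ) • (ModularForm.E hge) :
    ModularForm 𝒮ℒ ((w : ℕ) : ℤ))) one_pos one_mem_strictPeriods_SL z
  convert h using 1
  funext n
  rw [hq, EQ2_qParam]

end Pool.Agent.B5X
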