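import Pool.Agent.B5X.Defs
import Pool.Agent.B5.HA1

/-!
B5X / LV. `levelOne_mod`: as Pool.Agent.B5.HA1 (levelOne_int), with the modulus M coprime to 6 instead of a prime (1728 is a unit mod M).
`lift1`: lift the coefficients of A to the integers (on the support) and take the same polynomial in E4, E6.
-/

set_option autoImplicit false

namespace Pool.Agent.B5X

open PowerSeries UpperHalfPlane Pool.Agent.B5 Pool.Agent.B5.HA1
open scoped MatrixGroups ModularForm Manifold ArithmeticFunction.sigma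

private theorem lv_levelOne_aux (p : ℕ) (w : ZMod p) (hw : w * ((1728 : ℤ) : ZMod p) = 1) (k : ℕ) :
    ∀ (f : ModularForm 𝒮ℒ (k : ℤ)) (c : ℤ⟦X⟧), qExpansion 1 f = toC c →
    ∃ A : MvPolynomial (Fin 2) (ZMod p), A.IsWeightedHomogeneous ![4, 6] k ∧
      MvPolynomial.aeval ![red p sQ, red p sR] A = red p c := by
  induction k using Nat.strong_induction_on with
  | _ k ih =>
  intro f c hc
  -- the zero case
  have hzero : c = 0 → ∃ A : MvPolynomial (Fin 2) (ZMod p), A.IsWeightedHomogeneous ![4, 6] k ∧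
      MvPolynomial.aeval ![red p sQ, red p sR] A = red p c := by
    intro h0
    refine ⟨0, MvPolynomial.isWeightedHomogeneous_zero _ _ _, ?_⟩
    rw [h0]
    simp [red]
  have hz2 : f = 0 → c = 0 := by
    intro hf
    apply toC_injective
    rw [← hc, hf]
    have : ((0 : ModularForm 𝒮ℒ (k : ℤ)) : ℍ → ℂ) = 0 := rfl
    rw [this, qExpansion_zero]
    simp [toC]
  by_cases hk0 : k = 0
  · subst hk0
    obtain ⟨a, ha⟩ := ModularFormClass.levelOne_weight_zero_const (F := ModularForm 𝒮ℒ ((0 : ℕ) : ℤ)) f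
    have hq : HasQ (f : ℍ → ℂ) (PowerSeries.C a) := by
      rw [ha]
      exact HasQ.const a
    have h1 : toC c = PowerSeries.C a := by
      rw [← hc]
      exact hq.qExpansion_eq
    have h2 : c = PowerSeries.C (PowerSeries.coeff 0 c) := by
      ext n
      have h3 := congrArg (PowerSeries.coeff n) h1
      rw [coeff_toC, PowerSeries.coeff_C] at h3
      rw [PowerSeries.coeff_C]
      by_cases hn : n = 0
      · rw [if_pos hn, hn]
      · rw [if_neg hn] at h3 ⊢
        exact_mod_cast h3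
    refine ⟨MvPolynomial.C ((PowerSeries.coeff 0 c : ℤ) : ZMod p),
      MvPolynomial.isWeightedHomogeneous_C _ _, ?_⟩
    conv_rhs => rw [h2]
    simp [red]
  by_cases hkodd : Odd k
  · exact hzero (hz2 (ModularForm.levelOne_odd_weight_eq_zero (by exact_mod_cast hkodd) f))
  have hkev : Even k := Nat.not_odd_iff_even.mp hkodd
  by_cases hk2 : k = 2
  · subst hk2
    exact hzero (hz2 (rank_zero_iff_forall_zero.mp ModularForm.levelOne_weight_two_rank_zero f))
  have hk4 : 4 ≤ k := by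
    obtain ⟨m, hm⟩ := hkev
    omega
  obtain ⟨i, j, hij⟩ := exists_ij k hkev hk4
  have hijz : (i : ℤ) * 4 + (j : ℤ) * 6 = (k : ℤ) := by exact_mod_cast hij
  set a : ℤ := PowerSeries.coeff 0 c with ha
  set g := mon i j k hijz with hg
  set h := f - (a : ℂ) • g with hh
  set e : ℤ⟦X⟧ := c - PowerSeries.C a * (sQ ^ i * sR ^ j) with he
  have hqh : qExpansion 1 h = toC e := by
    rw [hh, FunLike.coe_sub, ModularForm.qExpansion_sub one_pos one_mem_strictPeriods_SL,
      FunLike.coe_smul, ModularForm.qExpansion_smul one_pos one_mem_strictPeriods_SL, hc, hg, qMon, he,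
      toC_sub, toC_mul]
    congr 1
    rw [PowerSeries.smul_eq_C_mul]
    congr 1
    simp [toC]
  have he0 : PowerSeries.coeff 0 e = 0 := by
    rw [he, map_sub, PowerSeries.coeff_C_mul]
    simp [coeff0_sQ, coeff0_sR, ha]
  have hcusp : PowerSeries.coeff 0 (qExpansion 1 h) = 0 := by
    rw [hqh, coeff_toC, he0, Int.cast_zero]
  have hfin : red p c = PowerSeries.C (a : ZMod p) * (red p sQ ^ i * red p sR ^ j) + red p e := by
    have : c = PowerSeries.C a * (sQ ^ i * sR ^ j) + e := by rw [he]; ring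
    rw [this]
    simp [red]
  have hA1 : MvPolynomial.IsWeightedHomogeneous (![4, 6] : Fin 2 → ℕ)
      (MvPolynomial.C ((a : ℤ) : ZMod p) * (MvPolynomial.X 0 ^ i * MvPolynomial.X 1 ^ j)) k := by
    have h1 := ((MvPolynomial.isWeightedHomogeneous_X (ZMod p) (![4, 6] : Fin 2 → ℕ) 0).pow i).mul
      ((MvPolynomial.isWeightedHomogeneous_X (ZMod p) (![4, 6] : Fin 2 → ℕ) 1).pow j)
    have h2 := (MvPolynomial.isWeightedHomogeneous_C (![4, 6] : Fin 2 → ℕ) ((a : ℤ) : ZMod p)).mul h1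
    have e : 0 + (i • (![4, 6] : Fin 2 → ℕ) 0 + j • (![4, 6] : Fin 2 → ℕ) 1) = k := by
      simp
      omega
    rw [e] at h2
    exact h2
  have hA1v : MvPolynomial.aeval ![red p sQ, red p sR]
      (MvPolynomial.C ((a : ℤ) : ZMod p) * (MvPolynomial.X 0 ^ i * MvPolynomial.X 1 ^ j)) =
      PowerSeries.C (a : ZMod p) * (red p sQ ^ i * red p sR ^ j) := by
    simp
  by_cases hk12 : k < 12
  · have hr := rank_zero_iff_forall_zero.mp
      (CuspForm.rank_eq_zero_of_weight_lt_twelve (k := (k : ℤ)) (by exact_mod_cast hk12))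
      (ModularForm.toCuspForm h hcusp)
    have h0 : (h : ℍ → ℂ) = 0 := by
      funext z
      have := congrArg (fun F : CuspForm 𝒮ℒ (k : ℤ) => F z) hr
      simpa using this
    have he' : e = 0 := by
      apply toC_injective
      rw [← hqh, h0, qExpansion_zero]
      simp [toC]
    refine ⟨_, hA1, ?_⟩
    rw [hA1v, hfin, he']
    simp [red]
  push Not at hk12
  set g' : ModularForm 𝒮ℒ ((k : ℤ) - 12) :=
    CuspForm.discriminantEquiv (ModularForm.toCuspForm h hcusp) with hg'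
  have hq' := ModularForm.qExpansion_eq_qExpansion_discriminant_mul h hcusp
  rw [← hg', hqh, qDisc] at hq'
  obtain ⟨e', he'⟩ : ∃ e' : ℤ⟦X⟧, e = PowerSeries.X * e' := by
    apply PowerSeries.X_dvd_iff.mpr
    rw [← PowerSeries.coeff_zero_eq_constantCoeff_apply]
    exact he0
  have hphi : PowerSeries.constantCoeff (phi ^ 24) = ((1 : ℤˣ) : ℤ) := by
    rw [map_pow, ← PowerSeries.coeff_zero_eq_constantCoeff_apply, phi_const]
    simp
  set u : ℤ⟦X⟧ := PowerSeries.invOfUnit (phi ^ 24) 1 with hu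
  have hphiu : phi ^ 24 * u = 1 := PowerSeries.mul_invOfUnit _ _ hphi
  have hq'' : toC e' = toC (phi ^ 24) * qExpansion 1 g' := by
    have h1 : (PowerSeries.X : ℂ⟦X⟧) * toC e' = PowerSeries.X * (toC (phi ^ 24) * qExpansion 1 g') := by
      have h2 : (PowerSeries.X : ℂ⟦X⟧) * toC e' = toC e := by
        rw [he', toC_mul]
        simp [toC]
      rw [h2, hq', toC_mul]
      simp [toC]
      ring
    exact mul_left_cancel₀ PowerSeries.X_ne_zero h1
  have hd : qExpansion 1 g' = toC (e' * u) := by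
    rw [toC_mul, hq'']
    have : toC (phi ^ 24) * toC u = 1 := by
      rw [← toC_mul, hphiu]
      simp [toC]
    calc qExpansion 1 g' = (toC (phi ^ 24) * toC u) * qExpansion 1 g' := by rw [this, one_mul]
      _ = _ := by ring
  have hcast : ((k : ℤ) - 12) = ((k - 12 : ℕ) : ℤ) := by omega
  obtain ⟨A', hA', hA'v⟩ := ih (k - 12) (by omega) (ModularForm.mcast hcast g') (e' * u) (by
    rw [ModularForm.qExpansion_mcast]
    exact hd)
  have hee : e = (PowerSeries.X * phi ^ 24) * (e' * u) := by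
    rw [he']
    calc PowerSeries.X * e' = PowerSeries.X * (phi ^ 24 * u) * e' := by rw [hphiu, mul_one]
      _ = _ := by ring
  have hred : red p (PowerSeries.X * phi ^ 24) =
      PowerSeries.C w * (red p sQ ^ 3 - red p sR ^ 2) := by
    have h1 := congrArg (red p) disc_int
    have h2 : red p (PowerSeries.C (1728 : ℤ) * (PowerSeries.X * phi ^ 24)) =
        PowerSeries.C ((1728 : ℤ) : ZMod p) * red p (PowerSeries.X * phi ^ 24) := by
      unfold red
      rw [map_mul, PowerSeries.map_C]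
      rfl
    have h3 : red p (sQ ^ 3 - sR ^ 2) = red p sQ ^ 3 - red p sR ^ 2 := by simp [red]
    rw [h2, h3] at h1
    rw [← h1, ← mul_assoc, ← map_mul, hw, map_one, one_mul]
  refine ⟨MvPolynomial.C ((a : ℤ) : ZMod p) * (MvPolynomial.X 0 ^ i * MvPolynomial.X 1 ^ j) +
    MvPolynomial.C w * (MvPolynomial.X 0 ^ 3 - MvPolynomial.X 1 ^ 2) * A',
    ?_, ?_⟩
  · refine hA1.add ?_
    have h1 := (MvPolynomial.isWeightedHomogeneous_X (ZMod p) (![4, 6] : Fin 2 → ℕ) 0).pow 3
    have h2 := (MvPolynomial.isWeightedHomogeneous_X (ZMod p) (![4, 6] : Fin 2 → ℕ) 1).pow 2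
    have h3 : MvPolynomial.IsWeightedHomogeneous (![4, 6] : Fin 2 → ℕ)
        (MvPolynomial.X 0 ^ 3 - MvPolynomial.X 1 ^ 2 : MvPolynomial (Fin 2) (ZMod p)) 12 := by
      have h1' : MvPolynomial.IsWeightedHomogeneous (![4, 6] : Fin 2 → ℕ)
        (MvPolynomial.X 0 ^ 3 : MvPolynomial (Fin 2) (ZMod p)) 12 := by
        simpa using h1
      have h2' : MvPolynomial.IsWeightedHomogeneous (![4, 6] : Fin 2 → ℕ)
        (MvPolynomial.X 1 ^ 2 : MvPolynomial (Fin 2) (ZMod p)) 12 := by
        simpa using h2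
      exact (MvPolynomial.weightedHomogeneousSubmodule (ZMod p) (![4, 6] : Fin 2 → ℕ) 12).sub_mem h1' h2'
    have h4 := ((MvPolynomial.isWeightedHomogeneous_C (![4, 6] : Fin 2 → ℕ)
      w).mul h3).mul hA'
    have e : 0 + 12 + (k - 12) = k := by omega
    rw [e] at h4
    exact h4
  · rw [map_add, hA1v, map_mul, hA'v, hfin]
    refine congrArg (fun t => PowerSeries.C (a : ZMod p) * (red p sQ ^ i * red p sR ^ j) + t) ?_
    rw [hee]
    have h1 : red p (PowerSeries.X * phi ^ 24 * (e' * u)) =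
        red p (PowerSeries.X * phi ^ 24) * red p (e' * u) := by
      unfold red
      rw [map_mul]
    rw [h1, hred]
    refine congrArg (fun t => t * red p (e' * u)) ?_
    rw [map_mul, MvPolynomial.aeval_C, map_sub, map_pow, map_pow, MvPolynomial.aeval_X,
      MvPolynomial.aeval_X]
    rfl


theorem levelOne_mod (M : ℕ) (hM : Nat.Coprime 6 M) (k : ℕ)
    (f : ModularForm 𝒮ℒ (k : ℤ)) (c : ℤ⟦X⟧) (hc : HasQ f (toC c)) :
    ∃ A : U M, Iso A k ∧ ev1 M A = red M c := by
  have h1 : Nat.Coprime 1728 M := by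
    have h2 : Nat.Coprime 2 M := Nat.Coprime.coprime_dvd_left (by norm_num) hM
    have h3 : Nat.Coprime 3 M := Nat.Coprime.coprime_dvd_left (by norm_num) hM
    have h4 : Nat.Coprime (2 ^ 6 * 3 ^ 3) M := (h2.pow_left 6).mul_left (h3.pow_left 3)
    exact h4
  have h2 : IsCoprime ((1728 : ℕ) : ℤ) (M : ℤ) := Nat.isCoprime_iff_coprime.2 h1
  obtain ⟨u, v, huv⟩ := h2
  have hw : ((u : ℤ) : ZMod M) * ((1728 : ℤ) : ZMod M) = 1 := by
    have h := congrArg (fun t : ℤ => (t : ZMod M)) huv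
    simp only [Int.cast_add, Int.cast_mul, Int.cast_natCast, ZMod.natCast_self, mul_zero,
      add_zero, Int.cast_one] at h
    exact_mod_cast h
  exact lv_levelOne_aux M _ hw k f c hc.qExpansion_eq

private theorem lv_mon_hasQ (i j : ℕ) (k : ℤ) (h : (i : ℤ) * 4 + (j : ℤ) * 6 = k) :
    HasQ (mon i j k h) (toC (sQ ^ i * sR ^ j)) := by
  have h1 := (hasQ_E4.pow i).mul (hasQ_E6.pow j)
  rw [toC_mul, toC_pow, toC_pow]
  have e : (mon i j k h : ℍ → ℂ) = fun z => ModularForm.E₄ z ^ i * ModularForm.E₆ z ^ j := by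
    funext z
    simp [mon]
  rw [e]
  exact h1

private theorem lv_lift (M k : ℕ) (s : Finset (Fin 2 →₀ ℕ)) (a : (Fin 2 →₀ ℕ) → ZMod M)
    (hs : ∀ d ∈ s, d 0 * 4 + d 1 * 6 = k) :
    ∃ (f : ModularForm 𝒮ℒ (k : ℤ)) (c : ℤ⟦X⟧), HasQ f (toC c) ∧
      red M c = ∑ d ∈ s, ev1 M (MvPolynomial.monomial d (a d)) := by
  classical
  induction s using Finset.induction_on with
  | empty =>
    refine ⟨0, 0, ?_, ?_⟩
    · have e : ((0 : ModularForm 𝒮ℒ (k : ℤ)) : ℍ → ℂ) = fun _ => (0 : ℂ) := rfl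
      rw [e]
      have h := HasQ.const 0
      have e2 : toC 0 = PowerSeries.C (0 : ℂ) := by simp [toC]
      rw [e2]
      exact h
    · simp [red]
  | insert d s hd ih =>
    obtain ⟨f, c, hf, hc⟩ := ih (fun d' hd' => hs d' (Finset.mem_insert_of_mem hd'))
    obtain ⟨b, hb⟩ := ZMod.intCast_surjective (a d)
    have hk : ((d 0 : ℕ) : ℤ) * 4 + ((d 1 : ℕ) : ℤ) * 6 = (k : ℤ) := by
      exact_mod_cast hs d (Finset.mem_insert_self _ _)
    refine ⟨(b : ℂ) • mon (d 0) (d 1) k hk + f, PowerSeries.C b * (sQ ^ d 0 * sR ^ d 1) + c, ?_, ?_⟩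
    · have h1 := ((HasQ.const (b : ℂ)).mul (lv_mon_hasQ (d 0) (d 1) k hk)).add hf
      have e1 : (((b : ℂ) • mon (d 0) (d 1) k hk + f : ModularForm 𝒮ℒ (k : ℤ)) : ℍ → ℂ) =
          fun z => (b : ℂ) * mon (d 0) (d 1) k hk z + f z := by
        funext z
        simp
      have e2 : toC (PowerSeries.C b * (sQ ^ d 0 * sR ^ d 1) + c) =
          PowerSeries.C (b : ℂ) * toC (sQ ^ d 0 * sR ^ d 1) + toC c := by
        simp [toC]
      rw [e1, e2]
      exact h1
    · rw [Finset.sum_insert hd, ← hc, ev1, MvPolynomial.aeval_monomial,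
        Finsupp.prod_fintype _ _ (fun i => by simp), Fin.prod_univ_two, ← hb]
      have e3 : red M (PowerSeries.C b * (sQ ^ d 0 * sR ^ d 1) + c) =
          PowerSeries.C ((b : ℤ) : ZMod M) * (red M sQ ^ d 0 * red M sR ^ d 1) + red M c := by
        simp [red]
      rw [e3]
      rfl

theorem lift1 (M k : ℕ) (A : U M) (hA : Iso A k) :
    ∃ (f : ModularForm 𝒮ℒ (k : ℤ)) (c : ℤ⟦X⟧), HasQ f (toC c) ∧ red M c = ev1 M A := by
  obtain ⟨f, c, hf, hc⟩ := lv_lift M k A.support (fun d => MvPolynomial.coeff d A) (by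
    intro d hd
    have h1 := hA (MvPolynomial.mem_support_iff.1 hd)
    rw [Finsupp.weight_apply, Finsupp.sum_fintype _ _ (fun i => by simp), Fin.sum_univ_two] at h1
    simpa using h1)
  refine ⟨f, c, hf, ?_⟩
  rw [hc, ← map_sum, ← MvPolynomial.as_sum]

end Pool.Agent.B5X
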