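import Pool.Agent.B5X.Defs
import Pool.Agent.B5X.EI
import Pool.Agent.B5X.LV

/-!
B5X / AJ: `eis` with s = j - 1 is N mod p^j (since p^(j-1) D is divisible by p^j); `levelOne_mod`, divide by N.
-/

set_option autoImplicit false

namespace Pool.Agent.B5X

open PowerSeries UpperHalfPlane Pool.Agent.B5
open scoped MatrixGroups ModularForm Manifold ArithmeticFunction.sigma

theorem exists_Aj (p : ℕ) [Fact p.Prime] (hp : 3 < p) (j : ℕ) (hj : 1 ≤ j) :
    ∃ A : U (p ^ j), Iso A (p ^ (j - 1) * (p - 1)) ∧ ev1 (p ^ j) A = 1 := by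
  have hpr : p.Prime := Fact.out
  obtain ⟨N, D, f, hN, hD, hf⟩ := eis p hp (j - 1)
  have hco : Nat.Coprime 6 (p ^ j) := by
    apply Nat.Coprime.pow_right
    have h3 : Nat.Coprime 2 p := (Nat.coprime_primes Nat.prime_two hpr).2 (by omega)
    have h4 : Nat.Coprime 3 p := (Nat.coprime_primes Nat.prime_three hpr).2 (by omega)
    exact h3.mul_left h4
  obtain ⟨A, hA, hAv⟩ := levelOne_mod (p ^ j) hco (p ^ (j - 1) * (p - 1)) f _ hf
  have hcoN : IsCoprime N ((p ^ j : ℕ) : ℤ) := by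
    rw [Nat.cast_pow]
    apply IsCoprime.pow_right
    rw [isCoprime_comm]
    exact (Nat.prime_iff_prime_int.1 hpr).irreducible.coprime_iff_not_dvd.2 hN
  obtain ⟨u, v, huv⟩ := hcoN
  have hinv : ((u : ℤ) : ZMod (p ^ j)) * ((N : ℤ) : ZMod (p ^ j)) = 1 := by
    have h := congrArg (fun t : ℤ => (t : ZMod (p ^ j))) huv
    simp only [Int.cast_add, Int.cast_mul, Int.cast_natCast, ZMod.natCast_self, mul_zero,
      add_zero, Int.cast_one] at h
    exact h
  have hred : red (p ^ j) (PowerSeries.mk fun n => if n = 0 then N else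
        -2 * ((p ^ (j - 1) * (p - 1) : ℕ) : ℤ) * D *
          (σ (p ^ (j - 1) * (p - 1) - 1) n : ℤ)) = PowerSeries.C ((N : ℤ) : ZMod (p ^ j)) := by
    ext n
    rw [red, PowerSeries.coeff_map, PowerSeries.coeff_mk, PowerSeries.coeff_C]
    by_cases hn : n = 0
    · simp [hn]
    · rw [if_neg hn, if_neg hn]
      obtain ⟨D', hD'⟩ := hD
      have h2 : ((-2 * ((p ^ (j - 1) * (p - 1) : ℕ) : ℤ) * D *
          (σ (p ^ (j - 1) * (p - 1) - 1) n : ℤ) : ℤ) : ZMod (p ^ j)) = 0 := by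
        rw [ZMod.intCast_zmod_eq_zero_iff_dvd]
        refine ⟨-2 * ((p - 1 : ℕ) : ℤ) * D' * (σ (p ^ (j - 1) * (p - 1) - 1) n : ℤ), ?_⟩
        have h3 : ((p ^ j : ℕ) : ℤ) = (p : ℤ) ^ (j - 1) * p := by
          rw [← pow_succ, Nat.cast_pow, Nat.sub_add_cancel hj]
        rw [h3, hD', Nat.cast_mul, Nat.cast_pow]
        ring
      exact h2
  refine ⟨MvPolynomial.C ((u : ℤ) : ZMod (p ^ j)) * A, ?_, ?_⟩
  · have h4 := (MvPolynomial.isWeightedHomogeneous_C (![4, 6] : Fin 2 → ℕ)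
      ((u : ℤ) : ZMod (p ^ j))).mul hA
    rw [zero_add] at h4
    exact h4
  · rw [map_mul, hAv, hred, ev1, MvPolynomial.aeval_C]
    have : (algebraMap (ZMod (p ^ j)) (ZMod (p ^ j))⟦X⟧) ((u : ℤ) : ZMod (p ^ j)) =
      PowerSeries.C ((u : ℤ) : ZMod (p ^ j)) := rfl
    rw [this, ← map_mul, hinv, map_one]

end Pool.Agent.B5X
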