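import Pool.Agent.B5X.Defs
import Pool.Agent.B5.IB

/-!
B5X / ID: Ramanujan's identities for Q, R. dD is a derivation on power series (Leibniz rule coefficientwise); differentiate
id_Q, id_R (Pool.Agent.B5.IB) with id_Da, id_Db, id_DE and reduce with id_E2; then linear_combination.
-/

set_option autoImplicit false

namespace Pool.Agent.B5X

open PowerSeries UpperHalfPlane Pool.Agent.B5
open scoped MatrixGroups ModularForm Manifold ArithmeticFunction.sigma

private theorem idx_dD (c : ℤ⟦X⟧) : dD c = 6 * (PowerSeries.X * PowerSeries.derivative ℤ c) := by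
  ext n
  rw [show (6 : ℤ⟦X⟧) = PowerSeries.C (6 : ℤ) from (map_ofNat PowerSeries.C 6).symm,
    PowerSeries.coeff_C_mul]
  cases n with
  | zero => simp [dD]
  | succ n =>
    rw [PowerSeries.coeff_succ_X_mul, PowerSeries.coeff_derivative]
    simp only [dD, PowerSeries.coeff_mk]
    push_cast
    ring

private theorem idx_mul (a b : ℤ⟦X⟧) : dD (a * b) = dD a * b + a * dD b := by
  rw [idx_dD, idx_dD, idx_dD, Derivation.leibniz, smul_eq_mul, smul_eq_mul]
  ring

private theorem idx_add (a b : ℤ⟦X⟧) : dD (a + b) = dD a + dD b := by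
  rw [idx_dD, idx_dD, idx_dD, map_add]
  ring

private theorem idx_sub (a b : ℤ⟦X⟧) : dD (a - b) = dD a - dD b := by
  rw [idx_dD, idx_dD, idx_dD, map_sub]
  ring

private theorem idx_C (a : ℤ) : dD (PowerSeries.C a : ℤ⟦X⟧) = 0 := by
  ext n
  simp only [dD, PowerSeries.coeff_mk, PowerSeries.coeff_C]
  by_cases h : n = 0
  · simp [h]
  · simp [h]

theorem id_DQ : dD sQ = 2 * (sP * sQ - sR) := by
  have h1 : dD sQ = dD (sa * sa + PowerSeries.C (250 : ℤ) * (sa * sb) +
      PowerSeries.C (3125 : ℤ) * (sb * sb)) := by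
    congr 1
    rw [id_Q]
    simp only [map_ofNat]
    ring
  rw [idx_add, idx_add, idx_mul, idx_mul, idx_mul, idx_mul, idx_mul, idx_C, idx_C, id_Da,
    id_Db] at h1
  simp only [map_ofNat] at h1
  rw [h1]
  linear_combination (2 * sP) * (-id_Q) + 2 * id_R

theorem id_DR : dD sR = 3 * (sP * sR - sQ ^ 2) := by
  have h1 : dD sR = dD (sE * (sa * sa - PowerSeries.C (500 : ℤ) * (sa * sb) -
      PowerSeries.C (15625 : ℤ) * (sb * sb))) := by
    congr 1
    rw [id_R]
    simp only [map_ofNat]
    ring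
  rw [idx_mul, idx_sub, idx_sub, idx_mul, idx_mul, idx_mul, idx_mul, idx_mul, idx_C, idx_C, id_Da,
    id_Db, id_DE] at h1
  simp only [map_ofNat] at h1
  rw [h1, id_Q, id_R]
  linear_combination (-2 * sa ^ 2 - 2000 * sa * sb - 156250 * sb ^ 2) * id_E2

end Pool.Agent.B5X
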