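import Pool.Agent.B5X.Defs
import Pool.Agent.B5X.ID
import Pool.Agent.B5.AL2

/-!
B5X / DE: the derivation in level one. der1 Q = -4 R, der1 R = -6 Q^2; id_DQ, id_DR reduced mod M; Leibniz for monomials, sums.
toU: der2 vQ = -4 vR, der2 vR = -6 vQ^2 (ring identities in two variables); sg vX = -vX, sg vY = -vY, sg vW = vW, sg (der2 G) = der2 (sg G).
(The statements der2_vX, der2_hom, ... in Pool.Agent.B5.AL2 are for prime moduli; here the modulus M is arbitrary, same proofs.)
-/

set_option autoImplicit false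

namespace Pool.Agent.B5X

open PowerSeries UpperHalfPlane Pool.Agent.B5
open scoped MatrixGroups ModularForm Manifold ArithmeticFunction.sigma

variable {M : ℕ}

private theorem DE_d0 : der2 (MvPolynomial.X 0 : U M) =
    MvPolynomial.X 0 * (- MvPolynomial.X 0 ^ 2 + 66 * MvPolynomial.X 0 * MvPolynomial.X 1
      + 11 * MvPolynomial.X 1 ^ 2) := by
  simp [der2, MvPolynomial.mkDerivation_X]

private theorem DE_d1 : der2 (MvPolynomial.X 1 : U M) =
    MvPolynomial.X 1 * (11 * MvPolynomial.X 0 ^ 2 - 66 * MvPolynomial.X 0 * MvPolynomial.X 1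
      - MvPolynomial.X 1 ^ 2) := by
  simp [der2, MvPolynomial.mkDerivation_X]

private theorem DE_mul (a b : U M) : der2 (a * b) = a * der2 b + b * der2 a := by
  rw [Derivation.leibniz, smul_eq_mul, smul_eq_mul]

private theorem DE_nat (n : ℕ) : der2 ((n : U M)) = 0 := Derivation.map_natCast _ n

private theorem DE_natmul (n : ℕ) (a : U M) : der2 ((n : U M) * a) = (n : U M) * der2 a := by
  rw [DE_mul, DE_nat, mul_zero, add_zero]

theorem der2_vX' : der2 (vX : U M) = -(2 * vX * vW) := by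
  have h : (vX : U M) = MvPolynomial.X 0 * MvPolynomial.X 0
      - ((11 : ℕ) : U M) * (MvPolynomial.X 0 * MvPolynomial.X 1)
      - MvPolynomial.X 1 * MvPolynomial.X 1 := by
    unfold vX
    push_cast
    ring
  rw [h, map_sub, map_sub, DE_natmul, DE_mul, DE_mul, DE_mul, DE_d0, DE_d1]
  unfold vW
  push_cast
  ring

theorem der2_vY' : der2 (vY : U M) = 10 * vY * vW := by
  unfold vY vW
  rw [DE_mul, DE_d0, DE_d1]
  ring

theorem der2_vW' : der2 (vW : U M) = 2 * (-vX ^ 2 + 44 * vX * vY + 625 * vY ^ 2) := by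
  have h : (vW : U M) = MvPolynomial.X 0 * MvPolynomial.X 0
      + MvPolynomial.X 1 * MvPolynomial.X 1 := by
    unfold vW
    ring
  rw [h, map_add, DE_mul, DE_mul, DE_d0, DE_d1]
  unfold vX vY
  ring

theorem vW_sq' : (vW : U M) ^ 2 = vX ^ 2 + 22 * vX * vY + 125 * vY ^ 2 := by
  unfold vX vY vW
  ring

private theorem DE_hnat (n : ℕ) {a : U M} {d : ℕ} (h : a.IsHomogeneous d) :
    ((n : U M) * a).IsHomogeneous d := by
  have h1 := (MvPolynomial.isHomogeneous_C (Fin 2) ((n : ZMod M))).mul h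
  rw [zero_add, map_natCast] at h1
  exact h1

private theorem DE_hX (i : Fin 2) : (MvPolynomial.X i : U M).IsHomogeneous 1 :=
  MvPolynomial.isHomogeneous_X _ i

theorem vX_hom' : (vX : U M).IsHomogeneous 2 := by
  have h : (vX : U M) = MvPolynomial.X 0 * MvPolynomial.X 0
      - ((11 : ℕ) : U M) * (MvPolynomial.X 0 * MvPolynomial.X 1)
      - MvPolynomial.X 1 * MvPolynomial.X 1 := by
    unfold vX
    push_cast
    ring
  rw [h]
  exact (((DE_hX 0).mul (DE_hX 0)).sub (DE_hnat 11 ((DE_hX 0).mul (DE_hX 1)))).sub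
    ((DE_hX 1).mul (DE_hX 1))

theorem vY_hom' : (vY : U M).IsHomogeneous 2 := (DE_hX 0).mul (DE_hX 1)

theorem vW_hom' : (vW : U M).IsHomogeneous 2 := by
  have h : (vW : U M) = MvPolynomial.X 0 * MvPolynomial.X 0
      + MvPolynomial.X 1 * MvPolynomial.X 1 := by
    unfold vW
    ring
  rw [h]
  exact ((DE_hX 0).mul (DE_hX 0)).add ((DE_hX 1).mul (DE_hX 1))

theorem vQ_hom' : (vQ : U M).IsHomogeneous 4 := by
  have h : (vQ : U M) = vX * vX + ((250 : ℕ) : U M) * (vX * vY)
      + ((3125 : ℕ) : U M) * (vY * vY) := by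
    unfold vQ
    push_cast
    ring
  rw [h]
  exact ((vX_hom'.mul vX_hom').add (DE_hnat 250 (vX_hom'.mul vY_hom'))).add
    (DE_hnat 3125 (vY_hom'.mul vY_hom'))

theorem vR_hom' : (vR : U M).IsHomogeneous 6 := by
  have h : (vR : U M) = vW * (vX * vX - ((500 : ℕ) : U M) * (vX * vY)
      - ((15625 : ℕ) : U M) * (vY * vY)) := by
    unfold vR
    push_cast
    ring
  rw [h]
  exact vW_hom'.mul (((vX_hom'.mul vX_hom').sub (DE_hnat 500 (vX_hom'.mul vY_hom'))).sub
    (DE_hnat 15625 (vY_hom'.mul vY_hom')))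

private theorem DE_f0 : (MvPolynomial.X 0 * (- MvPolynomial.X 0 ^ 2
    + 66 * MvPolynomial.X 0 * MvPolynomial.X 1 + 11 * MvPolynomial.X 1 ^ 2) : U M).IsHomogeneous 3 := by
  have h : (MvPolynomial.X 0 * (- MvPolynomial.X 0 ^ 2
    + 66 * MvPolynomial.X 0 * MvPolynomial.X 1 + 11 * MvPolynomial.X 1 ^ 2) : U M) =
    MvPolynomial.X 0 * (((66 : ℕ) : U M) * (MvPolynomial.X 0 * MvPolynomial.X 1)
      + ((11 : ℕ) : U M) * (MvPolynomial.X 1 * MvPolynomial.X 1)
      - MvPolynomial.X 0 * MvPolynomial.X 0) := by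
    push_cast
    ring
  rw [h]
  exact (DE_hX 0).mul (((DE_hnat 66 ((DE_hX 0).mul (DE_hX 1))).add
    (DE_hnat 11 ((DE_hX 1).mul (DE_hX 1)))).sub ((DE_hX 0).mul (DE_hX 0)))

private theorem DE_f1 : (MvPolynomial.X 1 * (11 * MvPolynomial.X 0 ^ 2
    - 66 * MvPolynomial.X 0 * MvPolynomial.X 1 - MvPolynomial.X 1 ^ 2) : U M).IsHomogeneous 3 := by
  have h : (MvPolynomial.X 1 * (11 * MvPolynomial.X 0 ^ 2
    - 66 * MvPolynomial.X 0 * MvPolynomial.X 1 - MvPolynomial.X 1 ^ 2) : U M) =
    MvPolynomial.X 1 * (((11 : ℕ) : U M) * (MvPolynomial.X 0 * MvPolynomial.X 0)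
      - ((66 : ℕ) : U M) * (MvPolynomial.X 0 * MvPolynomial.X 1)
      - MvPolynomial.X 1 * MvPolynomial.X 1) := by
    push_cast
    ring
  rw [h]
  exact (DE_hX 1).mul (((DE_hnat 11 ((DE_hX 0).mul (DE_hX 0))).sub
    (DE_hnat 66 ((DE_hX 0).mul (DE_hX 1)))).sub ((DE_hX 1).mul (DE_hX 1)))

private theorem DE_eq (G : U M) : der2 G = der2 (MvPolynomial.X 0) * MvPolynomial.pderiv 0 G +
    der2 (MvPolynomial.X 1) * MvPolynomial.pderiv 1 G := by
  have h : (der2 : Derivation (ZMod M) (U M) (U M)) =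
      (der2 (MvPolynomial.X 0) : U M) • MvPolynomial.pderiv 0 +
      (der2 (MvPolynomial.X 1) : U M) • MvPolynomial.pderiv 1 := by
    refine MvPolynomial.derivation_ext fun i => ?_
    fin_cases i
    · simp [MvPolynomial.pderiv_X_self, MvPolynomial.pderiv_X_of_ne]
    · simp [MvPolynomial.pderiv_X_self, MvPolynomial.pderiv_X_of_ne]
  have h2 := congrArg (fun D : Derivation (ZMod M) (U M) (U M) => D G) h
  simpa using h2

theorem der2_hom' {G : U M} {d : ℕ} (hG : G.IsHomogeneous d) : (der2 G).IsHomogeneous (d + 2) := by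
  rcases Nat.eq_zero_or_pos d with h0 | h0
  · subst h0
    have h1 : G = MvPolynomial.C (MvPolynomial.coeff 0 G) := by
      rw [← MvPolynomial.totalDegree_eq_zero_iff_eq_C]
      exact Nat.le_zero.1 hG.totalDegree_le
    rw [h1]
    have h2 : der2 (MvPolynomial.C (MvPolynomial.coeff 0 G) : U M) = 0 :=
      MvPolynomial.derivation_C _ _
    rw [h2]
    exact MvPolynomial.isHomogeneous_zero _ _ _
  · rw [DE_eq, DE_d0, DE_d1]
    have h1 := DE_f0.mul (hG.pderiv (i := 0))
    have h2 := DE_f1.mul (hG.pderiv (i := 1))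
    have e : 3 + (d - 1) = d + 2 := by omega
    rw [e] at h1 h2
    exact h1.add h2

private theorem DE_sg0 : sg (MvPolynomial.X 0 : U M) = MvPolynomial.X 1 := by
  simp [sg]

private theorem DE_sg1 : sg (MvPolynomial.X 1 : U M) = -MvPolynomial.X 0 := by
  simp [sg]

theorem sg_vX : sg (vX : U M) = -vX := by
  unfold vX
  simp only [map_sub, map_mul, map_pow, map_ofNat, DE_sg0, DE_sg1]
  ring

theorem sg_vY : sg (vY : U M) = -vY := by
  unfold vY
  simp only [map_mul, DE_sg0, DE_sg1]
  ring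

theorem sg_vW : sg (vW : U M) = vW := by
  unfold vW
  simp only [map_add, map_pow, DE_sg0, DE_sg1]
  ring

private theorem DE_sgQ : sg (vQ : U M) = vQ := by
  unfold vQ
  simp only [map_add, map_mul, map_pow, map_ofNat, sg_vX, sg_vY]
  ring

private theorem DE_sgR : sg (vR : U M) = vR := by
  unfold vR
  simp only [map_sub, map_mul, map_pow, map_ofNat, sg_vX, sg_vY, sg_vW]
  ring

private theorem DE_t0 : toU (MvPolynomial.X 0 : U M) = vQ := by
  simp [toU]

private theorem DE_t1 : toU (MvPolynomial.X 1 : U M) = vR := by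
  simp [toU]

theorem sg_toU (A : U M) : sg (toU A) = toU A := by
  have h : (sg : U M →ₐ[ZMod M] U M).comp toU = toU := by
    refine MvPolynomial.algHom_ext fun i => ?_
    fin_cases i
    · show sg (toU (MvPolynomial.X 0 : U M)) = toU (MvPolynomial.X 0 : U M)
      rw [DE_t0, DE_sgQ]
    · show sg (toU (MvPolynomial.X 1 : U M)) = toU (MvPolynomial.X 1 : U M)
      rw [DE_t1, DE_sgR]
  exact congrArg (fun f : U M →ₐ[ZMod M] U M => f A) h

theorem sg_der2 (G : U M) : sg (der2 G) = der2 (sg G) := by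
  induction G using MvPolynomial.induction_on with
  | C a =>
    have h1 : der2 (MvPolynomial.C a : U M) = 0 := MvPolynomial.derivation_C _ _
    have h2 : sg (MvPolynomial.C a : U M) = MvPolynomial.C a := by simp [sg]
    rw [h1, h2, h1, map_zero]
  | add p q hp hq => rw [map_add, map_add, map_add, map_add, hp, hq]
  | mul_X p i hp =>
    have hX : sg (der2 (MvPolynomial.X i : U M)) = der2 (sg (MvPolynomial.X i : U M)) := by
      fin_cases i
      · show sg (der2 (MvPolynomial.X 0 : U M)) = der2 (sg (MvPolynomial.X 0 : U M))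
        rw [DE_d0, DE_sg0, DE_d1]
        simp only [map_add, map_mul, map_pow, map_ofNat, map_neg, DE_sg0, DE_sg1]
        ring
      · show sg (der2 (MvPolynomial.X 1 : U M)) = der2 (sg (MvPolynomial.X 1 : U M))
        rw [DE_d1, DE_sg1, map_neg, DE_d0]
        simp only [map_sub, map_mul, map_pow, map_ofNat, DE_sg0, DE_sg1]
        ring
    rw [DE_mul, map_add, map_mul, map_mul, map_mul, DE_mul, hX, hp]

theorem toU_hom {A : U M} {k : ℕ} (hA : Iso A k) : (toU A).IsHomogeneous k := by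
  have h1 : toU A = ∑ m ∈ A.support, MvPolynomial.C (MvPolynomial.coeff m A) *
      (vQ ^ m 0 * vR ^ m 1) := by
    rw [toU, MvPolynomial.aeval_def, MvPolynomial.eval₂_eq']
    refine Finset.sum_congr rfl fun m _ => ?_
    rw [Fin.prod_univ_two]
    rfl
  rw [h1]
  refine MvPolynomial.IsHomogeneous.sum _ _ _ fun m hm => ?_
  have hdeg : 4 * m 0 + 6 * m 1 = k := by
    have h2 := hA (MvPolynomial.mem_support_iff.1 hm)
    rw [Finsupp.weight_apply, Finsupp.sum_fintype _ _ (fun i => by simp)] at h2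
    simp [Fin.sum_univ_two] at h2
    omega
  have h3 := (MvPolynomial.isHomogeneous_C (Fin 2) (MvPolynomial.coeff m A)).mul
    ((vQ_hom' (M := M).pow (m 0)).mul (vR_hom' (M := M).pow (m 1)))
  rw [zero_add, hdeg] at h3
  exact h3

private theorem DE_vQ : der2 (vQ : U M) = -(4 * vR) := by
  have h : (vQ : U M) = vX * vX + ((250 : ℕ) : U M) * (vX * vY)
      + ((3125 : ℕ) : U M) * (vY * vY) := by
    unfold vQ
    push_cast
    ring
  rw [h, map_add, map_add, DE_natmul, DE_natmul, DE_mul, DE_mul, DE_mul, der2_vX', der2_vY']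
  unfold vR
  push_cast
  ring

private theorem DE_vR : der2 (vR : U M) = -(6 * vQ ^ 2) := by
  have h : (vR : U M) = vW * (vX * vX - ((500 : ℕ) : U M) * (vX * vY)
      - ((15625 : ℕ) : U M) * (vY * vY)) := by
    unfold vR
    push_cast
    ring
  rw [h, DE_mul, map_sub, map_sub, DE_natmul, DE_natmul, DE_mul, DE_mul, DE_mul, der2_vX',
    der2_vY', der2_vW']
  unfold vQ
  push_cast
  linear_combination (-4 * vX ^ 2 - 4000 * vX * vY - 312500 * vY ^ 2) * (vW_sq' (M := M))

private theorem DE_e0 : (der1 (MvPolynomial.X 0 : U M)) = -(4 * MvPolynomial.X 1) := by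
  simp [der1, MvPolynomial.mkDerivation_X]

private theorem DE_e1 : (der1 (MvPolynomial.X 1 : U M)) = -(6 * MvPolynomial.X 0 ^ 2) := by
  simp [der1, MvPolynomial.mkDerivation_X]

private theorem DE_mul1 (a b : U M) : der1 (a * b) = a * der1 b + b * der1 a := by
  rw [Derivation.leibniz, smul_eq_mul, smul_eq_mul]

theorem toU_der (A : U M) : der2 (toU A) = toU (der1 A) := by
  induction A using MvPolynomial.induction_on with
  | C a =>
    have h1 : der1 (MvPolynomial.C a : U M) = 0 := MvPolynomial.derivation_C _ _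
    have h2 : toU (MvPolynomial.C a : U M) = MvPolynomial.C a := by simp [toU]
    have h3 : der2 (MvPolynomial.C a : U M) = 0 := MvPolynomial.derivation_C _ _
    rw [h1, h2, h3, map_zero]
  | add p q hp hq => rw [map_add, map_add, map_add, map_add, hp, hq]
  | mul_X p i hp =>
    have hX : der2 (toU (MvPolynomial.X i : U M)) = toU (der1 (MvPolynomial.X i : U M)) := by
      fin_cases i
      · show der2 (toU (MvPolynomial.X 0 : U M)) = toU (der1 (MvPolynomial.X 0 : U M))
        rw [DE_t0, DE_vQ, DE_e0, map_neg, map_mul, map_ofNat, DE_t1]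
      · show der2 (toU (MvPolynomial.X 1 : U M)) = toU (der1 (MvPolynomial.X 1 : U M))
        rw [DE_t1, DE_vR, DE_e1, map_neg, map_mul, map_ofNat, map_pow, DE_t0]
    rw [map_mul, DE_mul, DE_mul1, map_add, map_mul, map_mul, hX, hp]

private theorem DE_mono (A : U M) : A = ∑ m ∈ A.support, MvPolynomial.C (MvPolynomial.coeff m A) *
    (MvPolynomial.X 0 ^ m 0 * MvPolynomial.X 1 ^ m 1) := by
  conv_lhs => rw [MvPolynomial.as_sum A]
  refine Finset.sum_congr rfl fun m _ => ?_
  rw [MvPolynomial.monomial_eq, Finsupp.prod_fintype _ _ (fun i => pow_zero _),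
    Fin.prod_univ_two]

private theorem DE_deg {A : U M} {k : ℕ} (hA : Iso A k) {m : Fin 2 →₀ ℕ} (hm : m ∈ A.support) :
    4 * m 0 + 6 * m 1 = k := by
  have h2 := hA (MvPolynomial.mem_support_iff.1 hm)
  rw [Finsupp.weight_apply, Finsupp.sum_fintype _ _ (fun i => by simp)] at h2
  simp [Fin.sum_univ_two] at h2
  omega

private theorem DE_pow1 (a : U M) (n : ℕ) : der1 (a ^ (n + 1)) = ((n + 1 : ℕ) : U M) * a ^ n * der1 a := by
  induction n with
  | zero => simp
  | succ n ih =>
    rw [pow_succ, DE_mul1, ih]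
    push_cast
    ring

private theorem DE_isoX0 : Iso (MvPolynomial.X 0 : U M) 4 :=
  MvPolynomial.isWeightedHomogeneous_X (ZMod M) (![4, 6] : Fin 2 → ℕ) 0

private theorem DE_isoX1 : Iso (MvPolynomial.X 1 : U M) 6 :=
  MvPolynomial.isWeightedHomogeneous_X (ZMod M) (![4, 6] : Fin 2 → ℕ) 1

private theorem DE_isoC (c : ZMod M) : Iso (MvPolynomial.C c : U M) 0 :=
  MvPolynomial.isWeightedHomogeneous_C (![4, 6] : Fin 2 → ℕ) c

private theorem DE_isoN (n : ℕ) : Iso ((n : ℕ) : U M) 0 := by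
  have h := DE_isoC (M := M) (n : ZMod M)
  rwa [map_natCast] at h

private theorem DE_isoMul {a b : U M} {j k l : ℕ} (ha : Iso a j) (hb : Iso b k) (h : j + k = l) :
    Iso (a * b) l := by
  rw [← h]
  exact MvPolynomial.IsWeightedHomogeneous.mul ha hb

private theorem DE_isoPow {a : U M} {j : ℕ} (ha : Iso a j) (n : ℕ) : Iso (a ^ n) (j * n) := by
  induction n with
  | zero =>
    rw [pow_zero, mul_zero]
    have h := DE_isoN (M := M) 1
    rwa [Nat.cast_one] at h
  | succ n ih =>
    rw [pow_succ]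
    exact DE_isoMul ih ha (by ring)

private theorem DE_isoAdd {a b : U M} {j : ℕ} (ha : Iso a j) (hb : Iso b j) : Iso (a + b) j :=
  MvPolynomial.IsWeightedHomogeneous.add ha hb

private theorem DE_isoNeg {a : U M} {j : ℕ} (ha : Iso a j) : Iso (-a) j := by
  have h := DE_isoMul (DE_isoC (M := M) (-1)) ha (zero_add j)
  rwa [map_neg, map_one, neg_one_mul] at h

private theorem DE_iso0 : Iso (der1 (MvPolynomial.X 0 : U M)) 6 := by
  rw [DE_e0]
  refine DE_isoNeg ?_
  have h := DE_isoMul (DE_isoN (M := M) 4) (DE_isoX1 (M := M)) (zero_add 6)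
  exact_mod_cast h

private theorem DE_iso1 : Iso (der1 (MvPolynomial.X 1 : U M)) 8 := by
  rw [DE_e1]
  refine DE_isoNeg ?_
  have h := DE_isoMul (DE_isoN (M := M) 6) (DE_isoPow (DE_isoX0 (M := M)) 2) (zero_add (4 * 2))
  exact_mod_cast h

private theorem DE_isoP0 (n : ℕ) : Iso (der1 (MvPolynomial.X 0 ^ n : U M)) (4 * n + 2) := by
  rcases n with _ | n
  · have h1 : der1 (1 : U M) = 0 := by
      have h0 : der1 (((1 : ℕ) : U M)) = 0 := Derivation.map_natCast _ 1
      rwa [Nat.cast_one] at h0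
    rw [pow_zero, h1]
    exact MvPolynomial.isWeightedHomogeneous_zero _ _ _
  · rw [DE_pow1]
    exact DE_isoMul (DE_isoMul (DE_isoN (n + 1)) (DE_isoPow DE_isoX0 n) rfl) DE_iso0 (by ring)

private theorem DE_isoP1 (n : ℕ) : Iso (der1 (MvPolynomial.X 1 ^ n : U M)) (6 * n + 2) := by
  rcases n with _ | n
  · have h1 : der1 (1 : U M) = 0 := by
      have h0 : der1 (((1 : ℕ) : U M)) = 0 := Derivation.map_natCast _ 1
      rwa [Nat.cast_one] at h0
    rw [pow_zero, h1]
    exact MvPolynomial.isWeightedHomogeneous_zero _ _ _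
  · rw [DE_pow1]
    exact DE_isoMul (DE_isoMul (DE_isoN (n + 1)) (DE_isoPow DE_isoX1 n) rfl) DE_iso1 (by ring)

theorem der1_iso {A : U M} {k : ℕ} (hA : Iso A k) : Iso (der1 A) (k + 2) := by
  have h : der1 A = ∑ m ∈ A.support, der1 (MvPolynomial.C (MvPolynomial.coeff m A) *
    (MvPolynomial.X 0 ^ m 0 * MvPolynomial.X 1 ^ m 1) : U M) := by
    conv_lhs => rw [DE_mono A]
    rw [map_sum]
  rw [h]
  refine MvPolynomial.IsWeightedHomogeneous.sum _ _ _ fun m hm => ?_
  have hdeg := DE_deg hA hm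
  have hC : der1 (MvPolynomial.C (MvPolynomial.coeff m A) : U M) = 0 :=
    MvPolynomial.derivation_C _ _
  rw [DE_mul1, hC, mul_zero, add_zero, DE_mul1]
  refine DE_isoMul (DE_isoC _) (DE_isoAdd ?_ ?_) (zero_add _)
  · exact DE_isoMul (DE_isoPow DE_isoX0 _) (DE_isoP1 _) (by omega)
  · exact DE_isoMul (DE_isoPow DE_isoX1 _) (DE_isoP0 _) (by omega)

private theorem DE_dD {R : Type*} [CommRing R] (c : R⟦X⟧) :
    dD c = 6 * (PowerSeries.X * PowerSeries.derivative R c) := by
  ext n
  have e6 : (6 : R⟦X⟧) = PowerSeries.C (6 : R) := (map_ofNat PowerSeries.C 6).symm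
  rw [dD, PowerSeries.coeff_mk, e6, PowerSeries.coeff_C_mul]
  rcases n with _ | n
  · simp
  · rw [PowerSeries.coeff_succ_X_mul, PowerSeries.coeff_derivative]
    push_cast
    ring

private theorem DE_dD_mul {R : Type*} [CommRing R] (a b : R⟦X⟧) :
    dD (a * b) = a * dD b + b * dD a := by
  rw [DE_dD, DE_dD, DE_dD, Derivation.leibniz, smul_eq_mul, smul_eq_mul]
  ring

private theorem DE_dD_add {R : Type*} [CommRing R] (a b : R⟦X⟧) :
    dD (a + b) = dD a + dD b := by
  rw [DE_dD, DE_dD, DE_dD, map_add]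
  ring

private theorem DE_dD_C {R : Type*} [CommRing R] (a : R) :
    dD (PowerSeries.C a) = 0 := by
  rw [DE_dD]
  have h : PowerSeries.derivative R (PowerSeries.C a) = 0 := by
    simpa using PowerSeries.derivative_C a
  rw [h]
  ring

private theorem DE_red (c : ℤ⟦X⟧) : red M c = PowerSeries.map (Int.castRingHom (ZMod M)) c := rfl

private theorem DE_dD_red (c : ℤ⟦X⟧) : dD (red M c) = red M (dD c) := by
  ext n
  simp [dD, red, PowerSeries.coeff_mk, PowerSeries.coeff_map]

private theorem DE_ev0 : ev1 M (MvPolynomial.X 0) = red M sQ := by simp [ev1]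

private theorem DE_ev1 : ev1 M (MvPolynomial.X 1) = red M sR := by simp [ev1]

private theorem DE_x : 2 * dD (ev1 M (MvPolynomial.X 0)) = ev1 M (der1 (MvPolynomial.X 0))
    + 4 * red M sP * ev1 M (MvPolynomial.X 0) := by
  rw [DE_e0, map_neg, map_mul, map_ofNat, DE_ev0, DE_ev1, DE_dD_red, id_DQ]
  simp only [DE_red, map_sub, map_mul, map_ofNat]
  ring

private theorem DE_y : 2 * dD (ev1 M (MvPolynomial.X 1)) = ev1 M (der1 (MvPolynomial.X 1))
    + 6 * red M sP * ev1 M (MvPolynomial.X 1) := by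
  rw [DE_e1, map_neg, map_mul, map_ofNat, map_pow, DE_ev0, DE_ev1, DE_dD_red, id_DR]
  simp only [DE_red, map_sub, map_mul, map_ofNat, map_pow]
  ring

private theorem DE_evpow {G : U M} {w : ℕ}
    (h : 2 * dD (ev1 M G) = ev1 M (der1 G) + (w : (ZMod M)⟦X⟧) * red M sP * ev1 M G) (n : ℕ) :
    2 * dD (ev1 M (G ^ n)) = ev1 M (der1 (G ^ n)) +
      ((w * n : ℕ) : (ZMod M)⟦X⟧) * red M sP * ev1 M (G ^ n) := by
  induction n with
  | zero =>
    have h1 : der1 (1 : U M) = 0 := by
      have h0 : der1 (((1 : ℕ) : U M)) = 0 := Derivation.map_natCast _ 1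
      rwa [Nat.cast_one] at h0
    have h2 : dD (1 : (ZMod M)⟦X⟧) = 0 := by
      have := DE_dD_C (R := ZMod M) 1
      rwa [map_one] at this
    rw [pow_zero, h1, map_one, map_zero, h2]
    push_cast
    ring
  | succ n ih =>
    rw [pow_succ, DE_mul1, map_mul, map_add, map_mul, map_mul, DE_dD_mul]
    push_cast at ih ⊢
    linear_combination ev1 M G * ih + ev1 M (G ^ n) * h

theorem ev1_der {A : U M} {k : ℕ} (hA : Iso A k) :
    2 * dD (ev1 M A) = ev1 M (der1 A) + (k : (ZMod M)⟦X⟧) * red M sP * ev1 M A := by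
  have key : ∀ s : Finset (Fin 2 →₀ ℕ), s ⊆ A.support →
      2 * dD (ev1 M (∑ m ∈ s, MvPolynomial.monomial m (MvPolynomial.coeff m A))) =
        ev1 M (der1 (∑ m ∈ s, MvPolynomial.monomial m (MvPolynomial.coeff m A))) +
        (k : (ZMod M)⟦X⟧) * red M sP *
          ev1 M (∑ m ∈ s, MvPolynomial.monomial m (MvPolynomial.coeff m A)) := by
    classical
    intro s
    induction s using Finset.induction_on with
    | empty =>
      intro _
      have h2 : dD (0 : (ZMod M)⟦X⟧) = 0 := by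
        have := DE_dD_C (R := ZMod M) 0
        rwa [map_zero] at this
      rw [Finset.sum_empty, map_zero, map_zero, map_zero, h2]
      ring
    | insert m s hm ih =>
      intro hs
      rw [Finset.sum_insert hm, map_add, map_add, map_add, DE_dD_add]
      have h1 := ih fun x hx => hs (Finset.mem_insert_of_mem hx)
      have hms : m ∈ A.support := hs (Finset.mem_insert_self _ _)
      have hdeg := DE_deg hA hms
      have h2 : MvPolynomial.monomial m (MvPolynomial.coeff m A) =
          MvPolynomial.C (MvPolynomial.coeff m A) *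
            (MvPolynomial.X 0 ^ m 0 * MvPolynomial.X 1 ^ m 1) := by
        rw [MvPolynomial.monomial_eq, Finsupp.prod_fintype _ _ (fun i => pow_zero _),
          Fin.prod_univ_two]
      have hx := DE_x (M := M)
      have hy := DE_y (M := M)
      have h3 := DE_evpow (w := 4) (by push_cast; exact hx) (m 0)
      have h4 := DE_evpow (w := 6) (by push_cast; exact hy) (m 1)
      have hC : ∀ c : ZMod M, ev1 M (MvPolynomial.C c) = PowerSeries.C c := fun c => by
        have := (ev1 M).commutes c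
        exact this
      have hDC : der1 (MvPolynomial.C (MvPolynomial.coeff m A) : U M) = 0 :=
        MvPolynomial.derivation_C _ _
      rw [h2, DE_mul1, DE_mul1, hDC, mul_zero, add_zero, map_mul, map_mul, map_mul, map_add,
        map_mul, map_mul, hC, DE_dD_mul, DE_dD_mul, DE_dD_C]
      have hd : (k : (ZMod M)⟦X⟧) = 4 * (m 0 : (ZMod M)⟦X⟧) + 6 * (m 1 : (ZMod M)⟦X⟧) := by
        rw [← hdeg]
        push_cast
        ring
      rw [hd] at h1 ⊢
      push_cast at h3 h4
      linear_combination h1 + PowerSeries.C (MvPolynomial.coeff m A) *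
        (ev1 M (MvPolynomial.X 1 ^ m 1) * h3 + ev1 M (MvPolynomial.X 0 ^ m 0) * h4)
  have h := key A.support subset_rfl
  have hsum : ∑ m ∈ A.support, MvPolynomial.monomial m (MvPolynomial.coeff m A) = A :=
    (MvPolynomial.as_sum A).symm
  rw [hsum] at h
  exact h

end Pool.Agent.B5X
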