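import Pool.Agent.B5.Defs

/-!
Project B5X (MP_d6455f_nt): prime powers and composite moduli. Definitions.
-/

set_option autoImplicit false

namespace Pool.Agent.B5X

open PowerSeries UpperHalfPlane Pool.Agent.B5
open scoped MatrixGroups ModularForm Manifold ArithmeticFunction.sigma

noncomputable section

variable {M : ℕ}

/-- evaluation at the q-expansions of `Q`, `R` modulo `M` -/
def ev1 (M : ℕ) : U M →ₐ[ZMod M] (ZMod M)⟦X⟧ := MvPolynomial.aeval ![red M sQ, red M sR]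

/-- twice the Serre derivation in level one, on polynomials in `Q`, `R` -/
def der1 : Derivation (ZMod M) (U M) (U M) := MvPolynomial.mkDerivation (ZMod M)
  ![-(4 * MvPolynomial.X 1), -(6 * MvPolynomial.X 0 ^ 2)]

/-- isobaric of weight `k` -/
def Iso (A : U M) (k : ℕ) : Prop := MvPolynomial.IsWeightedHomogeneous ![4, 6] A k

/-- from polynomials in `Q`, `R` to polynomials in the two square roots -/
def toU : U M →ₐ[ZMod M] U M := MvPolynomial.aeval ![vQ, vR]

/-- the symmetry `α ↦ β`, `β ↦ - α`, which changes the signs of `vX`, `vY` and fixes `vW` -/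
def sg : U M →ₐ[ZMod M] U M := MvPolynomial.aeval ![MvPolynomial.X 1, -MvPolynomial.X 0]

/-- q-expansions modulo `M` of the two square roots -/
structure EVm (M : ℕ) where
  ev : U M →ₐ[ZMod M] (ZMod M)⟦X⟧
  al0 : PowerSeries.constantCoeff (ev (MvPolynomial.X 0)) = 1
  be0 : PowerSeries.constantCoeff (ev (MvPolynomial.X 1)) = 0
  be1 : PowerSeries.coeff 1 (ev (MvPolynomial.X 1)) = 1
  hX : ev vX = red M sa
  hY : ev vY = red M sb
  hW : ev vW = red M sE

/-- `A` is a form of weight `w` with q-expansion `1`, `B` one of weight `2 + N w` with q-expansion `P` -/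
structure HX (w N : ℕ) (e : EVm M) (A B : U M) : Prop where
  homA : A.IsHomogeneous w
  evA : e.ev A = 1
  modA : vX ∣ A - (-5 * vW) ^ (w / 2)
  symA : sg A = A
  homB : B.IsHomogeneous (2 + N * w)
  evB : e.ev B = red M sP
  modB : vX ∣ B - (-5 * vW) ^ (1 + N * (w / 2))
  symB : sg B = B

/-- the form of degree `j (2 + N w)` whose product with `sB` is the `j`-th iterate of `2 (D + 1)` on `sB` -/
def KK (w N : ℕ) (A B : U M) : ℕ → U M
  | 0 => 1
  | j + 1 => A ^ N * (der2 (KK w N A B j) + 2 * vW * KK w N A B j) +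
      ((j * (2 + N * w) : ℕ) : U M) * B * KK w N A B j

/-- the general Hecke operator on power series -/
def tg {R : Type*} [CommRing R] (Q : ℕ) (δ : R) (c : R⟦X⟧) : R⟦X⟧ :=
  PowerSeries.mk (fun n => PowerSeries.coeff (Q * n) c +
    if Q ∣ n then δ * PowerSeries.coeff (n / Q) c else 0)

/-- holomorphic modular form of weight `k` for `Γ₁(36) ∩ Γ₀(5)` with character `(./5)^ε` -/
structure MC (ε : ℕ) (k : ℤ) (g : ℍ → ℂ) : Prop where
  holo : MDiff g
  inv : ∀ γ : SL(2, ℤ), γ ∈ CongruenceSubgroup.Gamma1 36 → γ ∈ CongruenceSubgroup.Gamma0 5 →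
    g ∣[k] γ = fun z => ((jacobiSym (γ 1 1) 5 ^ ε : ℤ) : ℂ) * g z
  bdd : ∀ γ : SL(2, ℤ), IsBoundedAtImInfty (g ∣[k] γ)

/-- Hecke operator with character -/
def TC (ε : ℕ) (Q : ℕ+) (k : ℤ) (g : ℍ → ℂ) : ℍ → ℂ :=
  (∑ b ∈ Finset.range Q, g ∣[k] tri 1 (b : ℝ) (Q : ℝ) (by
    have : (0 : ℝ) < ((Q : ℕ) : ℝ) := by exact_mod_cast Q.pos
    simp)) +
  (fun z => ((jacobiSym ((Q : ℕ) : ℤ) 5 ^ ε : ℤ) : ℂ) * (g ∣[k] tri (Q : ℝ) 0 1 (by
    have : (0 : ℝ) < ((Q : ℕ) : ℝ) := by exact_mod_cast Q.pos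
    simp)) z)

/-- the lattice of integral forms -/
def LC (ε k : ℕ) : Set ℤ⟦X⟧ := {c | ∃ g : ℍ → ℂ, MC ε k g ∧ HasQ g (toC c)}

/-- the weight of the sieve at the prime `p` -/
def psi (p : ℕ) [Fact p.Prime] (x : ℤ) : ℤ := (legendreSym p x) ^ 2 - legendreSym p (-5) * legendreSym p x

end

end Pool.Agent.B5X
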