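import Pool.Agent.B5X.Defs
import Pool.Agent.B5.AL1

/-!
B5X / EX: as Pool.Agent.B5.AL1, for an odd modulus M: a power series over ZMod M with constant coefficient 1 has a square root with constant coefficient 1 (2 is a unit;
coefficient recursion); al = sqrt((E + a + 11 b)/2) is a unit, be = b / al, and al^2 be^2 = b^2 = al^2 (E - a - 11 b)/2 by id_E2; cancel the unit al^2.
-/

set_option autoImplicit false

namespace Pool.Agent.B5X

open PowerSeries UpperHalfPlane Pool.Agent.B5
open scoped MatrixGroups ModularForm Manifold ArithmeticFunction.sigma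

/-- coefficients of the square root, `t` is the inverse of two -/
private noncomputable def exCoeff {F : Type*} [CommRing F] (t : F) (f : ℕ → F) : ℕ → F
  | 0 => 1
  | n + 1 => (f (n + 1) - ∑ i : Fin n, exCoeff t f (i + 1) * exCoeff t f (n - i)) * t
  termination_by n => n
  decreasing_by
    all_goals omega

private theorem ex_exists_sqrt {F : Type*} [CommRing F] (t : F) (h2 : 2 * t = 1) (f : F⟦X⟧)
    (hf : PowerSeries.constantCoeff f = 1) :
    ∃ g : F⟦X⟧, g ^ 2 = f ∧ PowerSeries.constantCoeff g = 1 := by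
  set c : ℕ → F := exCoeff t (fun n => PowerSeries.coeff n f) with hc
  have c0 : c 0 = 1 := by rw [hc, exCoeff]
  have cs : ∀ n, 2 * c (n + 1) + ∑ i ∈ Finset.range n, c (i + 1) * c (n - i) =
      PowerSeries.coeff (n + 1) f := by
    intro n
    have h1 : c (n + 1) = (PowerSeries.coeff (n + 1) f -
        ∑ i : Fin n, c (i + 1) * c (n - i)) * t := by
      rw [hc, exCoeff]
    rw [h1, Finset.sum_range fun i => c (i + 1) * c (n - i)]
    linear_combination (PowerSeries.coeff (n + 1) f - ∑ i : Fin n, c (i + 1) * c (n - i)) * h2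
  refine ⟨PowerSeries.mk c, ?_, ?_⟩
  · ext n
    rw [pow_two, PowerSeries.coeff_mul, Finset.Nat.sum_antidiagonal_eq_sum_range_succ_mk]
    simp only [PowerSeries.coeff_mk]
    rcases n with _ | n
    · have hf' : PowerSeries.coeff 0 f = 1 := by
        rw [PowerSeries.coeff_zero_eq_constantCoeff_apply]
        exact hf
      simp [c0, hf']
    · rw [Finset.sum_range_succ, Finset.sum_range_succ', ← cs n]
      simp only [Nat.sub_self, Nat.sub_zero, c0, mul_one, one_mul]
      have h3 : ∀ i ∈ Finset.range n, c (i + 1) * c (n + 1 - (i + 1)) = c (i + 1) * c (n - i) := by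
        intro i _
        rw [Nat.add_sub_add_right]
      rw [Finset.sum_congr rfl h3]
      ring
  · rw [← PowerSeries.coeff_zero_eq_constantCoeff_apply, PowerSeries.coeff_mk, c0]

theorem exists_EVm (M : ℕ) (hM : Nat.Coprime 2 M) : Nonempty (EVm M) := by
  obtain ⟨t', ht'⟩ : ∃ t' : ZMod M, 2 * t' = 1 := by
    have h := (ZMod.unitOfCoprime 2 hM).mul_inv
    refine ⟨((ZMod.unitOfCoprime 2 hM)⁻¹ : (ZMod M)ˣ), ?_⟩
    have h2 : ((ZMod.unitOfCoprime 2 hM : (ZMod M)ˣ) : ZMod M) = 2 := by
      rw [ZMod.coe_unitOfCoprime]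
      norm_cast
    rw [← h2]
    exact h
  set a : (ZMod M)⟦X⟧ := red M sa with ha
  set b : (ZMod M)⟦X⟧ := red M sb with hb
  set E : (ZMod M)⟦X⟧ := red M sE with hE
  have hid : E ^ 2 = a ^ 2 + 22 * a * b + 125 * b ^ 2 := by
    have h := congrArg (red M) id_E2
    simp only [red, map_add, map_mul, map_pow, map_ofNat] at h
    exact h
  have a0 : PowerSeries.constantCoeff a = 1 := by
    rw [ha, al1_red_const, al1_sa0, Int.cast_one]
  have b0 : PowerSeries.constantCoeff b = 0 := by
    rw [hb, al1_red_const, al1_sb0, Int.cast_zero]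
  have b1 : PowerSeries.coeff 1 b = 1 := by
    rw [hb, red, PowerSeries.coeff_map, al1_sb1, map_one]
  have E0 : PowerSeries.constantCoeff E = 1 := by
    rw [hE, al1_red_const, al1_sE0, Int.cast_one]
  set t : (ZMod M)⟦X⟧ := PowerSeries.C t' with ht
  have t2 : 2 * t = 1 := by
    have e : (2 : (ZMod M)⟦X⟧) = PowerSeries.C (2 : ZMod M) := by rw [map_ofNat]
    rw [ht, e, ← map_mul, ht', map_one]
  have t0 : PowerSeries.constantCoeff t = t' := PowerSeries.constantCoeff_C _
  obtain ⟨al, hal, al0⟩ := ex_exists_sqrt t' ht' (t * (E + a + 11 * b)) (by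
    rw [map_mul, map_add, map_add, map_mul, a0, b0, E0, t0, mul_zero, add_zero]
    rw [one_add_one_eq_two, mul_comm]
    exact ht')
  have hu : IsUnit al := by
    rw [PowerSeries.isUnit_iff_constantCoeff, al0]
    exact isUnit_one
  obtain ⟨ai, hinv⟩ := hu.exists_right_inv
  have ali0 : PowerSeries.constantCoeff ai = 1 := by
    have h := congrArg PowerSeries.constantCoeff hinv
    rw [map_mul, al0, one_mul, map_one] at h
    exact h
  set be : (ZMod M)⟦X⟧ := b * ai with hbe
  have hab : al * be = b := by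
    rw [hbe, mul_left_comm, hinv, mul_one]
  have hbe2 : be ^ 2 = t * (E - a - 11 * b) := by
    have h1 : al ^ 2 * be ^ 2 = al ^ 2 * (t * (E - a - 11 * b)) := by
      have h4 : (4 : (ZMod M)⟦X⟧) * t ^ 2 = 1 := by
        linear_combination (2 * t + 1) * t2
      calc al ^ 2 * be ^ 2 = (al * be) ^ 2 := by ring
        _ = b ^ 2 := by rw [hab]
        _ = t ^ 2 * (E ^ 2 - (a + 11 * b) ^ 2) := by
          rw [hid]
          linear_combination (-b ^ 2) * h4
        _ = al ^ 2 * (t * (E - a - 11 * b)) := by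
          rw [hal]
          ring
    exact (hu.pow 2).mul_left_cancel h1
  refine ⟨⟨MvPolynomial.aeval ![al, be], ?_, ?_, ?_, ?_, ?_, ?_⟩⟩
  · rw [MvPolynomial.aeval_X]
    exact al0
  · rw [MvPolynomial.aeval_X]
    change PowerSeries.constantCoeff (b * ai) = 0
    rw [map_mul, b0, zero_mul]
  · rw [MvPolynomial.aeval_X]
    change PowerSeries.coeff 1 (b * ai) = 1
    rw [al1_coeff_one_mul, b0, ali0, b1, zero_mul, zero_add, mul_one]
  · have e : MvPolynomial.aeval ![al, be] (vX : U M) = al ^ 2 - 11 * al * be - be ^ 2 := by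
      simp [vX, MvPolynomial.aeval_X]
    rw [e, hal, hbe2, mul_assoc, hab]
    linear_combination (a + 11 * b) * t2
  · have e : MvPolynomial.aeval ![al, be] (vY : U M) = al * be := by
      simp [vY, MvPolynomial.aeval_X]
    rw [e, hab]
  · have e : MvPolynomial.aeval ![al, be] (vW : U M) = al ^ 2 + be ^ 2 := by
      simp [vW, MvPolynomial.aeval_X]
    rw [e, hal, hbe2]
    linear_combination E * t2

end Pool.Agent.B5X
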