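import Mathlib

/-!
B5X / PI: evaluation of polynomials at a power series of exact order one with invertible leading coefficient is injective
(look at the lowest non-zero coefficient of P).
-/

set_option autoImplicit false

namespace Pool.Agent.B5X

open PowerSeries
open scoped MatrixGroups ModularForm Manifold ArithmeticFunction.sigma

theorem poly_inj {R : Type*} [CommRing R] (v : R⟦X⟧) (h0 : PowerSeries.constantCoeff v = 0)
    (h1 : IsUnit (PowerSeries.coeff 1 v)) (P : Polynomial R) (h : Polynomial.aeval v P = 0) : P = 0 := by
  obtain ⟨u, hu⟩ : ∃ u : R⟦X⟧, v = PowerSeries.X * u := PowerSeries.X_dvd_iff.mpr h0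
  have hu1 : PowerSeries.constantCoeff u = PowerSeries.coeff 1 v := by
    rw [hu]
    have := PowerSeries.coeff_succ_X_mul 0 u
    simpa using this.symm
  have key : ∀ n, P.coeff n = 0 := by
    intro n
    induction n using Nat.strong_induction_on with
    | _ n ih =>
      have hc : PowerSeries.coeff n (Polynomial.aeval v P) = 0 := by rw [h]; simp
      rw [Polynomial.aeval_eq_sum_range, map_sum] at hc
      have hterm : ∀ i ∈ Finset.range (P.natDegree + 1),
          PowerSeries.coeff n (P.coeff i • v ^ i) =
            if i = n then P.coeff n * (PowerSeries.coeff 1 v) ^ n else 0 := by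
        intro i _
        rw [PowerSeries.coeff_smul]
        split_ifs with hi
        · subst hi
          rw [hu, mul_pow]
          have h2 := PowerSeries.coeff_X_pow_mul (u ^ i) i 0
          rw [zero_add] at h2
          rw [h2, smul_eq_mul, PowerSeries.coeff_zero_eq_constantCoeff_apply, map_pow, hu1, ← hu]
        · rcases lt_or_gt_of_ne hi with hlt | hgt
          · rw [ih i hlt, zero_smul]
          · rw [hu, mul_pow, PowerSeries.coeff_X_pow_mul', if_neg (by omega), smul_zero]
      rw [Finset.sum_congr rfl hterm, Finset.sum_ite_eq'] at hc
      split_ifs at hc with hmem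
      · have hU : IsUnit ((PowerSeries.coeff 1 v) ^ n) := h1.pow n
        exact (hU.mul_left_eq_zero).mp hc
      · have : P.natDegree < n := by
          simp only [Finset.mem_range, not_lt] at hmem
          omega
        exact Polynomial.coeff_eq_zero_of_natDegree_lt this
  ext n
  simpa using key n

end Pool.Agent.B5X
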