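import Pool.Agent.B5X.Defs
import Pool.Agent.B5X.DE
import Pool.Agent.B5X.PI
import Pool.Agent.B5.AL2

/-!
B5X / EY: as Pool.Agent.B5.AL2, for an odd modulus. `ev_inj`: G = sum c_i X0^(d-i) X1^i, ev G = al^d sum c_i (be/al)^i, al is a unit, be/al = q + ..., `poly_inj`.
`ev_der`: from al^2 = (E + a + 11 b)/2: 2 al (2 D al) = 2 al (...) and cancel the unit 2 al; for be use al be = b: al (2 D be) = 2 D b - be (2 D al), cancel al.
-/

set_option autoImplicit false

namespace Pool.Agent.B5X

open PowerSeries UpperHalfPlane Pool.Agent.B5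
open scoped MatrixGroups ModularForm Manifold ArithmeticFunction.sigma

variable {M : ℕ}

private theorem EY_d0 : der2 (MvPolynomial.X 0 : U M) =
    MvPolynomial.X 0 * (- MvPolynomial.X 0 ^ 2 + 66 * MvPolynomial.X 0 * MvPolynomial.X 1
      + 11 * MvPolynomial.X 1 ^ 2) := by
  simp [der2, MvPolynomial.mkDerivation_X]

private theorem EY_d1 : der2 (MvPolynomial.X 1 : U M) =
    MvPolynomial.X 1 * (11 * MvPolynomial.X 0 ^ 2 - 66 * MvPolynomial.X 0 * MvPolynomial.X 1
      - MvPolynomial.X 1 ^ 2) := by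
  simp [der2, MvPolynomial.mkDerivation_X]

private theorem EY_mul (a b : U M) : der2 (a * b) = a * der2 b + b * der2 a := by
  rw [Derivation.leibniz, smul_eq_mul, smul_eq_mul]

private theorem EY_nat (n : ℕ) : der2 ((n : U M)) = 0 := Derivation.map_natCast _ n

private theorem EY_natmul (n : ℕ) (a : U M) : der2 ((n : U M) * a) = (n : U M) * der2 a := by
  rw [EY_mul, EY_nat, mul_zero, add_zero]

private theorem EY_red (c : ℤ⟦X⟧) : red M c = PowerSeries.map (Int.castRingHom (ZMod M)) c := rfl

theorem EVm.hQ (e : EVm M) : e.ev vQ = red M sQ := by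
  rw [id_Q]
  unfold vQ
  simp only [map_add, map_mul, map_pow, map_ofNat, e.hX, e.hY, EY_red]

theorem EVm.hR (e : EVm M) : e.ev vR = red M sR := by
  rw [id_R]
  unfold vR
  simp only [map_sub, map_mul, map_pow, map_ofNat, e.hX, e.hY, e.hW, EY_red]

theorem EVm.toU_eq (e : EVm M) (A : U M) : e.ev (toU A) = ev1 M A := by
  have h : e.ev.comp toU = ev1 M := by
    refine MvPolynomial.algHom_ext fun i => ?_
    fin_cases i
    · simp [toU, ev1, e.hQ]
    · simp [toU, ev1, e.hR]
  exact congrArg (fun f : U M →ₐ[ZMod M] (ZMod M)⟦X⟧ => f A) h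

private theorem EY_ev (e : EVm M) (G : U M) : e.ev G = ∑ m ∈ G.support,
    PowerSeries.C (MvPolynomial.coeff m G) *
      (e.ev (MvPolynomial.X 0) ^ m 0 * e.ev (MvPolynomial.X 1) ^ m 1) := by
  have h := MvPolynomial.aeval_unique e.ev
  conv_lhs => rw [h, MvPolynomial.aeval_def, MvPolynomial.eval₂_eq']
  refine Finset.sum_congr rfl fun m _ => ?_
  rw [Fin.prod_univ_two]
  rfl

private theorem EY_coeff (e : EVm M) (i k j : ℕ) (hij : i ≤ j) :
    PowerSeries.coeff i (e.ev (MvPolynomial.X 0) ^ k * e.ev (MvPolynomial.X 1) ^ j) =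
      if i = j then 1 else 0 := by
  obtain ⟨u, hu⟩ := PowerSeries.X_dvd_iff.2 e.be0
  have hu0 : PowerSeries.constantCoeff u = 1 := by
    have h := e.be1
    rw [hu] at h
    have h2 := PowerSeries.coeff_succ_X_mul 0 u
    rw [zero_add] at h2
    rw [h2] at h
    simpa using h
  have h1 : e.ev (MvPolynomial.X 0) ^ k * e.ev (MvPolynomial.X 1) ^ j =
      PowerSeries.X ^ j * (e.ev (MvPolynomial.X 0) ^ k * u ^ j) := by
    rw [hu]
    ring
  rw [h1, PowerSeries.coeff_X_pow_mul']
  by_cases hj : i = j
  · subst hj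
    rw [if_pos le_rfl, if_pos rfl, Nat.sub_self, PowerSeries.coeff_zero_eq_constantCoeff_apply,
      map_mul, map_pow, map_pow, e.al0, hu0, one_pow, one_pow, mul_one]
  · rw [if_neg (by omega), if_neg hj]

theorem EVm.inj (e : EVm M) {G : U M} {d : ℕ} (hG : G.IsHomogeneous d) (h : e.ev G = 0) : G = 0 := by
  by_contra hne
  have hs : G.support.Nonempty := MvPolynomial.support_nonempty.2 hne
  obtain ⟨m, hm, hmin⟩ := Finset.exists_min_image G.support (fun m => m 1) hs
  have hdeg : ∀ m' ∈ G.support, m' 0 + m' 1 = d := by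
    intro m' hm'
    have h1 := hG (MvPolynomial.mem_support_iff.1 hm')
    rw [Finsupp.weight_apply, Finsupp.sum_fintype _ _ (fun i => by simp)] at h1
    simpa [Fin.sum_univ_two] using h1
  have h1 : PowerSeries.coeff (m 1) (e.ev G) = MvPolynomial.coeff m G := by
    rw [EY_ev, map_sum, Finset.sum_eq_single m]
    · rw [PowerSeries.coeff_C_mul, EY_coeff e _ _ _ le_rfl, if_pos rfl, mul_one]
    · intro m' hm' hne'
      rw [PowerSeries.coeff_C_mul, EY_coeff e _ _ _ (hmin m' hm'), if_neg, mul_zero]
      intro he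
      apply hne'
      have h2 := hdeg m' hm'
      have h3 := hdeg m hm
      ext i
      fin_cases i
      · show m' 0 = m 0
        omega
      · exact he.symm
    · intro h2
      exact absurd hm h2
  rw [h, map_zero] at h1
  exact (MvPolynomial.mem_support_iff.1 hm) h1.symm

private theorem EY_dD {R : Type*} [CommRing R] (c : R⟦X⟧) :
    dD c = 6 * (PowerSeries.X * PowerSeries.derivative R c) := by
  ext n
  have e6 : (6 : R⟦X⟧) = PowerSeries.C (6 : R) := (map_ofNat PowerSeries.C 6).symm
  rw [dD, PowerSeries.coeff_mk, e6, PowerSeries.coeff_C_mul]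
  rcases n with _ | n
  · simp
  · rw [PowerSeries.coeff_succ_X_mul, PowerSeries.coeff_derivative]
    push_cast
    ring

private theorem EY_dD_mul {R : Type*} [CommRing R] (a b : R⟦X⟧) :
    dD (a * b) = a * dD b + b * dD a := by
  rw [EY_dD, EY_dD, EY_dD, Derivation.leibniz, smul_eq_mul, smul_eq_mul]
  ring

private theorem EY_dD_add {R : Type*} [CommRing R] (a b : R⟦X⟧) :
    dD (a + b) = dD a + dD b := by
  rw [EY_dD, EY_dD, EY_dD, map_add]
  ring

private theorem EY_dD_C {R : Type*} [CommRing R] (a : R) :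
    dD (PowerSeries.C a) = 0 := by
  rw [EY_dD]
  have h : PowerSeries.derivative R (PowerSeries.C a) = 0 := by
    simpa using PowerSeries.derivative_C a
  rw [h]
  ring

private theorem EY_dD_nat {R : Type*} [CommRing R] (n : ℕ) (a : R⟦X⟧) :
    dD ((n : R⟦X⟧) * a) = n * dD a := by
  rw [EY_dD_mul]
  have h : dD ((n : R⟦X⟧)) = 0 := by
    rw [← map_natCast (PowerSeries.C (R := R)) n]
    exact EY_dD_C _
  rw [h]
  ring

private theorem EY_dD_red (c : ℤ⟦X⟧) : dD (red M c) = red M (dD c) := by
  ext n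
  simp [dD, red, PowerSeries.coeff_mk, PowerSeries.coeff_map]

private theorem EY_two (hM : Nat.Coprime 2 M) : IsUnit (2 : (ZMod M)⟦X⟧) := by
  rw [PowerSeries.isUnit_iff_constantCoeff, map_ofNat]
  have h := (ZMod.unitOfCoprime 2 hM).isUnit
  rw [ZMod.coe_unitOfCoprime] at h
  exact_mod_cast h

private theorem EY_x (e : EVm M) (hM : Nat.Coprime 2 M) :
    2 * dD (e.ev (MvPolynomial.X 0)) = e.ev (der2 (MvPolynomial.X 0))
      + red M sP * e.ev (MvPolynomial.X 0) := by
  have hX := e.hX
  have hY := e.hY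
  have hW := e.hW
  simp only [vX, vY, vW, map_add, map_sub, map_mul, map_pow, map_ofNat] at hX hY hW
  rw [EY_d0]
  simp only [map_add, map_sub, map_mul, map_pow, map_ofNat, map_neg]
  set x := e.ev (MvPolynomial.X 0) with hx
  set y := e.ev (MvPolynomial.X 1) with hy
  have hux : IsUnit x := by
    rw [PowerSeries.isUnit_iff_constantCoeff, hx, e.al0]
    exact isUnit_one
  have hu2 : IsUnit (2 : (ZMod M)⟦X⟧) := EY_two hM
  have hDE : dD (red M sE) = red M sP * red M sE - red M sa ^ 2 + 44 * red M sa * red M sb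
      + 625 * red M sb ^ 2 := by
    rw [EY_dD_red, id_DE]
    simp only [EY_red, map_add, map_sub, map_mul, map_pow, map_ofNat]
  have hDa : dD (red M sa) = red M sa * (red M sP - red M sE) := by
    rw [EY_dD_red, id_Da]
    simp only [EY_red, map_sub, map_mul]
  have hDb : dD (red M sb) = red M sb * (5 * red M sE + red M sP) := by
    rw [EY_dD_red, id_Db]
    simp only [EY_red, map_add, map_mul, map_ofNat]
  have hsq : (2 : ℕ) * (x * x) = red M sE + (red M sa + (11 : ℕ) * red M sb) := by
    rw [← hX, ← hY, ← hW]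
    push_cast
    ring
  have hd := congrArg dD hsq
  rw [EY_dD_nat, EY_dD_mul, EY_dD_add, EY_dD_add, EY_dD_nat, hDE, hDa, hDb, ← hX, ← hY,
    ← hW] at hd
  refine (hu2.mul hux).mul_left_cancel ?_
  push_cast at hd
  linear_combination hd

private theorem EY_y (e : EVm M) (hM : Nat.Coprime 2 M) :
    2 * dD (e.ev (MvPolynomial.X 1)) = e.ev (der2 (MvPolynomial.X 1))
      + red M sP * e.ev (MvPolynomial.X 1) := by
  have hX := e.hX
  have hY := e.hY
  have hW := e.hW
  simp only [vX, vY, vW, map_add, map_sub, map_mul, map_pow, map_ofNat] at hX hY hW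
  rw [EY_d1]
  simp only [map_add, map_sub, map_mul, map_pow, map_ofNat, map_neg]
  set x := e.ev (MvPolynomial.X 0) with hx
  set y := e.ev (MvPolynomial.X 1) with hy
  have hux : IsUnit x := by
    rw [PowerSeries.isUnit_iff_constantCoeff, hx, e.al0]
    exact isUnit_one
  have hDE : dD (red M sE) = red M sP * red M sE - red M sa ^ 2 + 44 * red M sa * red M sb
      + 625 * red M sb ^ 2 := by
    rw [EY_dD_red, id_DE]
    simp only [EY_red, map_add, map_sub, map_mul, map_pow, map_ofNat]
  have hDa : dD (red M sa) = red M sa * (red M sP - red M sE) := by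
    rw [EY_dD_red, id_Da]
    simp only [EY_red, map_sub, map_mul]
  have hDb : dD (red M sb) = red M sb * (5 * red M sE + red M sP) := by
    rw [EY_dD_red, id_Db]
    simp only [EY_red, map_add, map_mul, map_ofNat]
  have h1 := EY_x e hM
  rw [EY_d0] at h1
  simp only [map_add, map_mul, map_pow, map_ofNat, map_neg, ← hx, ← hy] at h1
  have hd := congrArg dD hY
  rw [EY_dD_mul, hDb, ← hY, ← hW] at hd
  refine hux.mul_left_cancel ?_
  linear_combination 2 * hd - y * h1

private theorem EY_pow (e : EVm M) {G : U M}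
    (h : 2 * dD (e.ev G) = e.ev (der2 G) + red M sP * e.ev G) (n : ℕ) :
    2 * dD (e.ev (G ^ n)) = e.ev (der2 (G ^ n)) + (n : (ZMod M)⟦X⟧) * red M sP * e.ev (G ^ n) := by
  induction n with
  | zero =>
    have h1 : der2 (1 : U M) = 0 := by
      have h0 : der2 (((1 : ℕ) : U M)) = 0 := EY_nat 1
      rwa [Nat.cast_one] at h0
    have h2 : dD (1 : (ZMod M)⟦X⟧) = 0 := by
      have := EY_dD_C (R := ZMod M) 1
      rwa [map_one] at this
    rw [pow_zero, h1, map_one, map_zero, h2]
    push_cast
    ring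
  | succ n ih =>
    rw [pow_succ, EY_mul, map_mul, map_add, map_mul, map_mul, EY_dD_mul]
    push_cast
    linear_combination e.ev G * ih + e.ev (G ^ n) * h

theorem EVm.der (hM : Nat.Coprime 2 M) (e : EVm M) {G : U M} {d : ℕ} (hG : G.IsHomogeneous d) :
    2 * dD (e.ev G) = e.ev (der2 G) + (d : (ZMod M)⟦X⟧) * red M sP * e.ev G := by
  have key : ∀ s : Finset (Fin 2 →₀ ℕ), s ⊆ G.support →
      2 * dD (e.ev (∑ m ∈ s, MvPolynomial.monomial m (MvPolynomial.coeff m G))) =
        e.ev (der2 (∑ m ∈ s, MvPolynomial.monomial m (MvPolynomial.coeff m G))) +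
        (d : (ZMod M)⟦X⟧) * red M sP *
          e.ev (∑ m ∈ s, MvPolynomial.monomial m (MvPolynomial.coeff m G)) := by
    classical
    intro s
    induction s using Finset.induction_on with
    | empty =>
      intro _
      have h2 : dD (0 : (ZMod M)⟦X⟧) = 0 := by
        have := EY_dD_C (R := ZMod M) 0
        rwa [map_zero] at this
      rw [Finset.sum_empty, map_zero, map_zero, map_zero, h2]
      ring
    | insert m s hm ih =>
      intro hs
      rw [Finset.sum_insert hm, map_add, map_add, map_add, EY_dD_add]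
      have h1 := ih fun x hx => hs (Finset.mem_insert_of_mem hx)
      have hms : m ∈ G.support := hs (Finset.mem_insert_self _ _)
      have hdeg : m 0 + m 1 = d := by
        have h1 := hG (MvPolynomial.mem_support_iff.1 hms)
        rw [Finsupp.weight_apply, Finsupp.sum_fintype _ _ (fun i => by simp)] at h1
        simpa [Fin.sum_univ_two] using h1
      have h2 : MvPolynomial.monomial m (MvPolynomial.coeff m G) =
          MvPolynomial.C (MvPolynomial.coeff m G) *
            (MvPolynomial.X 0 ^ m 0 * MvPolynomial.X 1 ^ m 1) := by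
        rw [MvPolynomial.monomial_eq, Finsupp.prod_fintype _ _ (fun i => pow_zero _),
          Fin.prod_univ_two]
      have h3 := EY_pow e (EY_x e hM) (m 0)
      have h4 := EY_pow e (EY_y e hM) (m 1)
      have hC : ∀ c : ZMod M, e.ev (MvPolynomial.C c) = PowerSeries.C c := fun c => by
        have := e.ev.commutes c
        exact this
      have hDC : der2 (MvPolynomial.C (MvPolynomial.coeff m G) : U M) = 0 :=
        MvPolynomial.derivation_C _ _
      rw [h2, EY_mul, EY_mul, hDC, mul_zero, add_zero, map_mul, map_mul, map_mul, map_add,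
        map_mul, map_mul, hC, EY_dD_mul, EY_dD_mul, EY_dD_C]
      have hd : (d : (ZMod M)⟦X⟧) = (m 0 : (ZMod M)⟦X⟧) + (m 1 : (ZMod M)⟦X⟧) := by
        rw [← hdeg]
        push_cast
        ring
      rw [hd] at h1 ⊢
      linear_combination h1 + PowerSeries.C (MvPolynomial.coeff m G) *
        (e.ev (MvPolynomial.X 1 ^ m 1) * h3 + e.ev (MvPolynomial.X 0 ^ m 0) * h4)
  have h := key G.support subset_rfl
  have hsum : ∑ m ∈ G.support, MvPolynomial.monomial m (MvPolynomial.coeff m G) = G :=
    (MvPolynomial.as_sum G).symm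
  rw [hsum] at h
  exact h

end Pool.Agent.B5X
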