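import Pool.Agent.B5X.Defs
import Pool.Agent.B5X.PI
import Pool.Agent.B5.HA1

/-!
B5X / IN: injectivity in level one. A isobaric of weight k: all monomials Q^i R^l of A have 4 i + 6 l = k, so l = l0 + 2 t, i = r + 3 (T - t) for fixed l0 in {0,1},
r, T. Q(q), R(q) are units (constant coefficient 1), so ev1 A = 0 gives sum of c_t u^t = 0 with u = R^2/Q^3 = 1 + v,
v = (R^2 - Q^3)/Q^3 = -1728 (q + ...)/Q^3 (`disc_int` in Pool.Agent.B5.HA1, or compute the first coefficients: sQ = 1 + 240 q + .., sR = 1 - 504 q + ..).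
1728 is a unit mod M. Apply `poly_inj` to P(1 + Y).
-/

set_option autoImplicit false

namespace Pool.Agent.B5X

open PowerSeries UpperHalfPlane Pool.Agent.B5
open scoped MatrixGroups ModularForm Manifold ArithmeticFunction.sigma

private theorem in_aeval_sum {M : ℕ} {S : Type*} [CommRing S] [Algebra (ZMod M) S] (x : Fin 2 → S)
    (A : MvPolynomial (Fin 2) (ZMod M)) :
    MvPolynomial.aeval x A = ∑ d ∈ A.support, algebraMap (ZMod M) S (A.coeff d) *
      (x 0 ^ d 0 * x 1 ^ d 1) := by
  rw [MvPolynomial.aeval_def, MvPolynomial.eval₂_eq']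
  apply Finset.sum_congr rfl
  intro d hd
  rw [Fin.prod_univ_two]

private theorem in_weight_eq {M : ℕ} {k : ℕ} {A : U M}
    (hA : Iso A k) (d : Fin 2 →₀ ℕ) (hd : d ∈ A.support) :
    4 * d 0 + 6 * d 1 = k := by
  have h1 := hA (MvPolynomial.mem_support_iff.mp hd)
  rw [Finsupp.weight_apply, Finsupp.sum_fintype _ _ (by simp)] at h1
  simp [Fin.sum_univ_two] at h1
  omega

theorem ev1_inj (M : ℕ) (hM : Nat.Coprime 6 M) (A : U M) (k : ℕ) (hA : Iso A k) (h : ev1 M A = 0) : A = 0 := by
  set q := red M sQ with hq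
  set r := red M sR with hr
  have hq0 : PowerSeries.constantCoeff q = 1 := by
    rw [hq, ← PowerSeries.coeff_zero_eq_constantCoeff_apply, red, PowerSeries.coeff_map, sQ,
      PowerSeries.coeff_mk]
    simp
  have hr0 : PowerSeries.constantCoeff r = 1 := by
    rw [hr, ← PowerSeries.coeff_zero_eq_constantCoeff_apply, red, PowerSeries.coeff_map, sR,
      PowerSeries.coeff_mk]
    simp
  have hq1 : PowerSeries.coeff 1 q = 240 := by
    rw [hq, red, PowerSeries.coeff_map, sQ, PowerSeries.coeff_mk]
    simp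
  have hr1 : PowerSeries.coeff 1 r = -504 := by
    rw [hr, red, PowerSeries.coeff_map, sR, PowerSeries.coeff_mk]
    simp
  set qi := PowerSeries.invOfUnit q 1 with hqi
  have hqq : q * qi = 1 := by
    rw [hqi]
    exact PowerSeries.mul_invOfUnit q 1 (by rw [hq0]; rfl)
  have hqi0 : PowerSeries.constantCoeff qi = 1 := by
    have := congrArg PowerSeries.constantCoeff hqq
    rw [map_mul, hq0, one_mul, map_one] at this
    exact this
  have hqi1 : PowerSeries.coeff 1 qi = -240 := by
    have := congrArg (PowerSeries.coeff 1) hqq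
    rw [PowerSeries.coeff_one_mul, hq0, hqi0, hq1, PowerSeries.coeff_one] at this
    simp only [one_ne_zero, if_false] at this
    linear_combination this
  set u := r ^ 2 * qi ^ 3 with hu
  have hu0 : PowerSeries.constantCoeff u = 1 := by
    rw [hu, map_mul, map_pow, map_pow, hr0, hqi0]
    simp
  have hu1 : PowerSeries.coeff 1 u = -1728 := by
    rw [hu, show r ^ 2 * qi ^ 3 = (r * r) * (qi * (qi * qi)) by ring]
    simp only [PowerSeries.coeff_one_mul, map_mul, hr0, hqi0, hr1, hqi1]
    norm_num
  set v := u - 1 with hv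
  have hv0 : PowerSeries.constantCoeff v = 0 := by
    rw [hv, map_sub, hu0, map_one, sub_self]
  have hv1 : IsUnit (PowerSeries.coeff 1 v) := by
    have h6 : IsUnit ((6 : ℕ) : ZMod M) := (ZMod.isUnit_iff_coprime 6 M).mpr hM
    have h1 : PowerSeries.coeff 1 v = -(((6 : ℕ) : ZMod M) ^ 3 * (2 : ZMod M) ^ 3) := by
      rw [hv, map_sub, hu1, PowerSeries.coeff_one]
      simp only [one_ne_zero, if_false]
      push_cast
      norm_num
    have h2 : IsUnit (2 : ZMod M) := by
      have : ((6 : ℕ) : ZMod M) = 2 * 3 := by norm_num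
      rw [this] at h6
      exact isUnit_of_mul_isUnit_left h6
    rw [h1, IsUnit.neg_iff]
    exact (h6.pow 3).mul (h2.pow 3)
  have hw := in_weight_eq hA
  set P : Polynomial (ZMod M) := ∑ d ∈ A.support, Polynomial.C (A.coeff d) * Polynomial.X ^ (d 1 / 2) with hP
  set m := k / 2 with hm
  set l0 := m % 2 with hl0
  set e0 := (m - 3 * l0) / 2 with he0
  have hev : ev1 M A = (q ^ e0 * r ^ l0) * Polynomial.aeval u P := by
    rw [ev1, in_aeval_sum, hP, map_sum, Finset.mul_sum]
    apply Finset.sum_congr rfl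
    intro d hd
    have h1 := hw d hd
    simp only [Matrix.cons_val_zero, Matrix.cons_val_one, map_mul, Polynomial.aeval_C, map_pow,
      Polynomial.aeval_X]
    obtain ⟨t, ht⟩ : ∃ t, d 1 = l0 + 2 * t := ⟨d 1 / 2, by omega⟩
    have ht2 : d 1 / 2 = t := by omega
    have ht3 : e0 = d 0 + 3 * t := by omega
    rw [ht2, ht, ht3, hu]
    have h5 : q ^ (3 * t) * qi ^ (3 * t) = 1 := by rw [← mul_pow, hqq, one_pow]
    rw [mul_pow, ← pow_mul, ← pow_mul, pow_add, pow_add]
    linear_combination (-(algebraMap (ZMod M) (ZMod M)⟦X⟧) (MvPolynomial.coeff d A) * q ^ d 0 *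
      r ^ l0 * r ^ (2 * t)) * h5
  have hun : IsUnit (q ^ e0 * r ^ l0) := by
    rw [PowerSeries.isUnit_iff_constantCoeff, map_mul, map_pow, map_pow, hq0, hr0]
    simp
  have hPu : Polynomial.aeval u P = 0 := by
    rw [h] at hev
    exact (hun.mul_right_eq_zero).mp hev.symm
  have hP0 : P = 0 := by
    have h1 : Polynomial.aeval v (P.comp (Polynomial.X + 1)) = 0 := by
      rw [Polynomial.aeval_comp]
      have : Polynomial.aeval v (Polynomial.X + 1 : Polynomial (ZMod M)) = u := by
        simp [hv]
      rw [this, hPu]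
    have h2 := poly_inj v hv0 hv1 _ h1
    have h3 := congrArg (fun F : Polynomial (ZMod M) => F.comp (Polynomial.X - 1)) h2
    simp only [Polynomial.comp_assoc, Polynomial.add_comp, Polynomial.X_comp, Polynomial.one_comp,
      sub_add_cancel, Polynomial.comp_X, Polynomial.zero_comp] at h3
    exact h3
  by_contra hne
  obtain ⟨d, hd⟩ := MvPolynomial.support_nonempty.mpr hne
  have h1 : P.coeff (d 1 / 2) = A.coeff d := by
    rw [hP, Polynomial.finsetSum_coeff]
    rw [Finset.sum_eq_single_of_mem d hd]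
    · simp
    · intro d' hd' hne'
      have h3 := hw d hd
      have h4 := hw d' hd'
      rw [Polynomial.coeff_C_mul, Polynomial.coeff_X_pow, if_neg, mul_zero]
      intro h5
      apply hne'
      have h6 : d' 1 = d 1 := by omega
      have h7 : d' 0 = d 0 := by omega
      ext i
      fin_cases i
      · exact h7
      · exact h6
  rw [hP0, Polynomial.coeff_zero] at h1
  exact (MvPolynomial.mem_support_iff.mp hd) h1.symm

end Pool.Agent.B5X
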