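import Pool.Agent.B5X.Defs
import Pool.Agent.B5.QD
import Pool.Agent.B5.HK2

/-!
B5X / VA1: the operator U. The sum over j mod p of exp(2 pi i n j / p) is p or 0 (compare HK2 of project B5).
-/

set_option autoImplicit false

namespace Pool.Agent.B5X

open PowerSeries UpperHalfPlane Pool.Agent.B5
open scoped MatrixGroups ModularForm Manifold ArithmeticFunction.sigma

/-- the point `(z + j) / p` -/
noncomputable def dvp (p : ℕ+) (j : ℕ) (z : ℍ) : ℍ := ⟨((z : ℂ) + j) / (p : ℕ), by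
  have h2 := z.im_pos
  have hp : (0 : ℝ) < ((p : ℕ) : ℝ) := by exact_mod_cast p.pos
  have h5 : ((z : ℂ) + j) / ((p : ℕ) : ℂ) = ((z : ℂ) + j) * (((((p : ℕ) : ℝ)⁻¹ : ℝ)) : ℂ) := by
    push_cast
    rw [div_eq_mul_inv]
  rw [h5, Complex.mul_im]
  simp only [Complex.ofReal_im, mul_zero, Complex.ofReal_re, zero_add, Complex.add_im,
    Complex.natCast_im, add_zero]
  exact mul_pos h2 (inv_pos.mpr hp)⟩

theorem hasQ_U (p : ℕ+) {g : ℍ → ℂ} {c : ℂ⟦X⟧} (h : HasQ g c) :
    HasQ (fun z => ∑ j ∈ Finset.range p, g (dvp p j z))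
      (PowerSeries.mk fun n => ((p : ℕ) : ℂ) * PowerSeries.coeff ((p : ℕ) * n) c) := by
  intro z
  have hp0 : ((p : ℕ) : ℂ) ≠ 0 := by exact_mod_cast p.ne_zero
  have hb : ∀ j ∈ Finset.range (p : ℕ), HasSum (fun n : ℕ => PowerSeries.coeff n c *
      (Complex.exp (2 * Real.pi * Complex.I * (n * (z : ℂ) / ((p : ℕ) : ℂ))) *
        Complex.exp (2 * Real.pi * Complex.I * (n * j / ((p : ℕ) : ℂ)))))
      (g (dvp p j z)) := by
    intro j _
    have h1 := h (dvp p j z)
    have h4 : qq (dvp p j z) =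
        Complex.exp (2 * Real.pi * Complex.I * (((z : ℂ) + j) / ((p : ℕ) : ℂ))) := rfl
    rw [h4] at h1
    refine hk_congr h1 (fun n => ?_)
    rw [← Complex.exp_add, ← Complex.exp_nat_mul]
    congr 2
    ring
  have hs := hasSum_sum hb
  have he : (fun n : ℕ => ∑ j ∈ Finset.range (p : ℕ), PowerSeries.coeff n c *
      (Complex.exp (2 * Real.pi * Complex.I * (n * (z : ℂ) / ((p : ℕ) : ℂ))) *
        Complex.exp (2 * Real.pi * Complex.I * (n * j / ((p : ℕ) : ℂ))))) =
      fun n : ℕ => if (p : ℕ) ∣ n then ((p : ℕ) : ℂ) * PowerSeries.coeff n c *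
        Complex.exp (2 * Real.pi * Complex.I * (n * (z : ℂ) / ((p : ℕ) : ℂ))) else 0 := by
    funext n
    rw [← Finset.mul_sum, ← Finset.mul_sum, hk_geom p n]
    split_ifs
    · ring
    · simp
  rw [he, ← (hk_inj p).hasSum_iff (fun n hn => if_neg (hk_range hn))] at hs
  refine hk_congr hs (fun n => ?_)
  simp only [Function.comp_apply, dvd_mul_right, if_true, PowerSeries.coeff_mk]
  congr 1
  unfold qq
  rw [← Complex.exp_nat_mul]
  congr 1
  push_cast
  field_simp

end Pool.Agent.B5X
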