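import Pool.Agent.B5X.Defs

/-!
B5X / VA2: trace from Gamma0(p) to level one. H | T: S T^p S^(-1) = (1 0; -p 1) is in Gamma0(p), so F | S T^p = F | S. H | S: F | S | S = F | (-1) = F
(-1 is in Gamma0(p)); for 1 <= j < p let j' with j j' = -1 mod p, then S T^j S T^(-j') S^(-1) is in Gamma0(p); j -> j' permutes 1..p-1.
-/

set_option autoImplicit false

namespace Pool.Agent.B5X

open PowerSeries UpperHalfPlane Pool.Agent.B5
open scoped MatrixGroups ModularForm Manifold ArithmeticFunction.sigma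

private theorem va2_congr {p : ℕ} {k : ℤ} {F : ℍ → ℂ}
    (hF : ∀ γ : SL(2, ℤ), γ ∈ CongruenceSubgroup.Gamma0 p → F ∣[k] γ = F) {g h : SL(2, ℤ)}
    (hgh : g * h⁻¹ ∈ CongruenceSubgroup.Gamma0 p) : F ∣[k] g = F ∣[k] h := by
  have h1 : g = (g * h⁻¹) * h := by group
  rw [h1, SlashAction.slash_mul, hF _ hgh]

private theorem va2_coe_pow (j : ℕ) :
    ((ModularGroup.T ^ j : SL(2, ℤ)) : Matrix (Fin 2) (Fin 2) ℤ) = !![1, (j : ℤ); 0, 1] := by
  have h := ModularGroup.coe_T_zpow (j : ℤ)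
  rw [zpow_natCast] at h
  exact h

private theorem va2_mem (p a b : ℕ) (h : ((a : ZMod p) * (b : ZMod p) + 1) = 0) :
    ModularGroup.S * ModularGroup.T ^ a * ModularGroup.S *
      (ModularGroup.S * ModularGroup.T ^ b)⁻¹ ∈ CongruenceSubgroup.Gamma0 p := by
  rw [CongruenceSubgroup.Gamma0_mem]
  have h2 : (ModularGroup.S * ModularGroup.T ^ a * ModularGroup.S *
      (ModularGroup.S * ModularGroup.T ^ b)⁻¹ : SL(2, ℤ)) 1 0 = (a : ℤ) * b + 1 := by
    have h3 : ((ModularGroup.S * ModularGroup.T ^ a * ModularGroup.S *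
      (ModularGroup.S * ModularGroup.T ^ b)⁻¹ : SL(2, ℤ)) : Matrix (Fin 2) (Fin 2) ℤ) =
      !![0, -1; 1, 0] * !![1, (a : ℤ); 0, 1] * !![0, -1; 1, 0] *
        (!![0, -1; 1, 0] * !![1, (b : ℤ); 0, 1]).adjugate := by
      rw [Matrix.SpecialLinearGroup.coe_mul, Matrix.SpecialLinearGroup.coe_inv,
        Matrix.SpecialLinearGroup.coe_mul, Matrix.SpecialLinearGroup.coe_mul,
        Matrix.SpecialLinearGroup.coe_mul, va2_coe_pow, va2_coe_pow, ModularGroup.coe_S]
    rw [h3]
    simp [Matrix.mul_apply, Fin.sum_univ_two, Matrix.adjugate_fin_two]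
  rw [h2]
  push_cast
  exact h

private theorem va2_mem_p (p : ℕ) :
    ModularGroup.S * ModularGroup.T ^ p * (ModularGroup.S)⁻¹ ∈ CongruenceSubgroup.Gamma0 p := by
  rw [CongruenceSubgroup.Gamma0_mem]
  have h2 : (ModularGroup.S * ModularGroup.T ^ p * (ModularGroup.S)⁻¹ : SL(2, ℤ)) 1 0 =
      -(p : ℤ) := by
    have h3 : ((ModularGroup.S * ModularGroup.T ^ p * (ModularGroup.S)⁻¹ : SL(2, ℤ)) :
      Matrix (Fin 2) (Fin 2) ℤ) =
      !![0, -1; 1, 0] * !![1, (p : ℤ); 0, 1] * (!![0, -1; 1, 0]).adjugate := by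
      rw [Matrix.SpecialLinearGroup.coe_mul, Matrix.SpecialLinearGroup.coe_inv,
        Matrix.SpecialLinearGroup.coe_mul, va2_coe_pow, ModularGroup.coe_S]
    rw [h3]
    simp [Matrix.mul_apply, Fin.sum_univ_two, Matrix.adjugate_fin_two]
  rw [h2]
  simp

private theorem va2_mem_T (p : ℕ) : ModularGroup.T ∈ CongruenceSubgroup.Gamma0 p := by
  rw [CongruenceSubgroup.Gamma0_mem]
  simp [ModularGroup.T]

private theorem va2_mem_SS (p : ℕ) :
    ModularGroup.S * ModularGroup.S ∈ CongruenceSubgroup.Gamma0 p := by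
  rw [CongruenceSubgroup.Gamma0_mem]
  have h2 : (ModularGroup.S * ModularGroup.S : SL(2, ℤ)) 1 0 = 0 := by
    have h3 : ((ModularGroup.S * ModularGroup.S : SL(2, ℤ)) : Matrix (Fin 2) (Fin 2) ℤ) =
      !![0, -1; 1, 0] * !![0, -1; 1, 0] := by
      rw [Matrix.SpecialLinearGroup.coe_mul, ModularGroup.coe_S]
    rw [h3]
    simp [Matrix.mul_apply, Fin.sum_univ_two]
  rw [h2]
  simp

private theorem va2_sum_slash {ι : Type*} (s : Finset ι) (k : ℤ) (f : ι → ℍ → ℂ) (g : SL(2, ℤ)) :
    (∑ i ∈ s, f i) ∣[k] g = ∑ i ∈ s, (f i ∣[k] g) := by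
  classical
  induction s using Finset.induction_on with
  | empty => simp
  | insert a s ha ih => rw [Finset.sum_insert ha, Finset.sum_insert ha, SlashAction.add_slash, ih]

theorem trace_level (p : ℕ) (hp : p.Prime) (k : ℤ) (F : ℍ → ℂ)
    (hF : ∀ γ : SL(2, ℤ), γ ∈ CongruenceSubgroup.Gamma0 p → F ∣[k] γ = F) :
    (F + ∑ j ∈ Finset.range p, F ∣[k] (ModularGroup.S * ModularGroup.T ^ j)) ∣[k] ModularGroup.S =
      (F + ∑ j ∈ Finset.range p, F ∣[k] (ModularGroup.S * ModularGroup.T ^ j)) ∧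
    (F + ∑ j ∈ Finset.range p, F ∣[k] (ModularGroup.S * ModularGroup.T ^ j)) ∣[k] ModularGroup.T =
      (F + ∑ j ∈ Finset.range p, F ∣[k] (ModularGroup.S * ModularGroup.T ^ j)) := by
  haveI : Fact p.Prime := ⟨hp⟩
  have hp0 : 0 < p := hp.pos
  constructor
  · rw [SlashAction.add_slash, va2_sum_slash]
    obtain ⟨q, hq⟩ : ∃ q, p = q + 1 := ⟨p - 1, by omega⟩
    rw [hq, Finset.sum_range_succ', Finset.sum_range_succ']
    have h0 : (F ∣[k] (ModularGroup.S * ModularGroup.T ^ 0)) ∣[k] ModularGroup.S = F := by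
      rw [← SlashAction.slash_mul, pow_zero, mul_one]
      exact hF _ (va2_mem_SS p)
    have h0' : F ∣[k] (ModularGroup.S * ModularGroup.T ^ 0) = F ∣[k] ModularGroup.S := by
      rw [pow_zero, mul_one]
    have hmain : ∑ i ∈ Finset.range q,
        (F ∣[k] (ModularGroup.S * ModularGroup.T ^ (i + 1))) ∣[k] ModularGroup.S =
        ∑ i ∈ Finset.range q, F ∣[k] (ModularGroup.S * ModularGroup.T ^ (i + 1)) := by
      set inv : ℕ → ℕ := fun i => (-(((i + 1 : ℕ) : ZMod p))⁻¹).val - 1 with hinv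
      have hne : ∀ i ∈ Finset.range q, (((i + 1 : ℕ) : ZMod p)) ≠ 0 := by
        intro i hi h
        rw [ZMod.natCast_eq_zero_iff] at h
        have := Nat.le_of_dvd (by omega) h
        have := Finset.mem_range.1 hi
        omega
      have hval : ∀ i ∈ Finset.range q, inv i + 1 = (-(((i + 1 : ℕ) : ZMod p))⁻¹).val := by
        intro i hi
        have h1 : (-(((i + 1 : ℕ) : ZMod p))⁻¹).val ≠ 0 := by
          rw [Ne, ZMod.val_eq_zero, neg_eq_zero]
          exact inv_ne_zero (hne i hi)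
        simp only [hinv]
        omega
      have hcast : ∀ i ∈ Finset.range q, ((inv i + 1 : ℕ) : ZMod p) =
          -(((i + 1 : ℕ) : ZMod p))⁻¹ := by
        intro i hi
        rw [hval i hi, ZMod.natCast_val, ZMod.cast_id]
      have hmem : ∀ i ∈ Finset.range q, inv i ∈ Finset.range q := by
        intro i hi
        have h1 := hval i hi
        have h2 := ZMod.val_lt (-(((i + 1 : ℕ) : ZMod p))⁻¹)
        rw [Finset.mem_range]
        omega
      have hinvinv : ∀ i ∈ Finset.range q, inv (inv i) = i := by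
        intro i hi
        have h1 := hcast _ (hmem i hi)
        rw [hcast i hi] at h1
        have h2 : ((inv (inv i) + 1 : ℕ) : ZMod p) = ((i + 1 : ℕ) : ZMod p) := by
          rw [h1]
          rw [inv_neg, inv_inv, neg_neg]
        rw [ZMod.natCast_eq_natCast_iff'] at h2
        have h3 := Finset.mem_range.1 (hmem _ (hmem i hi))
        have h4 := Finset.mem_range.1 hi
        rw [Nat.mod_eq_of_lt (by omega), Nat.mod_eq_of_lt (by omega)] at h2
        omega
      refine Finset.sum_nbij' inv inv hmem hmem hinvinv hinvinv ?_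
      intro i hi
      rw [← SlashAction.slash_mul]
      apply va2_congr hF
      apply va2_mem
      rw [hcast i hi]
      have := hne i hi
      rw [mul_neg, mul_inv_cancel₀ this]
      ring
    rw [hmain, h0, h0']
    abel
  · rw [SlashAction.add_slash, va2_sum_slash, hF _ (va2_mem_T p)]
    congr 1
    have h1 : ∀ j ∈ Finset.range p,
        (F ∣[k] (ModularGroup.S * ModularGroup.T ^ j)) ∣[k] ModularGroup.T =
        F ∣[k] (ModularGroup.S * ModularGroup.T ^ (j + 1)) := by
      intro j _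
      rw [← SlashAction.slash_mul, mul_assoc, ← pow_succ]
    rw [Finset.sum_congr rfl h1]
    have h2 := Finset.sum_range_succ' (fun j => F ∣[k] (ModularGroup.S * ModularGroup.T ^ j)) p
    rw [Finset.sum_range_succ] at h2
    have h3 : F ∣[k] (ModularGroup.S * ModularGroup.T ^ p) =
        F ∣[k] (ModularGroup.S * ModularGroup.T ^ 0) := by
      apply va2_congr hF
      rw [pow_zero, mul_one]
      exact va2_mem_p p
    rw [h3] at h2
    exact (add_right_cancel h2).symm

end Pool.Agent.B5X
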