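import Pool.Agent.B5X.Defs
import Pool.Agent.B5X.VA1
import Pool.Agent.B5X.VA2
import Pool.Agent.B5X.EI
import Pool.Agent.B5.TR
import Pool.Agent.B5.QD
import Pool.Agent.B5.MO

/-!
B5X / VA: f(p z) is congruent to a level one form (Serre's trace argument). Let a = p - 1, e the form from `eis` with s = 0 (weight a, e = N0 mod p),
g(z) = e(z) - p^a e(p z), F(z) = f(p z) g(z)^(p^m), weight K = w + a p^m, invariant under Gamma0(p). F = N0^(p^m) f(p z) mod p^(m+1).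
F | S (z) = p^(-w) Psi(z/p), Psi(z) = f(z) (e(p z) - e(z))^(p^m) (use f(-1/u) = u^w f(u) for u = z/p, and for e), and e(p z) - e(z) has coefficients divisible by p,
so those of Psi are divisible by p^(p^m). h = F + sum over j of F | S T^j = F + p^(-w) sum_j Psi((z+j)/p) has the q-expansion
F + p^(1-w) sum Psi_(pn) q^n (`hasQ_U`), integral and = F mod p^(m+1) because p^m + 1 - w >= m + 1. h is a level one form by `trace_level`
(`slash_action_generators_SL2Z`), holomorphic, bounded at infinity (it has a q-expansion: `HasQ.bdd`, `HasQ.mdiff`).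
-/

set_option autoImplicit false

namespace Pool.Agent.B5X

open PowerSeries UpperHalfPlane Pool.Agent.B5
open scoped MatrixGroups ModularForm Manifold ArithmeticFunction.sigma

private lemma va_slash (k : ℤ) (f : ModularForm 𝒮ℒ k) (γ : SL(2, ℤ)) : (⇑f) ∣[k] γ = ⇑f :=
  SlashInvariantForm.slash_action_eqn f _ ⟨γ, rfl⟩

private lemma va_of {k : ℤ} {g : ℍ → ℂ} {γ : SL(2, ℤ)} (h : g ∣[k] γ = g) (z : ℍ) :
    g (γ • z) = denom γ z ^ k * g z := by
  have h1 := congrFun h z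
  rw [ModularForm.SL_slash_apply] at h1
  have hd : (denom γ z : ℂ) ≠ 0 := denom_ne_zero _ z
  rw [← h1, mul_comm (g (γ • z)), ← mul_assoc, ← zpow_add₀ hd, add_neg_cancel, zpow_zero, one_mul]

private lemma va_to {k : ℤ} {g : ℍ → ℂ} {γ : SL(2, ℤ)} (h : ∀ z, g (γ • z) = denom γ z ^ k * g z) :
    g ∣[k] γ = g := by
  funext z
  rw [ModularForm.SL_slash_apply, h z]
  have hd : (denom γ z : ℂ) ≠ 0 := denom_ne_zero _ z
  rw [mul_comm (denom γ z ^ k), mul_assoc, ← zpow_add₀ hd, add_neg_cancel, zpow_zero, mul_one]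

private lemma va_scale {p : ℕ} (P : ℕ+) (hP : (P : ℕ) = p) (k : ℤ) (f : ModularForm 𝒮ℒ k)
    (γ : SL(2, ℤ)) (hγ : γ ∈ CongruenceSubgroup.Gamma0 p) (z : ℍ) :
    f (sc P (γ • z)) = denom γ z ^ k * f (sc P z) := by
  rw [CongruenceSubgroup.Gamma0_mem, ZMod.intCast_zmod_eq_zero_iff_dvd] at hγ
  obtain ⟨c', hc'⟩ := hγ
  have hc : γ 1 0 = (P : ℕ) * c' := by rw [hP, hc']
  obtain ⟨γ', -, -, -, -, hs⟩ := scale_conj f k P γ c' hc
  have h1 : (fun z => f (sc P z)) ∣[k] γ = fun z => f (sc P z) := by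
    funext z
    rw [hs z, va_slash]
  exact va_of h1 z

private lemma va_S (w : ℍ) : ((ModularGroup.S • w : ℍ) : ℂ) = -1 / (w : ℂ) := by
  rw [coe_specialLinearGroup_apply]
  simp [ModularGroup.S]

private lemma va_Sd (w : ℍ) : (denom (ModularGroup.S : SL(2, ℤ)) w : ℂ) = w := by
  simp [denom, ModularGroup.S]

private lemma va_SS {k : ℤ} (f : ModularForm 𝒮ℒ k) (w : ℍ) :
    f (ModularGroup.S • w) = (w : ℂ) ^ k * f w := by
  rw [va_of (va_slash k f ModularGroup.S) w, va_Sd]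

private lemma va_T (j : ℕ) (z : ℍ) : (((ModularGroup.T ^ j : SL(2, ℤ)) • z : ℍ) : ℂ) = z + j := by
  have h := ModularGroup.coe_T_zpow_smul_eq (z := z) (n := (j : ℤ))
  rw [zpow_natCast] at h
  rw [h]
  push_cast
  rfl

/-- the function F -/
private noncomputable def vF (P : ℕ+) (f e : ℍ → ℂ) (a N : ℕ) : ℍ → ℂ := fun z =>
  f (sc P z) * (e z - ((P : ℕ) : ℂ) ^ a * e (sc P z)) ^ N

/-- the function Psi -/
private noncomputable def vPsi (P : ℕ+) (f e : ℍ → ℂ) (N : ℕ) : ℍ → ℂ := fun u =>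
  f u * (e (sc P u) - e u) ^ N

private lemma vF_inv {p : ℕ} (P : ℕ+) (hP : (P : ℕ) = p) (w a N : ℕ) (f : ModularForm 𝒮ℒ (w : ℤ))
    (e : ModularForm 𝒮ℒ (a : ℤ)) (γ : SL(2, ℤ)) (hγ : γ ∈ CongruenceSubgroup.Gamma0 p) :
    vF P f e a N ∣[((w + a * N : ℕ) : ℤ)] γ = vF P f e a N := by
  apply va_to
  intro z
  unfold vF
  rw [va_scale P hP _ f γ hγ z, va_scale P hP _ e γ hγ z, va_of (va_slash _ e γ) z]
  simp only [zpow_natCast]
  have : (denom γ z : ℂ) ^ a * e z - ((P : ℕ) : ℂ) ^ a * ((denom γ z : ℂ) ^ a * e (sc P z)) =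
      (denom γ z : ℂ) ^ a * (e z - ((P : ℕ) : ℂ) ^ a * e (sc P z)) := by ring
  rw [this, mul_pow, ← pow_mul, pow_add]
  ring

private lemma vF_ST (P : ℕ+) (w a N : ℕ) (f : ModularForm 𝒮ℒ (w : ℤ))
    (e : ModularForm 𝒮ℒ (a : ℤ)) (j : ℕ) (z : ℍ) :
    (vF P f e a N ∣[((w + a * N : ℕ) : ℤ)] (ModularGroup.S * ModularGroup.T ^ j)) z =
      (((P : ℕ) : ℂ) ^ w)⁻¹ * vPsi P f e N (dvp P j z) := by
  have hp0 : ((P : ℕ) : ℂ) ≠ 0 := by exact_mod_cast P.ne_zero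
  set u := dvp P j z with hu
  have hu0 : (u : ℂ) ≠ 0 := u.ne_zero
  have hw : sc P u = (ModularGroup.T ^ j : SL(2, ℤ)) • z := by
    apply UpperHalfPlane.ext
    rw [va_T]
    change ((P : ℕ) : ℂ) * (((z : ℂ) + j) / (P : ℕ)) = _
    field_simp
  have hwc : ((sc P u : ℍ) : ℂ) = ((P : ℕ) : ℂ) * (u : ℂ) := rfl
  have h1 : sc P (ModularGroup.S • sc P u) = ModularGroup.S • u := by
    apply UpperHalfPlane.ext
    rw [va_S]
    change ((P : ℕ) : ℂ) * ((ModularGroup.S • sc P u : ℍ) : ℂ) = _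
    rw [va_S, hwc]
    field_simp
  rw [SlashAction.slash_mul, ModularForm.SL_slash_apply, ModularForm.SL_slash_apply, ← hw, va_Sd]
  have hd1 : (denom (ModularGroup.T ^ j : SL(2, ℤ)) z : ℂ) = 1 := by
    have h2 : ((ModularGroup.T ^ j : SL(2, ℤ)) : Matrix (Fin 2) (Fin 2) ℤ) =
        !![1, (j : ℤ); 0, 1] := by
      have h := ModularGroup.coe_T_zpow (j : ℤ)
      rw [zpow_natCast] at h
      exact h
    have e2 : ∀ γ : SL(2, ℤ), (denom γ z : ℂ) =
        ((γ 1 0 : ℤ) : ℂ) * (z : ℂ) + ((γ 1 1 : ℤ) : ℂ) := by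
      intro γ
      simp [denom]
    rw [e2, h2]
    simp
  rw [hd1, one_zpow, mul_one]
  unfold vF vPsi
  rw [h1, va_SS f u, va_SS e u, va_SS e (sc P u), hwc]
  simp only [zpow_neg, zpow_natCast]
  have h3 : (((P : ℕ) : ℂ) * (u : ℂ)) ^ a * e (sc P u) - ((P : ℕ) : ℂ) ^ a * ((u : ℂ) ^ a * e u) =
      (((P : ℕ) : ℂ) * (u : ℂ)) ^ a * (e (sc P u) - e u) := by ring
  rw [h3]
  simp only [mul_pow, pow_add, ← pow_mul]
  field_simp

private lemma va_hasQ_congr {g g' : ℍ → ℂ} {c : ℂ⟦X⟧} (h : HasQ g c) (he : ∀ z, g' z = g z) :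
    HasQ g' c := by
  intro z
  rw [he z]
  exact h z

private lemma va_toC_expand (p : ℕ) (hp : p ≠ 0) (c : ℤ⟦X⟧) :
    toC (PowerSeries.expand p hp c) = PowerSeries.expand p hp (toC c) := by
  ext n
  simp only [toC, PowerSeries.coeff_map, PowerSeries.coeff_expand]
  split_ifs <;> simp

theorem V_form (p : ℕ) [Fact p.Prime] (hp : 3 < p) (w : ℕ) (f : ModularForm 𝒮ℒ (w : ℤ)) (c : ℤ⟦X⟧)
    (hc : HasQ f (toC c)) (m : ℕ) (hm : w + m ≤ p ^ m) :
    ∃ (N : ℤ) (h : ModularForm 𝒮ℒ ((w + (p - 1) * p ^ m : ℕ) : ℤ)) (d : ℤ⟦X⟧), ¬ (p : ℤ) ∣ N ∧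
      HasQ h (toC d) ∧ ∀ n, ((p : ℤ) ^ (m + 1)) ∣ PowerSeries.coeff n d -
        N * PowerSeries.coeff n (PowerSeries.expand p (Fact.out : p.Prime).ne_zero c) := by
  have hpp : p.Prime := Fact.out
  obtain ⟨a, ha⟩ : ∃ a, a = p ^ 0 * (p - 1) := ⟨_, rfl⟩
  have heis : ∃ (N D : ℤ) (f : ModularForm 𝒮ℒ ((a : ℕ) : ℤ)), ¬ (p : ℤ) ∣ N ∧ (p : ℤ) ∣ D ∧
      HasQ f (toC (PowerSeries.mk fun n => if n = 0 then N else
        -2 * ((a : ℕ) : ℤ) * D * (σ (a - 1) n : ℤ))) := by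
    rw [ha]
    exact eis p hp 0
  obtain ⟨N0, D0, e, hN0, hD0, he⟩ := heis
  have ha1 : a = p - 1 := by rw [ha, pow_zero, one_mul]
  have ha0 : 1 ≤ a := by omega
  set cE : ℤ⟦X⟧ := PowerSeries.mk fun n => if n = 0 then N0 else
        -2 * ((a : ℕ) : ℤ) * D0 * (σ (a - 1) n : ℤ) with hcE
  let P : ℕ+ := ⟨p, hpp.pos⟩
  have hP : (P : ℕ) = p := rfl
  have hp0 : (p : ℂ) ≠ 0 := by exact_mod_cast hpp.ne_zero
  set xp : ℤ⟦X⟧ → ℤ⟦X⟧ := fun c => PowerSeries.expand p hpp.ne_zero c with hxp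
  -- q-expansions
  have hfs : HasQ (fun z => f (sc P z)) (toC (xp c)) := by
    rw [va_toC_expand]
    exact hc.scale P
  have hes : HasQ (fun z => e (sc P z)) (toC (xp cE)) := by
    rw [va_toC_expand]
    exact he.scale P
  have htm : ∀ x y : ℤ⟦X⟧, toC (x * y) = toC x * toC y := fun x y => map_mul _ _ _
  have hts : ∀ x y : ℤ⟦X⟧, toC (x - y) = toC x - toC y := fun x y => map_sub _ _ _
  have hta : ∀ x y : ℤ⟦X⟧, toC (x + y) = toC x + toC y := fun x y => map_add _ _ _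
  have htp : ∀ (x : ℤ⟦X⟧) (n : ℕ), toC (x ^ n) = toC x ^ n := fun x n => map_pow _ _ _
  have htC : ∀ x : ℤ, toC (PowerSeries.C x) = PowerSeries.C (x : ℂ) := fun x => by
    ext n
    simp only [toC, PowerSeries.coeff_map, PowerSeries.coeff_C]
    split_ifs <;> simp
  have hF : HasQ (vF P f e a (p ^ m))
      (toC (xp c * (cE - PowerSeries.C ((p : ℤ) ^ a) * xp cE) ^ (p ^ m))) := by
    rw [htm, htp, hts, htm, htC]
    have h1 := hfs.mul ((he.sub ((HasQ.const (((p : ℤ) ^ a : ℤ) : ℂ)).mul hes)).pow (p ^ m))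
    refine va_hasQ_congr h1 (fun z => ?_)
    unfold vF
    rw [hP]
    push_cast
    rfl
  have hPsi : HasQ (vPsi P f e (p ^ m)) (toC (c * (xp cE - cE) ^ (p ^ m))) := by
    rw [htm, htp, hts]
    exact hc.mul ((hes.sub he).pow (p ^ m))
  -- divisibility
  have hdE : ∀ n, n ≠ 0 → (p : ℤ) ∣ PowerSeries.coeff n cE := by
    intro n hn
    rw [hcE, PowerSeries.coeff_mk, if_neg hn]
    exact Dvd.dvd.mul_right (Dvd.dvd.mul_left hD0 _) _
  have hdx : ∀ n, n ≠ 0 → (p : ℤ) ∣ PowerSeries.coeff n (xp cE) := by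
    intro n hn
    rw [hxp]
    simp only [PowerSeries.coeff_expand]
    split_ifs with h
    · apply hdE
      intro h0
      obtain ⟨t, ht⟩ := h
      rw [ht, Nat.mul_div_cancel_left _ hpp.pos] at h0
      rw [h0, mul_zero] at ht
      exact hn ht
    · exact dvd_zero _
  have hx0 : PowerSeries.coeff 0 (xp cE) = N0 := by
    rw [hxp]
    simp only [PowerSeries.coeff_expand]
    rw [if_pos (dvd_zero _), Nat.zero_div, hcE, PowerSeries.coeff_mk, if_pos rfl]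
  have hE0 : PowerSeries.coeff 0 cE = N0 := by
    rw [hcE, PowerSeries.coeff_mk, if_pos rfl]
  have hdvd : ∀ (k : ℕ) (x : ℤ⟦X⟧), (∀ n, (p : ℤ) ^ k ∣ PowerSeries.coeff n x) →
      ∃ y : ℤ⟦X⟧, x = PowerSeries.C ((p : ℤ) ^ k) * y := by
    intro k x hx
    choose y hy using hx
    refine ⟨PowerSeries.mk y, ?_⟩
    ext n
    rw [PowerSeries.coeff_C_mul, PowerSeries.coeff_mk, hy n]
  obtain ⟨y1, hy1⟩ : ∃ y : ℤ⟦X⟧, xp cE - cE = PowerSeries.C ((p : ℤ) ^ 1) * y := by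
    apply hdvd
    intro n
    rw [pow_one, map_sub]
    rcases eq_or_ne n 0 with rfl | hn
    · rw [hx0, hE0, sub_self]
      exact dvd_zero _
    · exact dvd_sub (hdx n hn) (hdE n hn)
  have hpsi2 : c * (xp cE - cE) ^ (p ^ m) =
      PowerSeries.C ((p : ℤ) ^ (p ^ m)) * (c * y1 ^ (p ^ m)) := by
    rw [hy1, pow_one, mul_pow, ← map_pow]
    ring
  set y2 : ℤ⟦X⟧ := c * y1 ^ (p ^ m) with hy2
  set cF : ℤ⟦X⟧ := xp c * (cE - PowerSeries.C ((p : ℤ) ^ a) * xp cE) ^ (p ^ m) with hcF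
  obtain ⟨t, ht⟩ : ∃ t, p ^ m = w + m + t := ⟨p ^ m - (w + m), by omega⟩
  set d2 : ℤ⟦X⟧ := PowerSeries.mk fun n => (p : ℤ) ^ (m + 1 + t) * PowerSeries.coeff (p * n) y2
    with hd2
  -- the second part
  have hU : HasQ (fun z => ∑ j ∈ Finset.range p, (((P : ℕ) : ℂ) ^ w)⁻¹ *
      vPsi P f e (p ^ m) (dvp P j z)) (toC d2) := by
    have h1 := (HasQ.const ((((P : ℕ) : ℂ) ^ w)⁻¹)).mul (hasQ_U P hPsi)
    have h2 : PowerSeries.C ((((P : ℕ) : ℂ) ^ w)⁻¹) * (PowerSeries.mk fun n => ((P : ℕ) : ℂ) *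
        PowerSeries.coeff ((P : ℕ) * n) (toC (c * (xp cE - cE) ^ (p ^ m)))) = toC d2 := by
      ext n
      rw [PowerSeries.coeff_C_mul, PowerSeries.coeff_mk, hpsi2, hP, hd2]
      simp only [toC, PowerSeries.coeff_map, PowerSeries.coeff_mk, PowerSeries.coeff_C_mul]
      simp only [eq_intCast]
      push_cast
      rw [ht]
      rw [show m + 1 + t = m + t + 1 by ring, show w + m + t = w + (m + t) by ring]
      rw [pow_add _ w (m + t), pow_succ]
      field_simp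
    rw [h2] at h1
    refine va_hasQ_congr h1 (fun z => ?_)
    rw [Finset.mul_sum]
    rfl
  -- the form
  have hinv := trace_level p hpp ((w + a * p ^ m : ℕ) : ℤ) (vF P f e a (p ^ m))
    (fun γ hγ => vF_inv P hP w a (p ^ m) f e γ hγ)
  set H : ℍ → ℂ := vF P f e a (p ^ m) + ∑ j ∈ Finset.range p,
    vF P f e a (p ^ m) ∣[((w + a * p ^ m : ℕ) : ℤ)] (ModularGroup.S * ModularGroup.T ^ j) with hH
  have hall : ∀ γ : SL(2, ℤ), H ∣[((w + a * p ^ m : ℕ) : ℤ)] γ = H :=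
    SlashInvariantForm.slash_action_generators_SL2Z hinv.1 hinv.2
  have hHQ : HasQ H (toC (cF + d2)) := by
    rw [hta]
    refine va_hasQ_congr (hF.add hU) (fun z => ?_)
    rw [hH, Pi.add_apply, Finset.sum_apply]
    congr 1
    exact Finset.sum_congr rfl (fun j _ => vF_ST P w a (p ^ m) f e j z)
  have hKK : ((w + (p - 1) * p ^ m : ℕ) : ℤ) = ((w + a * p ^ m : ℕ) : ℤ) := by rw [ha1]
  rw [hKK]
  let h : ModularForm 𝒮ℒ ((w + a * p ^ m : ℕ) : ℤ) :=
    { toFun := H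
      slash_action_eq' := by
        rintro _ ⟨γ, rfl⟩
        exact hall γ
      holo' := hHQ.mdiff
      bdd_at_cusps' := by
        intro c hc
        rw [Subgroup.IsArithmetic.isCusp_iff_isCusp_SL2Z] at hc
        rw [OnePoint.isBoundedAt_iff_forall_SL2Z hc]
        intro γ _
        have := hall γ
        change IsBoundedAtImInfty (H ∣[((w + a * p ^ m : ℕ) : ℤ)] γ)
        rw [this]
        exact hHQ.bdd }
  refine ⟨N0 ^ (p ^ m), h, cF + d2, ?_, hHQ, ?_⟩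
  · intro hd
    exact hN0 ((Nat.prime_iff_prime_int.1 hpp).dvd_of_dvd_pow hd)
  · intro n
    have h1 : ((p : ℕ) : ℤ⟦X⟧) ∣ (cE - PowerSeries.C ((p : ℤ) ^ a) * xp cE) - PowerSeries.C N0 := by
      obtain ⟨y3, hy3⟩ := hdvd 1 (cE - PowerSeries.C N0) (by
        intro n
        rw [pow_one, map_sub]
        rcases eq_or_ne n 0 with rfl | hn
        · rw [hE0, PowerSeries.coeff_zero_C, sub_self]
          exact dvd_zero _
        · rw [PowerSeries.coeff_C, if_neg hn, sub_zero]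
          exact hdE n hn)
      have hpc : (PowerSeries.C (p : ℤ) : ℤ⟦X⟧) = ((p : ℕ) : ℤ⟦X⟧) := by simp
      obtain ⟨a', ha'⟩ : ∃ a', a = a' + 1 := ⟨a - 1, by omega⟩
      refine ⟨y3 - PowerSeries.C ((p : ℤ) ^ a') * xp cE, ?_⟩
      rw [pow_one, hpc] at hy3
      have h4 : (PowerSeries.C ((p : ℤ) ^ a) : ℤ⟦X⟧) =
          ((p : ℕ) : ℤ⟦X⟧) * PowerSeries.C ((p : ℤ) ^ a') := by
        rw [ha', pow_succ, map_mul, hpc, mul_comm]
      rw [h4]
      linear_combination hy3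
    have h2 := dvd_sub_pow_of_dvd_sub h1 m
    obtain ⟨y4, hy4⟩ := h2
    have hpc : (((p : ℕ) : ℤ⟦X⟧) ^ (m + 1)) = PowerSeries.C ((p : ℤ) ^ (m + 1)) := by simp
    have h5 : cF - PowerSeries.C (N0 ^ (p ^ m)) * xp c = PowerSeries.C ((p : ℤ) ^ (m + 1)) *
        (xp c * y4) := by
      rw [hcF, ← hpc]
      have : (PowerSeries.C (N0 ^ (p ^ m)) : ℤ⟦X⟧) = PowerSeries.C N0 ^ (p ^ m) := map_pow _ _ _
      rw [this]
      linear_combination (xp c) * hy4
    have h6 : PowerSeries.coeff n (cF + d2) -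
        N0 ^ (p ^ m) * PowerSeries.coeff n (PowerSeries.expand p hpp.ne_zero c) =
        (p : ℤ) ^ (m + 1) * (PowerSeries.coeff n (xp c * y4) +
          (p : ℤ) ^ t * PowerSeries.coeff (p * n) y2) := by
      have h7 := congrArg (PowerSeries.coeff n) h5
      rw [map_sub, PowerSeries.coeff_C_mul, PowerSeries.coeff_C_mul] at h7
      rw [map_add, hd2, PowerSeries.coeff_mk, mul_add, ← h7, pow_add _ (m + 1) t]
      ring
    rw [h6]
    exact dvd_mul_right _ _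

end Pool.Agent.B5X
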