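import Pool.Agent.B5X.Defs
import Pool.Agent.B5X.VA
import Pool.Agent.B5X.LV

/-!
B5X / VP: the operator V on isobaric polynomials mod p^j. `lift1` gives f, c; choose m with m + 1 >= j, k + m <= p^m, apply `V_form`, and `levelOne_mod` for h, divide by N;
(p-1) p^m = p^(m+1-j) * (p^(j-1) (p-1)).
-/

set_option autoImplicit false

namespace Pool.Agent.B5X

open PowerSeries UpperHalfPlane Pool.Agent.B5
open scoped MatrixGroups ModularForm Manifold ArithmeticFunction.sigma

theorem V_poly (p : ℕ) [Fact p.Prime] (hp : 3 < p) (j : ℕ) (hj : 1 ≤ j) (k : ℕ) (A : U (p ^ j)) (hA : Iso A k) :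
    ∃ (t : ℕ) (A' : U (p ^ j)), Iso A' (k + t * (p ^ (j - 1) * (p - 1))) ∧
      ev1 (p ^ j) A' = PowerSeries.expand p (Fact.out : p.Prime).ne_zero (ev1 (p ^ j) A) := by
  have hpp : p.Prime := Fact.out
  obtain ⟨f, c, hfc, hred⟩ := lift1 (p ^ j) k A hA
  have hm : k + (k + j) ≤ p ^ (k + j) := by
    have h1 : ∀ n : ℕ, 1 ≤ n → 2 * n ≤ 2 ^ n := by
      intro n hn
      induction n, hn using Nat.le_induction with
      | base => norm_num
      | succ n hn ih => rw [pow_succ]; omega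
    have h2 := h1 (k + j) (by omega)
    have h3 : 2 ^ (k + j) ≤ p ^ (k + j) := Nat.pow_le_pow_left (by omega) _
    omega
  obtain ⟨N, h, d, hN, hhd, hcong⟩ := V_form p hp k f c hfc (k + j) hm
  have hcop : Nat.Coprime 6 (p ^ j) := by
    apply Nat.Coprime.pow_right
    rw [Nat.coprime_comm]
    apply (Nat.Prime.coprime_iff_not_dvd hpp).mpr
    intro hdv
    have : p ∣ 2 * 3 := by simpa using hdv
    rcases (Nat.Prime.dvd_mul hpp).mp this with h2 | h3
    · have := Nat.le_of_dvd (by norm_num) h2; omega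
    · have := Nat.le_of_dvd (by norm_num) h3; omega
  obtain ⟨A1, hA1, hev⟩ := levelOne_mod (p ^ j) hcop _ h d hhd
  have hunit : IsUnit ((N : ℤ) : ZMod (p ^ j)) := by
    have hc : IsCoprime N ((p ^ j : ℕ) : ℤ) := by
      rw [Nat.cast_pow]
      apply IsCoprime.pow_right
      exact ((Nat.prime_iff_prime_int.mp hpp).coprime_iff_not_dvd.mpr hN).symm
    exact (ZMod.coe_int_isUnit_iff_isCoprime N (p ^ j)).mpr hc.symm
  obtain ⟨u, hu⟩ := hunit
  refine ⟨p ^ (k + 1), (MvPolynomial.C ((u⁻¹ : (ZMod (p ^ j))ˣ) : ZMod (p ^ j))) * A1, ?_, ?_⟩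
  · have hw : k + p ^ (k + 1) * (p ^ (j - 1) * (p - 1)) = 0 + (k + (p - 1) * p ^ (k + j)) := by
      have : p ^ (k + 1) * p ^ (j - 1) = p ^ (k + j) := by
        rw [← pow_add]; congr 1; omega
      calc k + p ^ (k + 1) * (p ^ (j - 1) * (p - 1))
          = k + (p ^ (k + 1) * p ^ (j - 1)) * (p - 1) := by rw [mul_assoc]
        _ = 0 + (k + (p - 1) * p ^ (k + j)) := by rw [this, mul_comm (p ^ (k + j)), zero_add]
    unfold Iso
    rw [hw]
    exact (MvPolynomial.isWeightedHomogeneous_C _ _).mul hA1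
  · rw [map_mul, hev, ← hred]
    have hC : ev1 (p ^ j) (MvPolynomial.C ((u⁻¹ : (ZMod (p ^ j))ˣ) : ZMod (p ^ j))) =
        PowerSeries.C ((u⁻¹ : (ZMod (p ^ j))ˣ) : ZMod (p ^ j)) := by
      unfold ev1
      rw [MvPolynomial.aeval_C]
      rfl
    rw [hC]
    ext n
    rw [PowerSeries.coeff_C_mul]
    have e1 : PowerSeries.coeff n (PowerSeries.expand p hpp.ne_zero (red (p ^ j) c)) =
        ((PowerSeries.coeff n (PowerSeries.expand p hpp.ne_zero c) : ℤ) : ZMod (p ^ j)) := by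
      rw [PowerSeries.coeff_expand, PowerSeries.coeff_expand]
      split_ifs
      · simp [red]
      · simp
    have e2 : PowerSeries.coeff n (red (p ^ j) d) = ((PowerSeries.coeff n d : ℤ) : ZMod (p ^ j)) := by
      simp [red]
    rw [e1, e2]
    have h4 : ((PowerSeries.coeff n d : ℤ) : ZMod (p ^ j)) =
        ((N : ℤ) : ZMod (p ^ j)) * ((PowerSeries.coeff n (PowerSeries.expand p hpp.ne_zero c) : ℤ) : ZMod (p ^ j)) := by
      rw [← Int.cast_mul, ZMod.intCast_eq_intCast_iff_dvd_sub]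
      have h5 := hcong n
      have h6 : ((p ^ j : ℕ) : ℤ) ∣ ((p : ℤ) ^ (k + j + 1)) := by
        rw [Nat.cast_pow]
        exact pow_dvd_pow _ (by omega)
      have h7 := dvd_trans h6 h5
      rw [← dvd_neg]
      simpa using h7
    rw [h4, ← hu, ← mul_assoc, Units.inv_mul, one_mul]

end Pool.Agent.B5X
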