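import Pool.Agent.B5X.Defs
import Pool.Agent.B5X.VP
import Pool.Agent.B5X.AJ
import Pool.Agent.B5X.IN
import Pool.Agent.B5X.DE

/-!
B5X / PL: P = E_2 is congruent mod p^j to a level one form of weight = 2 mod p^(j-1)(p-1). Induction on j.
Write s = j - 1, w = p^s (p-1), M' = p^(2s+1), e = N - 2 w D sum sigma_(w-1)(n) q^n from `eis`, F over ZMod M' with ev1 F = red e, Iso F w (`levelOne_mod`). By `ev1_der`
  ev1 (der1 F) = 2 dD e - w P e mod p^(2s+1).
2 dD e = -24 w D sum n sigma_(w-1)(n) q^n; n sigma_(w-1)(n) = sum over d | n of (n/d) d^w, d^w = 1 mod p^(s+1) if p does not divide d, = 0 mod p^(s+1) otherwise (w >= s+1), so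
n sigma_(w-1)(n) = sigma_1(n) - sigma_1(n/p) mod p^(s+1) (second term only if p | n). Hence 2 dD e = w D (P - P(q^p)) mod p^(2s+1) (-24 sum sigma_1(n) q^n = P - 1), and
w P e = w N P mod p^(2s+1). So ev1 (der1 F) = 0 mod p^s, by injectivity (`ev1_inj` mod p^s, after reduction of F; s = 0 trivial) der1 F = p^s F1, and dividing by p^s:
  ev1 F1 = (p-1) D (P - P(q^p)) - (p-1) N P mod p^(s+1), i.e. (p-1)(D - N) P = ev1 F1 + (p-1) D P(q^p) mod p^j; (p-1)(D-N) is a unit.
F1 has weight w + 2. For j = 1: D = 0 mod p, done (t = 1). For j > 1: by induction P = ev1 B' mod p^(j-1), `V_poly` gives P(q^p) = ev1 B'' mod p^(j-1), weight 2 mod p^(j-2)(p-1);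
lift the coefficients of B'' arbitrarily to ZMod (p^j); D B'' is then correct mod p^j as p | D; multiply B'' by lifts of powers of A_(j-1) (`exists_Aj`, = 1 mod p^(j-1)) to make its
weight = 2 mod p^(j-1)(p-1), and F1 or the other term by powers of A_j to have equal weights.
-/

set_option autoImplicit false

namespace Pool.Agent.B5X

open PowerSeries UpperHalfPlane Pool.Agent.B5
open scoped MatrixGroups ModularForm Manifold ArithmeticFunction.sigma

/-- reduction of polynomials -/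
private noncomputable def plR {M M' : ℕ} (h : M ∣ M') : U M' →+* U M :=
  MvPolynomial.map (ZMod.castHom h (ZMod M))

private theorem plR_red {M M' : ℕ} (h : M ∣ M') (c : ℤ⟦X⟧) :
    PowerSeries.map (ZMod.castHom h (ZMod M)) (red M' c) = red M c := by
  ext n
  simp only [red, PowerSeries.coeff_map, eq_intCast, map_intCast]

private theorem plR_ev {M M' : ℕ} (h : M ∣ M') (F : U M') :
    ev1 M (plR h F) = PowerSeries.map (ZMod.castHom h (ZMod M)) (ev1 M' F) := by
  have key : ((ev1 M : U M →ₐ[ZMod M] (ZMod M)⟦X⟧) : U M →+* (ZMod M)⟦X⟧).comp (plR h) =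
      (PowerSeries.map (ZMod.castHom h (ZMod M))).comp
        ((ev1 M' : U M' →ₐ[ZMod M'] (ZMod M')⟦X⟧) : U M' →+* (ZMod M')⟦X⟧) := by
    apply MvPolynomial.ringHom_ext
    · intro r
      simp only [RingHom.comp_apply, plR, MvPolynomial.map_C, RingHom.coe_coe]
      have h1 : ev1 M (MvPolynomial.C (ZMod.castHom h (ZMod M) r)) =
          PowerSeries.C (ZMod.castHom h (ZMod M) r) := by
        unfold ev1
        rw [MvPolynomial.aeval_C]
        rfl
      have h2 : ev1 M' (MvPolynomial.C r) = PowerSeries.C r := by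
        unfold ev1
        rw [MvPolynomial.aeval_C]
        rfl
      rw [h1, h2, PowerSeries.map_C]
    · intro i
      simp only [RingHom.comp_apply, plR, MvPolynomial.map_X, RingHom.coe_coe]
      unfold ev1
      rw [MvPolynomial.aeval_X, MvPolynomial.aeval_X]
      fin_cases i
      · exact (plR_red h sQ).symm
      · exact (plR_red h sR).symm
  have := congrArg (fun f => f F) key
  exact this

private theorem plR_iso {M M' : ℕ} (h : M ∣ M') {F : U M'} {k : ℕ} (hF : Iso F k) :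
    Iso (plR h F) k := by
  intro d hd
  apply hF
  intro h0
  apply hd
  rw [plR, MvPolynomial.coeff_map, h0, map_zero]

private theorem pl_build {M : ℕ} {k : ℕ} (s : Finset (Fin 2 →₀ ℕ)) (f : (Fin 2 →₀ ℕ) → ZMod M)
    (hs : ∀ d ∈ s, Finsupp.weight ![4, 6] d = k) :
    Iso (∑ d ∈ s, MvPolynomial.monomial d (f d) : U M) k := by
  apply MvPolynomial.IsWeightedHomogeneous.sum
  intro d hd
  exact MvPolynomial.isWeightedHomogeneous_monomial _ _ _ (hs d hd)

private theorem plR_lift {M M' : ℕ} (h : M ∣ M') {A : U M} {k : ℕ} (hA : Iso A k) :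
    ∃ B : U M', Iso B k ∧ plR h B = A := by
  classical
  have hsur : Function.Surjective (ZMod.castHom h (ZMod M)) := ZMod.castHom_surjective h
  refine ⟨∑ d ∈ A.support, MvPolynomial.monomial d
    (Function.surjInv hsur (MvPolynomial.coeff d A)), ?_, ?_⟩
  · apply pl_build
    intro d hd
    exact hA (MvPolynomial.mem_support_iff.1 hd)
  · rw [plR, map_sum]
    conv_rhs => rw [MvPolynomial.as_sum A]
    apply Finset.sum_congr rfl
    intro d _
    rw [MvPolynomial.map_monomial, Function.surjInv_eq hsur]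

private theorem pl_div {M : ℕ} (c : ZMod M) (P : ZMod M → Prop) (hP : ∀ x, P x → ∃ y, x = c * y)
    {G : U M} {k : ℕ} (hG : Iso G k) (h : ∀ d, P (MvPolynomial.coeff d G)) :
    ∃ F : U M, Iso F k ∧ G = MvPolynomial.C c * F := by
  classical
  have h1 : ∀ d, ∃ y, MvPolynomial.coeff d G = c * y := fun d => hP _ (h d)
  choose y hy using h1
  refine ⟨∑ d ∈ G.support, MvPolynomial.monomial d (y d), ?_, ?_⟩
  · apply pl_build
    intro d hd
    exact hG (MvPolynomial.mem_support_iff.1 hd)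
  · rw [Finset.mul_sum]
    conv_lhs => rw [MvPolynomial.as_sum G]
    apply Finset.sum_congr rfl
    intro d _
    rw [MvPolynomial.C_mul_monomial, hy d]

/-- kernel of the reduction -/
private theorem pl_ker {p a b : ℕ} (hp : p ≠ 0) (hab : a ≤ b) (h : p ^ a ∣ p ^ b) (x : ZMod (p ^ b))
    (hx : ZMod.castHom h (ZMod (p ^ a)) x = 0) : ∃ y, x = ((p ^ a : ℕ) : ZMod (p ^ b)) * y := by
  have : NeZero (p ^ b) := ⟨pow_ne_zero b hp⟩
  have h1 : x = ((x.val : ℕ) : ZMod (p ^ b)) := (ZMod.natCast_zmod_val x).symm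
  rw [h1, map_natCast, ZMod.natCast_eq_zero_iff] at hx
  obtain ⟨y, hy⟩ := hx
  refine ⟨(y : ZMod (p ^ b)), ?_⟩
  rw [h1, hy]
  push_cast
  rfl

private theorem pl_cancel {p s j : ℕ} (hp : 0 < p) (h : p ^ j ∣ p ^ (s + j)) (x : ZMod (p ^ (s + j)))
    (hx : ((p ^ s : ℕ) : ZMod (p ^ (s + j))) * x = 0) : ZMod.castHom h (ZMod (p ^ j)) x = 0 := by
  have : NeZero (p ^ (s + j)) := ⟨pow_ne_zero _ hp.ne'⟩
  have h1 : x = ((x.val : ℕ) : ZMod (p ^ (s + j))) := (ZMod.natCast_zmod_val x).symm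
  rw [h1, ← Nat.cast_mul, ZMod.natCast_eq_zero_iff] at hx
  have h3 : p ^ s * p ^ j ∣ p ^ s * x.val := by rw [← pow_add]; exact hx
  have h2 : p ^ j ∣ x.val := Nat.dvd_of_mul_dvd_mul_left (pow_pos hp s) h3
  rw [h1, map_natCast, ZMod.natCast_eq_zero_iff]
  exact h2

private theorem pl_sigma_aux (p : ℕ) (hp : p.Prime) (n : ℕ) (hn : n ≠ 0) :
    ∑ d ∈ n.divisors.filter (fun d => p ∣ d), ((n / d : ℕ) : ℤ) =
      if p ∣ n then (σ 1 (n / p) : ℤ) else 0 := by
  split_ifs with h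
  · obtain ⟨m, rfl⟩ := h
    have hm : m ≠ 0 := fun h => hn (by rw [h, mul_zero])
    rw [Nat.mul_div_cancel_left m hp.pos, ArithmeticFunction.sigma_one_apply,
      ← Nat.sum_div_divisors m (fun d => d), Nat.cast_sum]
    have h1 : (p * m).divisors.filter (fun d => p ∣ d) = m.divisors.image (fun d => p * d) := by
      ext d
      simp only [Finset.mem_filter, Nat.mem_divisors, Finset.mem_image]
      constructor
      · rintro ⟨⟨h1, -⟩, e, rfl⟩
        exact ⟨e, ⟨Nat.dvd_of_mul_dvd_mul_left hp.pos h1, hm⟩, rfl⟩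
      · rintro ⟨e, ⟨h1, -⟩, rfl⟩
        exact ⟨⟨Nat.mul_dvd_mul_left p h1, mul_ne_zero hp.ne_zero hm⟩, dvd_mul_right p e⟩
    rw [h1, Finset.sum_image (fun a _ b _ hab => Nat.eq_of_mul_eq_mul_left hp.pos hab)]
    apply Finset.sum_congr rfl
    intro d _
    rw [Nat.mul_div_mul_left _ _ hp.pos]
  · apply Finset.sum_eq_zero
    intro d hd
    rw [Finset.mem_filter, Nat.mem_divisors] at hd
    exact absurd (hd.2.trans hd.1.1) h

private theorem pl_sigma (p : ℕ) (hp : p.Prime) (s n : ℕ) (hn : n ≠ 0) :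
    ((p : ℤ) ^ (s + 1)) ∣ (n : ℤ) * (σ (p ^ s * (p - 1) - 1) n : ℤ) -
      ((σ 1 n : ℤ) - if p ∣ n then (σ 1 (n / p) : ℤ) else 0) := by
  set w := p ^ s * (p - 1) with hw
  have hp1 : 1 ≤ p - 1 := by have := hp.two_le; omega
  have hw1 : s + 1 ≤ w := by
    have h1 : s < p ^ s := Nat.lt_pow_self hp.one_lt
    have h2 : p ^ s * 1 ≤ p ^ s * (p - 1) := Nat.mul_le_mul_left _ hp1
    omega
  have h1 : (n : ℤ) * (σ (w - 1) n : ℤ) = ∑ d ∈ n.divisors, ((n / d : ℕ) : ℤ) * (d : ℤ) ^ w := by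
    rw [ArithmeticFunction.sigma_apply]
    push_cast
    rw [Finset.mul_sum]
    apply Finset.sum_congr rfl
    intro d hd
    have h2 : d ∣ n := Nat.dvd_of_mem_divisors hd
    have h3 : ((n / d : ℕ) : ℤ) * (d : ℤ) = n := by exact_mod_cast Nat.div_mul_cancel h2
    have h4 : (d : ℤ) ^ w = d * (d : ℤ) ^ (w - 1) := by
      rw [← pow_succ']
      congr 1
      omega
    rw [h4, ← mul_assoc]
    have h5 : ((n / d : ℕ) : ℤ) = (n : ℤ) / (d : ℤ) := Int.natCast_div n d
    first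
      | rw [h3]
      | (rw [h5] at h3; rw [h3])
  have h2 : (σ 1 n : ℤ) = ∑ d ∈ n.divisors, ((n / d : ℕ) : ℤ) := by
    rw [ArithmeticFunction.sigma_one_apply, ← Nat.sum_div_divisors n (fun d => d)]
    push_cast
    rfl
  rw [h1, h2, ← pl_sigma_aux p hp n hn, Finset.sum_filter, ← Finset.sum_sub_distrib,
    ← Finset.sum_sub_distrib]
  apply Finset.dvd_sum
  intro d hd
  split_ifs with h
  · have h3 : (p : ℤ) ^ (s + 1) ∣ (d : ℤ) ^ w := by
      have h4 : (p : ℤ) ^ w ∣ (d : ℤ) ^ w := pow_dvd_pow_of_dvd (Int.natCast_dvd_natCast.2 h) w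
      exact (pow_dvd_pow _ hw1).trans h4
    have h5 := h3.mul_left ((n / d : ℕ) : ℤ)
    simpa using h5
  · have h3 : d ^ w ≡ 1 [MOD p ^ (s + 1)] := by
      have h4 : Nat.Coprime d (p ^ (s + 1)) :=
        ((Nat.Prime.coprime_iff_not_dvd hp).2 h).symm.pow_right _
      have h5 := Nat.ModEq.pow_totient h4
      rwa [Nat.totient_prime_pow_succ hp] at h5
    have h4 : (p : ℤ) ^ (s + 1) ∣ (d : ℤ) ^ w - 1 := by
      have h5 := (Nat.modEq_iff_dvd.1 h3.symm)
      push_cast at h5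
      exact h5
    have h5 := h4.mul_left ((n / d : ℕ) : ℤ)
    have h6 : ((n / d : ℕ) : ℤ) * ((d : ℤ) ^ w - 1) =
        ((n / d : ℕ) : ℤ) * (d : ℤ) ^ w - (((n / d : ℕ) : ℤ) - 0) := by ring
    rw [← h6]
    exact h5

private theorem pl_red_C (M : ℕ) (a : ℤ) : red M (PowerSeries.C a) = PowerSeries.C ((a : ℤ) : ZMod M) := by
  unfold red
  rw [PowerSeries.map_C]
  simp

private theorem pl_red_mul (M : ℕ) (a b : ℤ⟦X⟧) : red M (a * b) = red M a * red M b := by
  unfold red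
  exact map_mul _ _ _

private theorem pl_red_sub (M : ℕ) (a b : ℤ⟦X⟧) : red M (a - b) = red M a - red M b := by
  unfold red
  exact map_sub _ _ _

private theorem pl_red_zero_of (M : ℕ) (c : ℤ⟦X⟧) (h : ∀ n, (M : ℤ) ∣ PowerSeries.coeff n c) :
    red M c = 0 := by
  ext n
  simp only [red, PowerSeries.coeff_map, eq_intCast, map_zero]
  exact (ZMod.intCast_zmod_eq_zero_iff_dvd _ _).2 (h n)

private theorem pl_red_eq_of (M : ℕ) (c d : ℤ⟦X⟧) (h : ∀ n, (M : ℤ) ∣ PowerSeries.coeff n c - PowerSeries.coeff n d) :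
    red M c = red M d := by
  rw [← sub_eq_zero, ← pl_red_sub]
  apply pl_red_zero_of
  intro n
  rw [map_sub]
  exact h n

private theorem pl_ev_C (M : ℕ) (r : ZMod M) : ev1 M (MvPolynomial.C r) = PowerSeries.C r := by
  unfold ev1
  rw [MvPolynomial.aeval_C]
  rfl

private theorem pl_dD_red (M : ℕ) (c : ℤ⟦X⟧) : dD (red M c) = red M (dD c) := by
  ext n
  simp only [dD, red, PowerSeries.coeff_map, PowerSeries.coeff_mk, eq_intCast]
  push_cast
  ring

private theorem pl_expand_red (M p : ℕ) (hp : p ≠ 0) (c : ℤ⟦X⟧) :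
    PowerSeries.expand p hp (red M c) = red M (PowerSeries.expand p hp c) := by
  ext n
  simp only [red, PowerSeries.coeff_map, PowerSeries.coeff_expand]
  split_ifs
  · rfl
  · simp

/-- the step: division by `p ^ s` -/
private theorem pl_step (p : ℕ) [hpf : Fact p.Prime] (hp : 3 < p) (s : ℕ) :
    ∃ (N D : ℤ) (F : U (p ^ (s + 1))), ¬ (p : ℤ) ∣ N ∧ (p : ℤ) ∣ D ∧
      Iso F (p ^ s * (p - 1) + 2) ∧
      ev1 (p ^ (s + 1)) F = red (p ^ (s + 1)) (PowerSeries.C ((p : ℤ) - 1) *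
        (PowerSeries.C D * (sP - PowerSeries.expand p (Fact.out : p.Prime).ne_zero sP) - PowerSeries.C N * sP)) := by
  have hpp : p.Prime := Fact.out
  have hp1 : 1 ≤ p := hpp.one_le
  have heis := eis p hp s
  obtain ⟨w, hw⟩ : ∃ w, w = p ^ s * (p - 1) := ⟨_, rfl⟩
  rw [← hw] at heis ⊢
  obtain ⟨N, D, f, hN, hD, hf⟩ := heis
  refine ⟨N, D, ?_⟩
  have hwZ : (w : ℤ) = (p : ℤ) ^ s * ((p : ℤ) - 1) := by
    rw [hw]
    push_cast [Nat.cast_sub hp1]
    ring
  set e : ℤ⟦X⟧ := PowerSeries.mk fun n => if n = 0 then N else -2 * (w : ℤ) * D * (σ (w - 1) n : ℤ) with he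
  set M' := p ^ (s + (s + 1)) with hM'
  have hcop : ∀ a : ℕ, Nat.Coprime 6 (p ^ a) := by
    intro a
    apply Nat.Coprime.pow_right
    have h1 : Nat.Coprime p 6 := by
      rw [Nat.Prime.coprime_iff_not_dvd hpp]
      intro h2
      have h3 : p ∣ 2 * 3 := h2
      rcases (Nat.Prime.dvd_mul hpp).1 h3 with h4 | h4
      · have := Nat.le_of_dvd (by norm_num) h4; omega
      · have := Nat.le_of_dvd (by norm_num) h4; omega
    exact h1.symm
  obtain ⟨F, hF, hFe⟩ := levelOne_mod M' (hcop _) w f e hf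
  have hder := ev1_der hF
  rw [hFe] at hder
  set Pp : ℤ⟦X⟧ := PowerSeries.expand p (Fact.out : p.Prime).ne_zero sP with hPp
  have hMZ : (M' : ℤ) = (p : ℤ) ^ s * (p : ℤ) ^ (s + 1) := by
    rw [hM']
    push_cast
    rw [pow_add]
  -- claim 1
  have c1 : 2 * dD (red M' e) = red M' (PowerSeries.C (w : ℤ) * (PowerSeries.C D * (sP - Pp))) := by
    have h2 : (2 : (ZMod M')⟦X⟧) * dD (red M' e) = red M' (PowerSeries.C (2 : ℤ) * dD e) := by
      rw [pl_red_mul, ← pl_dD_red, pl_red_C]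
      congr 1
      have h9 : (((2 : ℤ) : ZMod M')) = 2 := by norm_num
      rw [h9]
      exact (map_ofNat (PowerSeries.C (R := ZMod M')) 2).symm
    rw [h2]
    apply pl_red_eq_of
    intro n
    rw [PowerSeries.coeff_C_mul, PowerSeries.coeff_C_mul, PowerSeries.coeff_C_mul, map_sub]
    rcases Nat.eq_zero_or_pos n with rfl | hn
    · have h3 : PowerSeries.coeff 0 Pp = 1 := by
        rw [hPp, PowerSeries.coeff_expand]
        simp [sP]
      have h4 : PowerSeries.coeff 0 sP = 1 := by simp [sP]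
      rw [h3, h4]
      simp [dD]
    · have h3 : PowerSeries.coeff n Pp = if p ∣ n then -24 * (σ 1 (n / p) : ℤ) else 0 := by
        rw [hPp, PowerSeries.coeff_expand]
        split_ifs with h
        · obtain ⟨m, rfl⟩ := h
          have hm : m ≠ 0 := by
            intro h0
            rw [h0, mul_zero] at hn
            exact lt_irrefl _ hn
          rw [Nat.mul_div_cancel_left m hpp.pos]
          simp [sP, hm]
        · rfl
      have h4 : PowerSeries.coeff n sP = -24 * (σ 1 n : ℤ) := by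
        simp [sP, hn.ne']
      have h5 : PowerSeries.coeff n (dD e) = 6 * (n : ℤ) * (-2 * (w : ℤ) * D * (σ (w - 1) n : ℤ)) := by
        simp only [dD, PowerSeries.coeff_mk, he]
        rw [if_neg hn.ne']
      rw [h3, h4, h5]
      obtain ⟨y, hy⟩ := pl_sigma p hpp s n hn.ne'
      rw [hMZ, hwZ]
      refine ⟨-24 * D * ((p : ℤ) - 1) * y, ?_⟩
      have h6 : (n : ℤ) * (σ (w - 1) n : ℤ) =
          (p : ℤ) ^ (s + 1) * y + ((σ 1 n : ℤ) - if p ∣ n then (σ 1 (n / p) : ℤ) else 0) := by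
        rw [← hy, hw]
        ring
      have h7 : 2 * (6 * (n : ℤ) * (-2 * ((p : ℤ) ^ s * ((p : ℤ) - 1)) * D * (σ (w - 1) n : ℤ))) =
          -24 * ((p : ℤ) ^ s * ((p : ℤ) - 1)) * D * ((n : ℤ) * (σ (w - 1) n : ℤ)) := by ring
      rw [h7, h6]
      split_ifs <;> ring
  -- claim 2
  have c2 : ((w : ℕ) : (ZMod M')⟦X⟧) * red M' sP * red M' e =
      red M' (PowerSeries.C (w : ℤ) * (PowerSeries.C N * sP)) := by
    have h2 : ((w : ℕ) : (ZMod M')⟦X⟧) = red M' (PowerSeries.C (w : ℤ)) := by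
      rw [pl_red_C]
      simp
    rw [h2, ← pl_red_mul, ← pl_red_mul, ← sub_eq_zero, ← pl_red_sub]
    set g : ℤ⟦X⟧ := PowerSeries.mk fun n => if n = 0 then 0 else (σ (w - 1) n : ℤ) with hg
    have h3 : e = PowerSeries.C N + PowerSeries.C (-2 * (w : ℤ) * D) * g := by
      ext n
      rw [map_add, PowerSeries.coeff_C_mul, PowerSeries.coeff_C, he, hg, PowerSeries.coeff_mk, PowerSeries.coeff_mk]
      split_ifs <;> simp
    have h4 : PowerSeries.C (w : ℤ) * sP * e - PowerSeries.C (w : ℤ) * (PowerSeries.C N * sP) =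
        PowerSeries.C ((w : ℤ) * (-2 * (w : ℤ) * D)) * (g * sP) := by
      rw [h3, map_mul (PowerSeries.C (R := ℤ)) (w : ℤ) (-2 * (w : ℤ) * D)]
      ring
    rw [h4]
    apply pl_red_zero_of
    intro n
    rw [PowerSeries.coeff_C_mul]
    apply Dvd.dvd.mul_right
    obtain ⟨D', rfl⟩ := hD
    rw [hMZ, hwZ]
    refine ⟨-2 * ((p : ℤ) - 1) ^ 2 * D', ?_⟩
    ring
  set X0 : ℤ⟦X⟧ := PowerSeries.C ((p : ℤ) - 1) * (PowerSeries.C D * (sP - Pp) - PowerSeries.C N * sP) with hX0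
  have c3 : ev1 M' (der1 F) = red M' (PowerSeries.C ((p : ℤ) ^ s) * X0) := by
    have h2 : PowerSeries.C ((p : ℤ) ^ s) * X0 = PowerSeries.C (w : ℤ) * (PowerSeries.C D * (sP - Pp)) -
        PowerSeries.C (w : ℤ) * (PowerSeries.C N * sP) := by
      rw [hwZ, hX0, map_mul]
      ring
    rw [h2, pl_red_sub, ← c1, ← c2, hder]
    ring
  have hd : Iso (der1 F) (w + 2) := der1_iso hF
  have hdv : p ^ s ∣ p ^ (s + (s + 1)) := pow_dvd_pow p (by omega)
  have hdv2 : p ^ (s + 1) ∣ p ^ (s + (s + 1)) := pow_dvd_pow p (by omega)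
  have c4 : plR hdv (der1 F) = 0 := by
    apply ev1_inj (p ^ s) (hcop s) _ _ (plR_iso hdv hd)
    rw [plR_ev, c3, plR_red]
    apply pl_red_zero_of
    intro n
    rw [PowerSeries.coeff_C_mul]
    push_cast
    exact dvd_mul_right _ _
  obtain ⟨F1, hF1, hF1e⟩ := pl_div ((p ^ s : ℕ) : ZMod M') (fun x => ZMod.castHom hdv (ZMod (p ^ s)) x = 0)
    (fun x hx => pl_ker hpp.ne_zero (by omega) hdv x hx) hd (by
      intro d
      have h1 := congrArg (MvPolynomial.coeff d) c4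
      rw [plR, MvPolynomial.coeff_map, MvPolynomial.coeff_zero] at h1
      exact h1)
  refine ⟨plR hdv2 F1, hN, hD, plR_iso hdv2 hF1, ?_⟩
  rw [plR_ev, ← plR_red hdv2 X0, ← sub_eq_zero, ← map_sub]
  ext n
  rw [PowerSeries.coeff_map, map_zero]
  apply pl_cancel hpp.pos hdv2
  have h1 : ev1 M' (der1 F) = PowerSeries.C ((p ^ s : ℕ) : ZMod M') * ev1 M' F1 := by
    rw [hF1e, map_mul, pl_ev_C]
  have h2 : PowerSeries.C ((p ^ s : ℕ) : ZMod M') * (ev1 M' F1 - red M' X0) = 0 := by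
    rw [mul_sub, ← h1, c3, pl_red_mul, pl_red_C]
    push_cast
    ring
  have h3 := congrArg (PowerSeries.coeff n) h2
  rw [PowerSeries.coeff_C_mul, map_zero] at h3
  exact h3

/-- the final step -/
private theorem pl_fin (p : ℕ) [hpf : Fact p.Prime] (hp : 3 < p) (s : ℕ)
    (h : ∀ D : ℤ, (p : ℤ) ∣ D → ∃ (t : ℕ) (G : U (p ^ (s + 1))), Iso G (2 + t * (p ^ s * (p - 1))) ∧
      ev1 (p ^ (s + 1)) G = red (p ^ (s + 1)) (PowerSeries.C D *
        PowerSeries.expand p (Fact.out : p.Prime).ne_zero sP)) :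
    ∃ (t : ℕ) (B : U (p ^ (s + 1))), Iso B (2 + t * (p ^ s * (p - 1))) ∧
      ev1 (p ^ (s + 1)) B = red (p ^ (s + 1)) sP := by
  have hpp : p.Prime := Fact.out
  obtain ⟨N, D, F, hN, hD, hF, hFe⟩ := pl_step p hp s
  obtain ⟨t, G, hG, hGe⟩ := h D hD
  obtain ⟨A, hA, hAe⟩ := exists_Aj p hp (s + 1) (by omega)
  rw [Nat.add_sub_cancel] at hA
  have hu : IsUnit (((((p : ℤ) - 1) * (D - N) : ℤ)) : ZMod (p ^ (s + 1))) := by
    have h1 : ¬ (p : ℤ) ∣ ((p : ℤ) - 1) * (D - N) := by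
      intro h2
      rcases (Nat.prime_iff_prime_int.1 hpp).dvd_or_dvd h2 with h3 | h3
      · have h4 : (p : ℤ) ∣ 1 := by
          have := (dvd_refl (p : ℤ)).sub h3
          simpa using this
        have h5 := Int.le_of_dvd one_pos h4
        have h6 : (3 : ℤ) < p := by exact_mod_cast hp
        omega
      · apply hN
        have := hD.sub h3
        simpa using this
    have h2 : IsCoprime (((p : ℤ) - 1) * (D - N)) ((p : ℤ) ^ (s + 1)) := by
      apply IsCoprime.pow_right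
      have := ((Nat.prime_iff_prime_int.1 hpp).coprime_iff_not_dvd).2 h1
      exact this.symm
    obtain ⟨a, b, hab⟩ := h2
    have h3 := congrArg (fun x : ℤ => (x : ZMod (p ^ (s + 1)))) hab
    simp only [Int.cast_add, Int.cast_mul a, Int.cast_mul b, Int.cast_one] at h3
    have h4 : (((p : ℤ) ^ (s + 1) : ℤ) : ZMod (p ^ (s + 1))) = 0 := by
      have := ZMod.natCast_self (p ^ (s + 1))
      push_cast at this ⊢
      exact this
    rw [h4, mul_zero, add_zero] at h3
    exact IsUnit.of_mul_eq_one _ (by rw [mul_comm]; exact h3)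
  obtain ⟨u, hu⟩ := hu
  have hAp : ∀ r : ℕ, Iso (A ^ r) (r * (p ^ s * (p - 1))) := by
    intro r
    have := MvPolynomial.IsWeightedHomogeneous.pow hA r
    simpa [Iso] using this
  refine ⟨t + 1, MvPolynomial.C (↑u⁻¹ : ZMod (p ^ (s + 1))) * (F * A ^ t +
    MvPolynomial.C ((((p : ℤ) - 1 : ℤ)) : ZMod (p ^ (s + 1))) * (G * A)), ?_, ?_⟩
  · have h1 : Iso (F * A ^ t) (2 + (t + 1) * (p ^ s * (p - 1))) := by
      have := MvPolynomial.IsWeightedHomogeneous.mul hF (hAp t)
      have h2 : p ^ s * (p - 1) + 2 + t * (p ^ s * (p - 1)) = 2 + (t + 1) * (p ^ s * (p - 1)) := by ring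
      rw [h2] at this
      exact this
    have h2 : Iso (G * A) (2 + (t + 1) * (p ^ s * (p - 1))) := by
      have := MvPolynomial.IsWeightedHomogeneous.mul hG hA
      have h2 : 2 + t * (p ^ s * (p - 1)) + p ^ s * (p - 1) = 2 + (t + 1) * (p ^ s * (p - 1)) := by ring
      rw [h2] at this
      exact this
    have hC : ∀ (r : ZMod (p ^ (s + 1))) (G' : U (p ^ (s + 1))) (k : ℕ), Iso G' k → Iso (MvPolynomial.C r * G') k := by
      intro r G' k hG'
      have h3 := MvPolynomial.IsWeightedHomogeneous.mul (MvPolynomial.isWeightedHomogeneous_C ![4, 6] r) hG'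
      rw [zero_add] at h3
      exact h3
    apply hC
    apply MvPolynomial.IsWeightedHomogeneous.add h1
    exact hC _ _ _ h2
  · rw [map_mul, map_add, map_mul, map_mul, map_mul, map_pow, pl_ev_C, pl_ev_C, hAe, hGe, hFe, one_pow, mul_one,
      mul_one, ← pl_red_C, ← pl_red_mul]
    have h1 : red (p ^ (s + 1)) (PowerSeries.C ((p : ℤ) - 1) *
        (PowerSeries.C D * (sP - PowerSeries.expand p (Fact.out : p.Prime).ne_zero sP) - PowerSeries.C N * sP)) +
        red (p ^ (s + 1)) (PowerSeries.C ((p : ℤ) - 1) * (PowerSeries.C D *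
          PowerSeries.expand p (Fact.out : p.Prime).ne_zero sP)) =
        red (p ^ (s + 1)) (PowerSeries.C (((p : ℤ) - 1) * (D - N)) * sP) := by
      unfold red
      rw [← map_add]
      congr 1
      rw [map_mul, map_sub (PowerSeries.C (R := ℤ)) D N]
      ring
    rw [h1, pl_red_mul, pl_red_C, ← hu, ← mul_assoc, ← map_mul]
    simp

private theorem pl_all (p : ℕ) [hpf : Fact p.Prime] (hp : 3 < p) (s : ℕ) :
    ∃ (t : ℕ) (B : U (p ^ (s + 1))), Iso B (2 + t * (p ^ s * (p - 1))) ∧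
      ev1 (p ^ (s + 1)) B = red (p ^ (s + 1)) sP := by
  have hpp : p.Prime := Fact.out
  induction s with
  | zero =>
    apply pl_fin p hp 0
    intro D hD
    refine ⟨0, 0, MvPolynomial.isWeightedHomogeneous_zero _ _ _, ?_⟩
    rw [map_zero]
    symm
    apply pl_red_zero_of
    intro n
    rw [PowerSeries.coeff_C_mul]
    apply Dvd.dvd.mul_right
    simpa using hD
  | succ s ih =>
    obtain ⟨t, B, hB, hBe⟩ := ih
    obtain ⟨t', A', hA', hA'e⟩ := V_poly p hp (s + 1) (by omega) _ B hB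
    rw [Nat.add_sub_cancel] at hA'
    rw [hBe, pl_expand_red] at hA'e
    obtain ⟨A, hA, hAe⟩ := exists_Aj p hp (s + 1) (by omega)
    rw [Nat.add_sub_cancel] at hA
    set T := t + t' with hT
    have hw : Iso (A' * A ^ ((p - 1) * T)) (2 + T * (p ^ (s + 1) * (p - 1))) := by
      have h1 := MvPolynomial.IsWeightedHomogeneous.pow hA ((p - 1) * T)
      have h2 := MvPolynomial.IsWeightedHomogeneous.mul hA' h1
      have h3 : 2 + t * (p ^ s * (p - 1)) + t' * (p ^ s * (p - 1)) + ((p - 1) * T) • (p ^ s * (p - 1)) =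
          2 + T * (p ^ (s + 1) * (p - 1)) := by
        obtain ⟨q, rfl⟩ : ∃ q, p = q + 1 := ⟨p - 1, by omega⟩
        rw [smul_eq_mul, hT, Nat.add_sub_cancel, pow_succ]
        ring
      rw [h3] at h2
      exact h2
    have hwe : ev1 (p ^ (s + 1)) (A' * A ^ ((p - 1) * T)) =
        red (p ^ (s + 1)) (PowerSeries.expand p (Fact.out : p.Prime).ne_zero sP) := by
      rw [map_mul, map_pow, hAe, one_pow, mul_one, hA'e]
    have hdv : p ^ (s + 1) ∣ p ^ (s + 1 + 1) := pow_dvd_pow p (by omega)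
    obtain ⟨G, hG, hGe⟩ := plR_lift hdv hw
    apply pl_fin p hp (s + 1)
    intro D hD
    refine ⟨T, MvPolynomial.C ((D : ℤ) : ZMod (p ^ (s + 1 + 1))) * G, ?_, ?_⟩
    · have h3 := MvPolynomial.IsWeightedHomogeneous.mul
        (MvPolynomial.isWeightedHomogeneous_C ![4, 6] ((D : ℤ) : ZMod (p ^ (s + 1 + 1)))) hG
      rw [zero_add] at h3
      exact h3
    · rw [map_mul, pl_ev_C, pl_red_mul, pl_red_C, ← sub_eq_zero, ← mul_sub]
      ext n
      rw [PowerSeries.coeff_C_mul, map_zero]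
      have h1 : ZMod.castHom hdv (ZMod (p ^ (s + 1))) (PowerSeries.coeff n (ev1 (p ^ (s + 1 + 1)) G -
          red (p ^ (s + 1 + 1)) (PowerSeries.expand p (Fact.out : p.Prime).ne_zero sP))) = 0 := by
        rw [← PowerSeries.coeff_map, map_sub, ← plR_ev, plR_red, hGe, hwe, sub_self, map_zero]
      obtain ⟨y, hy⟩ := pl_ker hpp.ne_zero (by omega) hdv _ h1
      rw [hy, ← mul_assoc]
      obtain ⟨D', rfl⟩ := hD
      have h2 : (((p : ℤ) * D' : ℤ) : ZMod (p ^ (s + 1 + 1))) * ((p ^ (s + 1) : ℕ) : ZMod (p ^ (s + 1 + 1))) = 0 := by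
        have h3 := ZMod.natCast_self (p ^ (s + 1 + 1))
        have h4 : (((p : ℤ) * D' : ℤ) : ZMod (p ^ (s + 1 + 1))) * ((p ^ (s + 1) : ℕ) : ZMod (p ^ (s + 1 + 1))) =
            ((p ^ (s + 1 + 1) : ℕ) : ZMod (p ^ (s + 1 + 1))) * ((D' : ℤ) : ZMod (p ^ (s + 1 + 1))) := by
          push_cast
          ring
        rw [h4, h3, zero_mul]
      rw [h2, zero_mul]


theorem P_lemma (p : ℕ) [Fact p.Prime] (hp : 3 < p) (j : ℕ) (hj : 1 ≤ j) :
    ∃ (t : ℕ) (B : U (p ^ j)), Iso B (2 + t * (p ^ (j - 1) * (p - 1))) ∧ ev1 (p ^ j) B = red (p ^ j) sP := by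
  obtain ⟨s, rfl⟩ : ∃ s, j = s + 1 := ⟨j - 1, by omega⟩
  rw [Nat.add_sub_cancel]
  exact pl_all p hp s

end Pool.Agent.B5X
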