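import Pool.Agent.B5X.Defs
import Pool.Agent.B5X.PL
import Pool.Agent.B5X.EY

/-!
B5X / HY: A = toU A_k, B = toU B_k from `exists_Aj`, `P_lemma`. modA, modB: modulo vX, vW^2 = 125 vY^2, vQ = 3125 vY^2 = 25 vW^2 = (-5 vW)^2,
vR = vW (-15625 vY^2) = -125 vW^3 = (-5 vW)^3, so Q^i R^l with 4 i + 6 l = k is (-5 vW)^(k/2) and toU A = (sum of coefficients) (-5 vW)^(k/2); the sum of the coefficients is the
constant coefficient of ev1 A = 1 (resp. P), i.e. 1. (2 + N w)/2 = 1 + N (w/2) as w is even.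
-/

set_option autoImplicit false

namespace Pool.Agent.B5X

open PowerSeries UpperHalfPlane Pool.Agent.B5
open scoped MatrixGroups ModularForm Manifold ArithmeticFunction.sigma

private theorem hy_aeval_sum {M : ℕ} {S : Type*} [CommRing S] [Algebra (ZMod M) S] (x : Fin 2 → S)
    (A : MvPolynomial (Fin 2) (ZMod M)) :
    MvPolynomial.aeval x A = ∑ d ∈ A.support, algebraMap (ZMod M) S (A.coeff d) *
      (x 0 ^ d 0 * x 1 ^ d 1) := by
  rw [MvPolynomial.aeval_def, MvPolynomial.eval₂_eq']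
  apply Finset.sum_congr rfl
  intro d hd
  rw [Fin.prod_univ_two]

private theorem hy_weight_eq {M : ℕ} {k : ℕ} {A : U M}
    (hA : Iso A k) (d : Fin 2 →₀ ℕ) (hd : d ∈ A.support) :
    4 * d 0 + 6 * d 1 = k := by
  have h1 := hA (MvPolynomial.mem_support_iff.mp hd)
  rw [Finsupp.weight_apply, Finsupp.sum_fintype _ _ (by simp)] at h1
  simp [Fin.sum_univ_two] at h1
  omega

private theorem hy_sum {M : ℕ} (A : U M) :
    PowerSeries.constantCoeff (ev1 M A) = MvPolynomial.aeval (![1, 1] : Fin 2 → ZMod M) A := by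
  have hQ : PowerSeries.constantCoeff (red M sQ) = 1 := by
    rw [← PowerSeries.coeff_zero_eq_constantCoeff_apply, red, PowerSeries.coeff_map, sQ,
      PowerSeries.coeff_mk]
    simp
  have hR : PowerSeries.constantCoeff (red M sR) = 1 := by
    rw [← PowerSeries.coeff_zero_eq_constantCoeff_apply, red, PowerSeries.coeff_map, sR,
      PowerSeries.coeff_mk]
    simp
  rw [ev1, hy_aeval_sum, hy_aeval_sum, map_sum]
  apply Finset.sum_congr rfl
  intro d hd
  simp only [Matrix.cons_val_zero, Matrix.cons_val_one, map_mul, map_pow, hQ, hR, one_pow, mul_one]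
  simp [PowerSeries.algebraMap_apply]

private theorem hy_mod {M : ℕ} {k : ℕ} {A : U M} (hA : Iso A k)
    (h1 : PowerSeries.constantCoeff (ev1 M A) = 1) : vX ∣ toU A - (-5 * vW) ^ (k / 2) := by
  have h2 : (vW : U M) ^ 2 = vX ^ 2 + 22 * vX * vY + 125 * vY ^ 2 := by
    unfold vW vX vY
    ring
  have hQ : (vQ : U M) - (-5 * vW) ^ 2 = vX * (-24 * vX - 300 * vY) := by
    unfold vQ
    linear_combination (-25 : U M) * h2
  have hR : (vR : U M) - (-5 * vW) ^ 3 = vX * (vW * (126 * vX + 2250 * vY)) := by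
    unfold vR
    linear_combination (125 * vW : U M) * h2
  rw [← Ideal.mem_span_singleton, ← Ideal.Quotient.eq]
  set φ := Ideal.Quotient.mkₐ (ZMod M) (Ideal.span {(vX : U M)}) with hφ
  have hφQ : φ vQ = φ (-5 * vW) ^ 2 := by
    rw [← map_pow]
    exact Ideal.Quotient.eq.mpr (Ideal.mem_span_singleton.mpr ⟨_, hQ⟩)
  have hφR : φ vR = φ (-5 * vW) ^ 3 := by
    rw [← map_pow]
    exact Ideal.Quotient.eq.mpr (Ideal.mem_span_singleton.mpr ⟨_, hR⟩)
  change φ (toU A) = φ ((-5 * vW) ^ (k / 2))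
  rw [map_pow]
  set z := φ (-5 * vW) with hz
  have h3 : φ (toU A) = MvPolynomial.aeval ![z ^ 2, z ^ 3] A := by
    rw [toU, MvPolynomial.comp_aeval_apply]
    congr 2
    funext i
    fin_cases i
    · exact hφQ
    · exact hφR
  have h4 : MvPolynomial.aeval ![z ^ 2, z ^ 3] A = z ^ (k / 2) *
      algebraMap (ZMod M) _ (MvPolynomial.aeval (![1, 1] : Fin 2 → ZMod M) A) := by
    rw [hy_aeval_sum, hy_aeval_sum, map_sum, Finset.mul_sum]
    apply Finset.sum_congr rfl
    intro d hd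
    have h1 := hy_weight_eq hA d hd
    have h2 : k / 2 = 2 * d 0 + 3 * d 1 := by omega
    simp only [Matrix.cons_val_zero, Matrix.cons_val_one, one_pow, mul_one, map_mul, map_one]
    rw [h2]
    simp only [Algebra.algebraMap_self, RingHom.id_apply]
    ring
  rw [h3, h4, ← hy_sum, h1, map_one, mul_one]

theorem exists_HX (p : ℕ) [Fact p.Prime] (hp : 5 < p) (k : ℕ) (hk : 1 ≤ k) (e : EVm (p ^ k)) :
    ∃ (N : ℕ) (A B : U (p ^ k)), HX (p ^ (k - 1) * (p - 1)) N e A B := by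
  obtain ⟨A, hA, hA1⟩ := exists_Aj p (by omega) k hk
  obtain ⟨N, B, hB, hB1⟩ := P_lemma p (by omega) k hk
  have hpr : p.Prime := Fact.out
  obtain ⟨c, hc⟩ : ∃ c, p ^ (k - 1) * (p - 1) = 2 * c := by
    obtain ⟨c, hc⟩ := (hpr.even_sub_one (by omega))
    exact ⟨p ^ (k - 1) * c, by rw [hc]; ring⟩
  refine ⟨N, toU A, toU B, ⟨toU_hom hA, ?_, ?_, sg_toU A, toU_hom hB, ?_, ?_, sg_toU B⟩⟩
  · rw [e.toU_eq, hA1]
  · exact hy_mod hA (by rw [hA1, map_one])
  · rw [e.toU_eq, hB1]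
  · have h1 := hy_mod hB (by
      rw [hB1, ← PowerSeries.coeff_zero_eq_constantCoeff_apply, red, PowerSeries.coeff_map, sP,
        PowerSeries.coeff_mk]
      simp)
    rw [hc] at h1 ⊢
    have h2 : (2 + N * (2 * c)) / 2 = 1 + N * (2 * c / 2) := by
      rw [show 2 + N * (2 * c) = 2 * (1 + N * c) by ring]
      rw [Nat.mul_div_cancel_left _ (by norm_num : 0 < 2), Nat.mul_div_cancel_left _ (by norm_num : 0 < 2)]
    rw [h2] at h1
    exact h1

end Pool.Agent.B5X
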