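import Pool.Agent.B5X.Defs
import Pool.Agent.B5X.EY
import Pool.Agent.B5.IA2

/-!
B5X / KJ: as Pool.Agent.B5.J1. `KK_ev`: f_j = red sB * ev (KK j): 2 (dD + 1) f_j = f_(j+1) by id_DB and EVm.der with degree j (2 + N w), ev A = 1, ev B = P.
`KK_modX`: modulo vX (stable under der2): der2 vW = 1250 vY^2 = 10 vW^2, A = (-5 vW)^(w/2) gives der2 A = 5 w vW A (w even), B = -5 vW A^N, der2 ((2 vW A^N)^j) =
5 j (2 + N w) vW (2 vW A^N)^j, so KK j = (2 vW A^N)^j by induction. `KK_sym`: sg_der2, sg_vW.
-/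

set_option autoImplicit false

namespace Pool.Agent.B5X

open PowerSeries UpperHalfPlane Pool.Agent.B5
open scoped MatrixGroups ModularForm Manifold ArithmeticFunction.sigma

variable {M : ℕ}

theorem KK_hom {w N : ℕ} {e : EVm M} {A B : U M} (h : HX w N e A B) (j : ℕ) :
    (KK w N A B j).IsHomogeneous (j * (2 + N * w)) := by
  induction j with
  | zero =>
    rw [Nat.zero_mul]
    exact MvPolynomial.isHomogeneous_one _ _
  | succ j ih =>
    change (A ^ N * (der2 (KK w N A B j) + 2 * vW * KK w N A B j) +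
      ((j * (2 + N * w) : ℕ) : U M) * B * KK w N A B j).IsHomogeneous _
    have h2 : ((2 : U M)).IsHomogeneous 0 := by
      have : (2 : U M) = MvPolynomial.C 2 := (map_ofNat MvPolynomial.C 2).symm
      rw [this]
      exact MvPolynomial.isHomogeneous_C _ _
    have hj : (((j * (2 + N * w) : ℕ) : U M)).IsHomogeneous 0 := by
      have : ((j * (2 + N * w) : ℕ) : U M) =
          MvPolynomial.C ((j * (2 + N * w) : ℕ) : ZMod M) := by
        rw [map_natCast]
      rw [this]
      exact MvPolynomial.isHomogeneous_C _ _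
    have e1 : (A ^ N * (der2 (KK w N A B j) + 2 * vW * KK w N A B j)).IsHomogeneous
        ((j + 1) * (2 + N * w)) := by
      have h3 : (der2 (KK w N A B j) + 2 * vW * KK w N A B j).IsHomogeneous
          (j * (2 + N * w) + 2) := by
        refine (der2_hom' ih).add ?_
        have h4 := (h2.mul (vW_hom' (M := M))).mul ih
        convert h4 using 1
        ring
      have h5 := (h.homA.pow N).mul h3
      convert h5 using 1
      ring
    have e2 : (((j * (2 + N * w) : ℕ) : U M) * B * KK w N A B j).IsHomogeneous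
        ((j + 1) * (2 + N * w)) := by
      have h5 := (hj.mul h.homB).mul ih
      convert h5 using 1
      ring
    exact e1.add e2

theorem KK_sym {w N : ℕ} {e : EVm M} {A B : U M} (h : HX w N e A B) (j : ℕ) :
    sg (KK w N A B j) = KK w N A B j := by
  induction j with
  | zero => exact map_one _
  | succ j ih =>
    change sg (A ^ N * (der2 (KK w N A B j) + 2 * vW * KK w N A B j) +
      ((j * (2 + N * w) : ℕ) : U M) * B * KK w N A B j) = _
    rw [map_add, map_mul, map_mul, map_mul, map_add, map_mul, map_mul, map_pow, map_natCast,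
      map_ofNat, sg_der2, sg_vW, h.symA, h.symB, ih]
    rfl

private theorem kj_dD_mul {R : Type*} [CommRing R] (f g : R⟦X⟧) :
    dD (f * g) = dD f * g + f * dD g := by
  ext n
  simp only [dD, PowerSeries.coeff_mk, map_add, PowerSeries.coeff_mul]
  rw [Finset.mul_sum, ← Finset.sum_add_distrib]
  refine Finset.sum_congr rfl fun kl hkl => ?_
  rw [← Finset.HasAntidiagonal.mem_antidiagonal.1 hkl]
  push_cast
  ring

private theorem kj_dD_red (c : ℤ⟦X⟧) : dD (red M c) = red M (dD c) := by
  ext n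
  simp only [dD, red, PowerSeries.coeff_mk, PowerSeries.coeff_map]
  simp

private theorem kj_step (hM : Nat.Coprime 2 M) {w N : ℕ} {e : EVm M} {A B : U M}
    (h : HX w N e A B) (j : ℕ) :
    red M sB * e.ev (KK w N A B (j + 1)) =
      2 * (dD (red M sB * e.ev (KK w N A B j)) + red M sB * e.ev (KK w N A B j)) := by
  have h1 := e.der hM (KK_hom h j)
  have h2 : dD (red M sB) + red M sB = red M sB * red M sE := by
    have h := congrArg (red M) id_DB
    simp only [red, map_add, map_mul] at h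
    rw [kj_dD_red]
    exact h
  have h4 : e.ev (KK w N A B (j + 1)) = e.ev (der2 (KK w N A B j)) +
      2 * red M sE * e.ev (KK w N A B j) +
      ((j * (2 + N * w) : ℕ) : (ZMod M)⟦X⟧) * red M sP * e.ev (KK w N A B j) := by
    change e.ev (A ^ N * (der2 (KK w N A B j) + 2 * vW * KK w N A B j) +
      ((j * (2 + N * w) : ℕ) : U M) * B * KK w N A B j) = _
    rw [map_add, map_mul, map_mul, map_mul, map_add, map_mul, map_mul, map_pow, map_natCast,
      map_ofNat, h.evA, h.evB, e.hW, one_pow]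
    ring
  rw [h4, kj_dD_mul]
  linear_combination (-(red M sB)) * h1 - 2 * e.ev (KK w N A B j) * h2

theorem KK_ev (hM : Nat.Coprime 2 M) {w N : ℕ} {e : EVm M} {A B : U M} (h : HX w N e A B) (j n : ℕ) :
    PowerSeries.coeff n (red M sB * e.ev (KK w N A B j)) =
      (2 * (6 * (n : ZMod M) + 1)) ^ j * (b5 n : ZMod M) := by
  induction j with
  | zero =>
    have : KK w N A B 0 = 1 := rfl
    rw [this, map_one, mul_one, pow_zero, one_mul]
    simp [red, sB]
  | succ j ih =>
    rw [kj_step hM h j]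
    have h2 : (2 : (ZMod M)⟦X⟧) = PowerSeries.C 2 := (map_ofNat PowerSeries.C 2).symm
    rw [h2, PowerSeries.coeff_C_mul, map_add, ih, dD, PowerSeries.coeff_mk, ih, pow_succ]
    ring

private theorem kj_pow_mod {x y z : U M} (h : x ∣ y - z) (n : ℕ) : x ∣ y ^ n - z ^ n :=
  h.trans (sub_dvd_pow_sub_pow y z n)

/-- derivative of a power whose base has derivative a multiple of itself modulo `vX` -/
private theorem kj_der_pow {y c : U M} (h : vX ∣ der2 y - c * y) (n : ℕ) :
    vX ∣ der2 (y ^ n) - (n : U M) * c * y ^ n := by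
  induction n with
  | zero =>
    rw [pow_zero, Derivation.map_one_eq_zero, Nat.cast_zero]
    simp
  | succ n ih =>
    obtain ⟨u, hu⟩ := h
    obtain ⟨v, hv⟩ := ih
    rw [pow_succ, Derivation.leibniz, smul_eq_mul, smul_eq_mul]
    refine ⟨y ^ n * u + y * v, ?_⟩
    push_cast
    linear_combination (y ^ n) * hu + y * hv

private theorem kj_der_congr {y z : U M} (h : vX ∣ y - z) : vX ∣ der2 y - der2 z := by
  obtain ⟨u, hu⟩ := h
  have hy : y = z + vX * u := by linear_combination hu
  rw [hy, map_add, Derivation.leibniz, smul_eq_mul, smul_eq_mul, der2_vX']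
  exact ⟨der2 u - 2 * vW * u, by ring⟩

private theorem kj_der_W : (vX : U M) ∣ der2 vW - 10 * vW * vW := by
  have hW := vW_sq' (M := M)
  rw [der2_vW']
  exact ⟨-12 * vX - 132 * vY, by linear_combination (-10) * hW⟩

private theorem kj_der_A {w N : ℕ} (hw : Even w) {e : EVm M} {A B : U M} (h : HX w N e A B) :
    vX ∣ der2 A - (5 * (w : U M) * vW) * A := by
  obtain ⟨r, hr⟩ := hw
  have hr2 : w / 2 = r := by omega
  have hA := h.modA
  rw [hr2] at hA
  have h5 : (vX : U M) ∣ der2 (-5 * vW) - (10 * vW) * (-5 * vW) := by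
    have h6 : der2 (-5 * vW : U M) = -5 * der2 vW := by
      have : (-5 * vW : U M) = (-5 : ZMod M) • vW := by
        rw [MvPolynomial.smul_eq_C_mul]
        congr 1
        rw [map_neg, map_ofNat]
      rw [this, Derivation.map_smul, MvPolynomial.smul_eq_C_mul]
      congr 1
      rw [map_neg, map_ofNat]
    rw [h6]
    obtain ⟨u, hu⟩ := kj_der_W (M := M)
    exact ⟨-5 * u, by linear_combination (-5) * hu⟩
  obtain ⟨a, ha⟩ := kj_der_congr hA
  obtain ⟨b, hb⟩ := kj_der_pow h5 r
  obtain ⟨c, hc⟩ := hA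
  have hwr : (w : U M) = 2 * (r : U M) := by
    rw [hr]
    push_cast
    ring
  refine ⟨a + b - 10 * (r : U M) * vW * c, ?_⟩
  rw [hwr]
  linear_combination ha + hb - (10 * (r : U M) * vW) * hc

private theorem kj_B {w N : ℕ} {e : EVm M} {A B : U M} (h : HX w N e A B) :
    vX ∣ B - -5 * vW * A ^ N := by
  obtain ⟨a, ha⟩ := kj_pow_mod h.modA N
  obtain ⟨b, hb⟩ := h.modB
  rw [← pow_mul, mul_comm (w / 2) N] at ha
  rw [pow_add, pow_one] at hb
  exact ⟨b + 5 * vW * a, by linear_combination hb + (5 * vW) * ha⟩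

private theorem kj_der_M {w N : ℕ} (hw : Even w) {e : EVm M} {A B : U M} (h : HX w N e A B) :
    vX ∣ der2 (2 * vW * A ^ N) - (5 * ((2 + N * w : ℕ) : U M) * vW) * (2 * vW * A ^ N) := by
  obtain ⟨a, ha⟩ := kj_der_pow (kj_der_A hw h) N
  obtain ⟨b, hb⟩ := kj_der_W (M := M)
  have h2 : der2 (2 * vW * A ^ N : U M) = 2 * (der2 vW * A ^ N + vW * der2 (A ^ N)) := by
    have h3 : (2 * vW * A ^ N : U M) = vW * A ^ N + vW * A ^ N := by ring
    rw [h3, map_add, Derivation.leibniz]
    simp only [smul_eq_mul]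
    ring
  rw [h2]
  refine ⟨2 * A ^ N * b + 2 * vW * a, ?_⟩
  push_cast
  linear_combination (2 * A ^ N) * hb + (2 * vW) * ha

theorem KK_modX {w N : ℕ} (hw : Even w) {e : EVm M} {A B : U M} (h : HX w N e A B) (j : ℕ) :
    vX ∣ KK w N A B j - (2 * vW * A ^ N) ^ j := by
  induction j with
  | zero =>
    have : KK w N A B 0 = 1 := rfl
    rw [this, pow_zero, sub_self]
    exact dvd_zero _
  | succ j ih =>
    obtain ⟨v, hv⟩ := ih
    obtain ⟨u, hu⟩ := kj_der_congr ⟨v, hv⟩
    obtain ⟨a, ha⟩ := kj_der_pow (kj_der_M hw h) j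
    obtain ⟨b, hb⟩ := kj_B h
    change vX ∣ A ^ N * (der2 (KK w N A B j) + 2 * vW * KK w N A B j) +
      ((j * (2 + N * w) : ℕ) : U M) * B * KK w N A B j - _
    refine ⟨A ^ N * (u + a) + 2 * vW * A ^ N * v + (j : U M) * ((2 + N * w : ℕ) : U M) * b * KK w N A B j
      - 5 * (j : U M) * ((2 + N * w : ℕ) : U M) * vW * A ^ N * v, ?_⟩
    rw [pow_succ]
    push_cast at ha ⊢
    linear_combination (A ^ N) * hu + (A ^ N) * ha +
      (2 * vW * A ^ N - 5 * (j : U M) * (2 + (N : U M) * (w : U M)) * vW * A ^ N) * hv +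
      ((j : U M) * (2 + (N : U M) * (w : U M)) * KK w N A B j) * hb

end Pool.Agent.B5X
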