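import Pool.Agent.B5X.Defs
import Pool.Agent.B5X.KJ
import Pool.Agent.B5X.HY
import Pool.Agent.B5X.EX

/-!
B5X / SX: the sieve lemma mod p^k, p > 5 (as Pool.Agent.B5.SV). w = p^(k-1)(p-1), K = w (2 + N w), s = -(2/p)(-5/p). G := KK w + s A^((2+Nw)/2) KK (w/2), homogeneous of degree K. Mod vX:
(2 vW A^N)^(w/2) ((2 vW A^N)^(w/2) + s A^(1 + N w/2)) = (2 vW A^N)^(w/2) A^(N w/2) ((2 vW)^(w/2) + s (-5 vW)^(w/2)) = 0, because c^(w/2) = (c/p) in ZMod (p^k) for c prime to p
(it is congruent to (c/p) mod p, and both are square roots of 1; or c^((p-1)/2) = (c/p) + p y and the p^(k-1)-th power). So G = vX G1, G1 homogeneous of degree K - 2, sg G1 = -G1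
(sg G = G, sg vX = -vX, vX is a non-zero-divisor: it is monic in X0). red sB * ev G = red sB * red sa * ev G1 = red phi^4 * ev G1. Coefficients: (2x)^w + s (2x)^(w/2) = psi x in
ZMod (p^k) (0 if p | x, since w/2 >= k for p >= 7). G1 of even degree K - 2 is a polynomial G2 in vX, vY, vW, homogeneous of degree (K-2)/2 (X0^2 = (W + X + 11 Y)/2, X0 X1 = Y,
X1^2 = (W - X - 11 Y)/2), replace G2(x,y,w) by (G2(x,y,w) - G2(-x,-y,w))/2, which has the same value as sg G1 = -G1: all its monomials have odd degree in (x,y).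
-/

set_option autoImplicit false

namespace Pool.Agent.B5X

open PowerSeries UpperHalfPlane Pool.Agent.B5
open scoped MatrixGroups ModularForm Manifold ArithmeticFunction.sigma

private theorem sx_quot {τ R : Type*} [CommRing R] {F G : MvPolynomial τ R} {a b : ℕ}
    (hF : F.IsHomogeneous a) (hFG : (F * G).IsHomogeneous (a + b)) :
    F * MvPolynomial.homogeneousComponent b G = F * G := by
  have h1 : F * G = ∑ i ∈ Finset.range (G.totalDegree + 1),
      F * MvPolynomial.homogeneousComponent i G := by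
    rw [← Finset.mul_sum, MvPolynomial.sum_homogeneousComponent]
  have h2 : MvPolynomial.homogeneousComponent (a + b) (F * G) =
      ∑ i ∈ Finset.range (G.totalDegree + 1),
        if i = b then F * MvPolynomial.homogeneousComponent i G else 0 := by
    rw [h1, map_sum]
    refine Finset.sum_congr rfl fun i _ => ?_
    have h3 : (F * MvPolynomial.homogeneousComponent i G) ∈
        MvPolynomial.homogeneousSubmodule τ R (a + i) :=
      hF.mul (MvPolynomial.homogeneousComponent_isHomogeneous i G)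
    rw [MvPolynomial.homogeneousComponent_of_mem h3]
    by_cases h : i = b
    · rw [if_pos h, if_pos (by rw [h])]
    · rw [if_neg h, if_neg (by omega)]
  rw [MvPolynomial.homogeneousComponent_eq_self hFG] at h2
  rw [h2, Finset.sum_ite_eq']
  by_cases h : b ∈ Finset.range (G.totalDegree + 1)
  · rw [if_pos h]
  · rw [if_neg h, MvPolynomial.homogeneousComponent_eq_zero, mul_zero]
    rw [Finset.mem_range] at h
    omega

/-- the criterion of Euler modulo a prime power -/
private theorem sx_euler (p : ℕ) [Fact p.Prime] (hp : p ≠ 2) (k : ℕ) (hk : 1 ≤ k) (c : ℤ) :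
    ((c : ℤ) : ZMod (p ^ k)) ^ (p ^ (k - 1) * (p / 2)) =
      ((legendreSym p c : ℤ) : ZMod (p ^ k)) := by
  obtain ⟨j, rfl⟩ : ∃ j, k = j + 1 := ⟨k - 1, by omega⟩
  rw [Nat.add_sub_cancel]
  have h1 : ((p : ℕ) : ℤ) ∣ c ^ (p / 2) - legendreSym p c := by
    rw [← ZMod.intCast_zmod_eq_zero_iff_dvd]
    push_cast
    rw [sub_eq_zero, legendreSym.eq_pow]
  have h2 := dvd_sub_pow_of_dvd_sub h1 j
  have hodd : Odd (p ^ j) := ((Fact.out : p.Prime).odd_of_ne_two hp).pow
  have h3 : legendreSym p c ^ (p ^ j) = legendreSym p c := by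
    by_cases h0 : (c : ZMod p) = 0
    · rw [(legendreSym.eq_zero_iff p c).2 h0, zero_pow]
      exact hodd.pos.ne'
    · rcases legendreSym.eq_one_or_neg_one p h0 with h | h
      · rw [h, one_pow]
      · rw [h, hodd.neg_one_pow]
  rw [h3] at h2
  have h4 : ((p ^ (j + 1) : ℕ) : ℤ) ∣ (c ^ (p / 2)) ^ (p ^ j) - legendreSym p c := by
    push_cast
    exact h2
  rw [← ZMod.intCast_zmod_eq_zero_iff_dvd] at h4
  push_cast at h4 ⊢
  rw [sub_eq_zero] at h4
  rw [← h4, ← pow_mul, mul_comm]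

section SXPoly

variable {M : ℕ}

private theorem sx_mono (hf : ZMod M) (hhalf : (MvPolynomial.C hf : U M) * 2 = 1) (d : ℕ) :
    ∀ i j : ℕ, i + j = 2 * d →
    ∃ H : MvPolynomial (Fin 3) (ZMod M), H.IsHomogeneous d ∧
      MvPolynomial.aeval ![(vX : U M), vY, vW] H =
        MvPolynomial.X 0 ^ i * MvPolynomial.X 1 ^ j := by
  induction d with
  | zero =>
    intro i j hij
    obtain rfl : i = 0 := by omega
    obtain rfl : j = 0 := by omega
    exact ⟨1, MvPolynomial.isHomogeneous_one _ _, by simp⟩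
  | succ d ih =>
    intro i j hij
    by_cases hi : 2 ≤ i
    · obtain ⟨i', rfl⟩ : ∃ i', i = i' + 2 := ⟨i - 2, by omega⟩
      obtain ⟨H, hH, hH2⟩ := ih i' j (by omega)
      refine ⟨H * (MvPolynomial.C hf * (MvPolynomial.X 2 + MvPolynomial.X 0 +
        MvPolynomial.C 11 * MvPolynomial.X 1)), ?_, ?_⟩
      · refine hH.mul ?_
        refine MvPolynomial.IsHomogeneous.C_mul ?_ _
        exact ((MvPolynomial.isHomogeneous_X _ _).add (MvPolynomial.isHomogeneous_X _ _)).add
          ((MvPolynomial.isHomogeneous_X _ _).C_mul _)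
      · rw [map_mul, hH2]
        simp only [map_mul, map_add, MvPolynomial.aeval_X, MvPolynomial.aeval_C,
          MvPolynomial.algebraMap_eq, Matrix.cons_val_zero, Matrix.cons_val_one,
          Matrix.cons_val, map_ofNat]
        rw [vX, vY, vW]
        linear_combination (MvPolynomial.X 0 ^ (i' + 2) * MvPolynomial.X 1 ^ j : U M) * hhalf
    · by_cases hj : 2 ≤ j
      · obtain ⟨j', rfl⟩ : ∃ j', j = j' + 2 := ⟨j - 2, by omega⟩
        obtain ⟨H, hH, hH2⟩ := ih i j' (by omega)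
        refine ⟨H * (MvPolynomial.C hf * (MvPolynomial.X 2 - MvPolynomial.X 0 -
          MvPolynomial.C 11 * MvPolynomial.X 1)), ?_, ?_⟩
        · refine hH.mul ?_
          refine MvPolynomial.IsHomogeneous.C_mul ?_ _
          exact ((MvPolynomial.isHomogeneous_X _ _).sub (MvPolynomial.isHomogeneous_X _ _)).sub
            ((MvPolynomial.isHomogeneous_X _ _).C_mul _)
        · rw [map_mul, hH2]
          simp only [map_mul, map_sub, MvPolynomial.aeval_X, MvPolynomial.aeval_C,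
            MvPolynomial.algebraMap_eq, Matrix.cons_val_zero, Matrix.cons_val_one,
            Matrix.cons_val, map_ofNat]
          rw [vX, vY, vW]
          linear_combination (MvPolynomial.X 0 ^ i * MvPolynomial.X 1 ^ (j' + 2) : U M) * hhalf
      · obtain rfl : i = 1 := by omega
        obtain rfl : j = 1 := by omega
        obtain rfl : d = 0 := by omega
        refine ⟨MvPolynomial.X 1, MvPolynomial.isHomogeneous_X _ _, ?_⟩
        rw [MvPolynomial.aeval_X]
        simp [vY]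

private theorem sx_poly (hf : ZMod M) (hhalf : (MvPolynomial.C hf : U M) * 2 = 1) (d : ℕ)
    (G : U M) (hG : G.IsHomogeneous (2 * d)) :
    ∃ H : MvPolynomial (Fin 3) (ZMod M), H.IsHomogeneous d ∧
      MvPolynomial.aeval ![(vX : U M), vY, vW] H = G := by
  classical
  have h1 : ∀ m ∈ G.support, ∃ H : MvPolynomial (Fin 3) (ZMod M), H.IsHomogeneous d ∧
      MvPolynomial.aeval ![(vX : U M), vY, vW] H = MvPolynomial.monomial m (G.coeff m) := by
    intro m hm
    have hdeg : m.degree = 2 * d := by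
      by_contra hne
      exact (MvPolynomial.mem_support_iff.1 hm) (hG.coeff_eq_zero hne)
    have hdeg' : m 0 + m 1 = 2 * d := by
      rw [← hdeg, Finsupp.degree_eq_sum, Fin.sum_univ_two]
    obtain ⟨H, hH, hH2⟩ := sx_mono hf hhalf d (m 0) (m 1) hdeg'
    refine ⟨MvPolynomial.C (G.coeff m) * H, hH.C_mul _, ?_⟩
    rw [map_mul, hH2, MvPolynomial.aeval_C, MvPolynomial.algebraMap_eq,
      MvPolynomial.monomial_eq, Finsupp.prod_fintype _ _ (fun i => pow_zero _),
      Fin.prod_univ_two]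
  choose! H hH hH2 using h1
  refine ⟨∑ m ∈ G.support, H m, MvPolynomial.IsHomogeneous.sum _ _ _ hH, ?_⟩
  rw [map_sum, Finset.sum_congr rfl hH2, MvPolynomial.support_sum_monomial_coeff]

private theorem sx_sgX : sg (vX : U M) = -vX := by
  simp only [sg, vX, map_sub, map_mul, map_pow, MvPolynomial.aeval_X, Matrix.cons_val_zero,
    Matrix.cons_val_one, map_ofNat]
  ring

private theorem sx_sgY : sg (vY : U M) = -vY := by
  simp only [sg, vY, map_mul, MvPolynomial.aeval_X, Matrix.cons_val_zero,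
    Matrix.cons_val_one]
  ring

private theorem sx_sgW : sg (vW : U M) = vW := by
  simp only [sg, vW, map_add, map_pow, MvPolynomial.aeval_X, Matrix.cons_val_zero,
    Matrix.cons_val_one]
  ring

private theorem sx_sg_monomial (m : Fin 3 →₀ ℕ) (c : ZMod M) :
    sg (MvPolynomial.aeval ![(vX : U M), vY, vW] (MvPolynomial.monomial m c)) =
      (-1) ^ (m 0 + m 1) * MvPolynomial.aeval ![(vX : U M), vY, vW] (MvPolynomial.monomial m c) := by
  rw [MvPolynomial.aeval_monomial, Finsupp.prod_fintype _ _ (fun i => pow_zero _),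
    Fin.prod_univ_three]
  simp only [map_mul, map_pow, Matrix.cons_val_zero, Matrix.cons_val_one, Matrix.cons_val,
    AlgHom.commutes]
  rw [sx_sgX, sx_sgY, sx_sgW, neg_pow vX, neg_pow vY, pow_add]
  ring

/-- the antisymmetric half of a polynomial in `vX`, `vY`, `vW` -/
private theorem sx_odd (d : ℕ) (H : MvPolynomial (Fin 3) (ZMod M)) (hH : H.IsHomogeneous d) :
    ∃ H' : MvPolynomial (Fin 3) (ZMod M), H'.IsHomogeneous d ∧
      (∀ s ∈ H'.support, Odd (s 0 + s 1)) ∧
      2 * MvPolynomial.aeval ![(vX : U M), vY, vW] H' =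
        MvPolynomial.aeval ![(vX : U M), vY, vW] H -
          sg (MvPolynomial.aeval ![(vX : U M), vY, vW] H) := by
  classical
  refine ⟨∑ m ∈ H.support.filter (fun m => Odd (m 0 + m 1)), MvPolynomial.monomial m (H.coeff m),
    ?_, ?_, ?_⟩
  · refine MvPolynomial.IsHomogeneous.sum _ _ _ fun m hm => ?_
    have hm' := MvPolynomial.mem_support_iff.1 (Finset.mem_filter.1 hm).1
    refine MvPolynomial.isHomogeneous_monomial _ ?_
    by_contra hne
    exact hm' (hH.coeff_eq_zero hne)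
  · intro s hs
    have h1 := MvPolynomial.support_sum hs
    rw [Finset.mem_biUnion] at h1
    obtain ⟨m, hm, hsm⟩ := h1
    have h2 := MvPolynomial.support_monomial_subset hsm
    rw [Finset.mem_singleton] at h2
    rw [h2]
    exact (Finset.mem_filter.1 hm).2
  · have hsum : H = ∑ m ∈ H.support, MvPolynomial.monomial m (H.coeff m) :=
      (MvPolynomial.support_sum_monomial_coeff H).symm
    have hsplit : MvPolynomial.aeval ![(vX : U M), vY, vW] H =
        ∑ m ∈ H.support, MvPolynomial.aeval ![(vX : U M), vY, vW]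
          (MvPolynomial.monomial m (H.coeff m)) := by
      conv_lhs => rw [hsum]
      rw [map_sum]
    rw [hsplit, map_sum, map_sum, Finset.mul_sum, ← Finset.sum_sub_distrib, Finset.sum_filter]
    refine Finset.sum_congr rfl fun m _ => ?_
    rw [sx_sg_monomial]
    split_ifs with h
    · rw [h.neg_one_pow]
      ring
    · rw [Nat.not_odd_iff_even] at h
      rw [h.neg_one_pow]
      ring

end SXPoly

theorem sieve_pk (p : ℕ) [Fact p.Prime] (hp : 5 < p) (k : ℕ) (hk : 1 ≤ k) :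
    ∃ (K : ℕ) (G : MvPolynomial (Fin 3) (ZMod (p ^ k))), 2 ≤ K ∧ Even K ∧ p ^ (k - 1) * (p - 1) ∣ K ∧
      G.IsHomogeneous ((K - 2) / 2) ∧ (∀ s ∈ G.support, Odd (s 0 + s 1)) ∧
      ∀ n : ℕ, PowerSeries.coeff n (red (p ^ k) phi ^ 4 *
          MvPolynomial.aeval ![red (p ^ k) sa, red (p ^ k) sb, red (p ^ k) sE] G) =
        ((psi p (6 * n + 1) : ℤ) : ZMod (p ^ k)) * (b5 n : ZMod (p ^ k)) := by
  have hprime : p.Prime := Fact.out
  have hp2 : p ≠ 2 := by omega
  have hodd : p % 2 = 1 := hprime.eq_two_or_odd.resolve_left hp2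
  have hcop : Nat.Coprime 2 (p ^ k) := by
    apply Nat.Coprime.pow_right
    rw [Nat.prime_two.coprime_iff_not_dvd]
    omega
  obtain ⟨e⟩ := exists_EVm (p ^ k) hcop
  obtain ⟨N, A, B, hX⟩ := exists_HX p hp k hk e
  obtain ⟨r0, hr0⟩ : ∃ r0, p = 2 * r0 + 1 := ⟨p / 2, by omega⟩
  have hr0p : p / 2 = r0 := by omega
  have hr0pos : 0 < r0 := by omega
  set r : ℕ := p ^ (k - 1) * r0 with hr
  have hppos : 0 < p ^ (k - 1) := Nat.pow_pos hprime.pos
  have hrpos : 0 < r := Nat.mul_pos hppos hr0pos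
  set w : ℕ := p ^ (k - 1) * (p - 1) with hw
  have hw2 : w = 2 * r := by
    rw [hw, hr]
    have : p - 1 = 2 * r0 := by omega
    rw [this]
    ring
  have hwr : w / 2 = r := by omega
  have hweven : Even w := by rw [hw2]; exact even_two_mul r
  -- the half
  set hf : ZMod (p ^ k) := (ZMod.unitOfCoprime 2 hcop)⁻¹ with hfd
  have hf2 : hf * 2 = 1 := by
    have h1 : ((ZMod.unitOfCoprime 2 hcop : (ZMod (p ^ k))ˣ) : ZMod (p ^ k)) = 2 := by
      rw [ZMod.coe_unitOfCoprime]
      norm_num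
    have h2 : ((((ZMod.unitOfCoprime 2 hcop)⁻¹ : (ZMod (p ^ k))ˣ)) : ZMod (p ^ k)) *
        ((ZMod.unitOfCoprime 2 hcop : (ZMod (p ^ k))ˣ) : ZMod (p ^ k)) = 1 := Units.inv_mul _
    rw [h1] at h2
    exact h2
  have hhalf : (MvPolynomial.C hf : U (p ^ k)) * 2 = 1 := by
    rw [show (2 : U (p ^ k)) = MvPolynomial.C (2 : ZMod (p ^ k)) from
      (map_ofNat MvPolynomial.C 2).symm, ← MvPolynomial.C_mul, hf2, MvPolynomial.C_1]
  -- Euler
  have eul : ∀ c : ℤ, ((c : ℤ) : ZMod (p ^ k)) ^ r = ((legendreSym p c : ℤ) : ZMod (p ^ k)) := by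
    intro c
    have h1 := sx_euler p hp2 k hk c
    rwa [hr0p] at h1
  clear_value r
  have e2 : (2 : ZMod (p ^ k)) ^ r = ((legendreSym p 2 : ℤ) : ZMod (p ^ k)) := by
    have h1 := eul 2
    push_cast at h1
    exact h1
  have e5 : (-5 : ZMod (p ^ k)) ^ r = ((legendreSym p (-5) : ℤ) : ZMod (p ^ k)) := by
    have h1 := eul (-5)
    push_cast at h1
    exact h1
  have hne : ∀ i : ℕ, 0 < i → i < p → ((i : ℕ) : ZMod p) ≠ 0 := by
    intro i h0 h1 h
    rw [ZMod.natCast_eq_zero_iff] at h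
    exact absurd (Nat.le_of_dvd h0 h) (by omega)
  have f2' : legendreSym p 2 ^ 2 = 1 := by
    apply legendreSym.sq_one
    exact_mod_cast hne 2 (by norm_num) (by omega)
  have f5' : legendreSym p (-5) ^ 2 = 1 := by
    apply legendreSym.sq_one
    push_cast
    rw [neg_ne_zero]
    exact_mod_cast hne 5 (by norm_num) (by omega)
  have f2 : ((2 : ZMod (p ^ k)) ^ r) ^ 2 = 1 := by
    rw [e2]
    exact_mod_cast congrArg (fun z : ℤ => (z : ZMod (p ^ k))) f2'
  have f5 : ((-5 : ZMod (p ^ k)) ^ r) ^ 2 = 1 := by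
    rw [e5]
    exact_mod_cast congrArg (fun z : ℤ => (z : ZMod (p ^ k))) f5'
  set s : ZMod (p ^ k) := -(2 ^ r) * (-5) ^ r with hs
  have hs5 : 2 ^ r + s * (-5) ^ r = 0 := by
    rw [hs]
    linear_combination -(2 ^ r : ZMod (p ^ k)) * f5
  clear_value s
  set G0 : U (p ^ k) := KK w N A B w + MvPolynomial.C s * (A ^ (1 + N * r) * KK w N A B r) with hG0
  have hdeg0 : w * (2 + N * w) = 2 + 2 * (2 * (r + N * r * r) - 1) := by
    have h1 : w * (2 + N * w) = 4 * (r + N * r * r) := by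
      rw [hw2]
      ring
    rw [h1]
    have h2 : 0 < r + N * r * r := by positivity
    omega
  have hhom0 : G0.IsHomogeneous (2 + 2 * (2 * (r + N * r * r) - 1)) := by
    have k1 := KK_hom hX w
    rw [hdeg0] at k1
    have k2 := (hX.homA.pow (1 + N * r)).mul (KK_hom hX r)
    have k3 : w * (1 + N * r) + r * (2 + N * w) = 2 + 2 * (2 * (r + N * r * r) - 1) := by
      rw [← hdeg0, hw2]
      ring
    rw [k3] at k2
    exact k1.add (k2.C_mul _)
  have hdvd : (vX : U (p ^ k)) ∣ G0 := by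
    obtain ⟨q1, a1⟩ := KK_modX hweven hX w
    obtain ⟨q2, a2⟩ := KK_modX hweven hX r
    obtain ⟨q3, a3⟩ := hX.modA
    rw [hwr] at a3
    have hC : (MvPolynomial.C (2 ^ r + s * (-5) ^ r) : U (p ^ k)) = 0 := by
      rw [hs5, MvPolynomial.C_0]
    rw [MvPolynomial.C_add, MvPolynomial.C_mul, MvPolynomial.C_pow, MvPolynomial.C_pow,
      MvPolynomial.C_neg, show (MvPolynomial.C 2 : U (p ^ k)) = 2 from map_ofNat MvPolynomial.C 2,
      show (MvPolynomial.C 5 : U (p ^ k)) = 5 from map_ofNat MvPolynomial.C 5] at hC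
    refine ⟨q1 + MvPolynomial.C s * A ^ (1 + N * r) * q2 +
      (2 * vW * A ^ N) ^ r * A ^ (N * r) * (MvPolynomial.C s * q3), ?_⟩
    have b1 : ((2 : U (p ^ k)) * vW * A ^ N) ^ w =
        (2 * vW * A ^ N) ^ r * A ^ (N * r) * (2 ^ r * vW ^ r) := by
      rw [hw2, pow_mul', pow_two]
      nth_rewrite 2 [mul_pow (2 * vW) (A ^ N) r]
      rw [mul_pow 2 vW r, ← pow_mul]
      ring
    have b2 : (-5 * (vW : U (p ^ k))) ^ r = (-5) ^ r * vW ^ r := mul_pow _ _ _
    have b3 : A ^ (1 + N * r) = A * A ^ (N * r) := by rw [pow_add, pow_one]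
    rw [b1] at a1
    rw [b2] at a3
    rw [hG0, b3]
    linear_combination a1 + MvPolynomial.C s * (A * A ^ (N * r)) * a2 +
      (2 * vW * A ^ N) ^ r * A ^ (N * r) * MvPolynomial.C s * a3 +
      (2 * vW * A ^ N) ^ r * A ^ (N * r) * vW ^ r * hC
  obtain ⟨G1', hG1'⟩ := hdvd
  have hvXh : (vX : U (p ^ k)).IsHomogeneous 2 := vX_hom'
  have hhom1 := hhom0
  rw [hG1'] at hhom1
  have hq := sx_quot hvXh hhom1
  set G1 : U (p ^ k) :=
    MvPolynomial.homogeneousComponent (2 * (2 * (r + N * r * r) - 1)) G1' with hG1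
  have hG1h : G1.IsHomogeneous (2 * (2 * (r + N * r * r) - 1)) :=
    MvPolynomial.homogeneousComponent_isHomogeneous _ _
  obtain ⟨H, hH, hH2⟩ := sx_poly hf hhalf _ G1 hG1h
  obtain ⟨H', hH', hodd', hH2'⟩ := sx_odd _ H hH
  have hG0sym : sg G0 = G0 := by
    have hc : sg (MvPolynomial.C s : U (p ^ k)) = MvPolynomial.C s := by
      rw [← MvPolynomial.algebraMap_eq, AlgHom.commutes]
    rw [hG0, map_add, map_mul, map_mul, map_pow, KK_sym hX, KK_sym hX, hX.symA, hc]
  have hvG : vX * G1 = G0 := by rw [hq, ← hG1']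
  have hvsg : vX * sg G1 = -G0 := by
    have h1 : sg (vX * G1) = G0 := by rw [hvG, hG0sym]
    rw [map_mul, sx_sgX] at h1
    linear_combination -h1
  have hmain0 : vX * MvPolynomial.aeval ![(vX : U (p ^ k)), vY, vW] H' = G0 := by
    rw [hH2] at hH2'
    linear_combination (vX * MvPolynomial.aeval ![(vX : U (p ^ k)), vY, vW] H' * (-1) + G0) * hhalf
      + MvPolynomial.C hf * vX * hH2' + MvPolynomial.C hf * hvG - MvPolynomial.C hf * hvsg
  refine ⟨w * (2 + N * w), H', ?_, ?_, Dvd.intro _ rfl, ?_, hodd', fun n => ?_⟩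
  · rw [hdeg0]
    omega
  · exact hweven.mul_right _
  · rw [hdeg0]
    have h1 : (2 + 2 * (2 * (r + N * r * r) - 1) - 2) / 2 = 2 * (r + N * r * r) - 1 := by omega
    rw [h1]
    exact hH'
  have hev : MvPolynomial.aeval ![red (p ^ k) sa, red (p ^ k) sb, red (p ^ k) sE] H' =
      e.ev (MvPolynomial.aeval ![(vX : U (p ^ k)), vY, vW] H') := by
    have k1 : e.ev (MvPolynomial.aeval ![(vX : U (p ^ k)), vY, vW] H') =
        MvPolynomial.aeval (fun i => e.ev (![(vX : U (p ^ k)), vY, vW] i)) H' := by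
      rw [← MvPolynomial.comp_aeval_apply]
    rw [k1]
    congr 1
    congr 1
    funext i
    fin_cases i
    · exact e.hX.symm
    · exact e.hY.symm
    · exact e.hW.symm
  have hmain : red (p ^ k) phi ^ 4 * e.ev (MvPolynomial.aeval ![(vX : U (p ^ k)), vY, vW] H') =
      red (p ^ k) sB * e.ev G0 := by
    have k1 : red (p ^ k) phi ^ 4 = red (p ^ k) sB * red (p ^ k) sa := by
      simp only [red]
      rw [← map_pow, ← map_mul, id_B2]
    rw [k1, ← hmain0, map_mul, e.hX]
    ring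
  rw [hev, hmain, hG0, map_add, mul_add, map_add]
  have hc1 := KK_ev hcop hX w n
  have hc2 := KK_ev hcop hX r n
  have k2 : ∀ s : ZMod (p ^ k), red (p ^ k) sB *
      e.ev (MvPolynomial.C s * (A ^ (1 + N * r) * KK w N A B r)) =
      PowerSeries.C s * (red (p ^ k) sB * e.ev (KK w N A B r)) := by
    intro s
    rw [map_mul, map_mul, map_pow, hX.evA, one_pow, one_mul]
    have : e.ev (MvPolynomial.C s) = PowerSeries.C s := by
      rw [← MvPolynomial.algebraMap_eq, AlgHom.commutes]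
      rfl
    rw [this]
    ring
  rw [k2, PowerSeries.coeff_C_mul, hc1, hc2, hw2]
  have ex : ((legendreSym p (6 * n + 1) : ℤ) : ZMod (p ^ k)) = (6 * (n : ZMod (p ^ k)) + 1) ^ r := by
    rw [← eul]
    push_cast
    ring
  unfold psi
  push_cast
  rw [ex, ← e5]
  have c1 : (2 * (6 * (n : ZMod (p ^ k)) + 1)) ^ (2 * r) =
      (2 ^ r) ^ 2 * ((6 * (n : ZMod (p ^ k)) + 1) ^ r) ^ 2 := by
    rw [mul_pow, pow_mul', pow_mul']
  have c2 : (2 * (6 * (n : ZMod (p ^ k)) + 1)) ^ r = 2 ^ r * (6 * (n : ZMod (p ^ k)) + 1) ^ r :=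
    mul_pow _ _ _
  rw [c1, c2, hs]
  linear_combination (((6 * (n : ZMod (p ^ k)) + 1) ^ r) ^ 2 * (b5 n : ZMod (p ^ k)) -
    (-5) ^ r * (6 * (n : ZMod (p ^ k)) + 1) ^ r * (b5 n : ZMod (p ^ k))) * f2


end Pool.Agent.B5X
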