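import Pool.Agent.B5X.Defs
import Pool.Agent.B5X.SX
import Pool.Agent.B5X.MCO
import Pool.Agent.B5.FO

/-!
B5X / FC: the integral forms (as Pool.Agent.B5.FO). `form_pk`: lift G of `sieve_pk` to the integers on its support; fH(z) G'(fa(6z), fb(6z), fE(6z)), a monomial with exponents s has
character exponent s 0 + s 1 odd (MC.parity), weight 2 + 2 (K-2)/2 = K. `form_5k`: sa = 1 mod 5 (as in FO), so sa^(5^(k-1)) = 1 mod 5^k and sB = phi^4 sa^(5^(k-1) - 1) mod 5^k (id_B2: sB sa = phi^4);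
the form fH(z) fa(6z)^(5^(k-1) - 1), the exponent is even.
-/

set_option autoImplicit false

namespace Pool.Agent.B5X

open PowerSeries UpperHalfPlane Pool.Agent.B5
open scoped MatrixGroups ModularForm Manifold ArithmeticFunction.sigma

private theorem FCX_wt {ε : ℕ} {k l : ℤ} {g : ℍ → ℂ} (h : MC ε k g) (e : k = l) : MC ε l g := by
  subst e
  exact h

private theorem FCX_toC_mul (a b : ℤ⟦X⟧) : toC (a * b) = toC a * toC b := map_mul _ a b

private theorem FCX_toC_add (a b : ℤ⟦X⟧) : toC (a + b) = toC a + toC b := map_add _ a b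

private theorem FCX_toC_pow (a : ℤ⟦X⟧) (n : ℕ) : toC (a ^ n) = toC a ^ n := map_pow _ a n

private theorem FCX_toC_int (c : ℤ) : toC ((c : ℤ⟦X⟧)) = PowerSeries.C (c : ℂ) := by
  have h1 : toC ((c : ℤ⟦X⟧)) = (c : ℂ⟦X⟧) := map_intCast (PowerSeries.map (Int.castRingHom ℂ)) c
  rw [h1, map_intCast]

private theorem FCX_toC_zero : toC 0 = 0 := map_zero (PowerSeries.map (Int.castRingHom ℂ))

private theorem FCX_mono (m : Fin 3 →₀ ℕ) (c : ℤ) {d : ℕ} (hd : m 0 + m 1 + m 2 = d)
    (hodd : Odd (m 0 + m 1)) :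
    MC 1 (2 * d : ℤ) (fun z => MvPolynomial.aeval ![fa (sc 6 z), fb (sc 6 z), fE (sc 6 z)]
      (MvPolynomial.monomial m c : MvPolynomial (Fin 3) ℤ)) ∧
    HasQ (fun z => MvPolynomial.aeval ![fa z, fb z, fE z]
      (MvPolynomial.monomial m c : MvPolynomial (Fin 3) ℤ))
      (toC (MvPolynomial.aeval ![sa, sb, sE]
        (MvPolynomial.monomial m c : MvPolynomial (Fin 3) ℤ))) := by
  have e1 : ∀ z, MvPolynomial.aeval ![fa z, fb z, fE z]
      (MvPolynomial.monomial m c : MvPolynomial (Fin 3) ℤ) =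
      (c : ℂ) * (fa z ^ m 0 * fb z ^ m 1 * fE z ^ m 2) := by
    intro z
    rw [MvPolynomial.aeval_monomial, Finsupp.prod_fintype _ _ (fun i => pow_zero _),
      Fin.prod_univ_three]
    rfl
  have e2 : MvPolynomial.aeval ![sa, sb, sE]
      (MvPolynomial.monomial m c : MvPolynomial (Fin 3) ℤ) =
      (c : ℤ⟦X⟧) * (sa ^ m 0 * sb ^ m 1 * sE ^ m 2) := by
    rw [MvPolynomial.aeval_monomial, Finsupp.prod_fintype _ _ (fun i => pow_zero _),
      Fin.prod_univ_three, eq_intCast]
    rfl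
  have e3 : (fun z => MvPolynomial.aeval ![fa z, fb z, fE z]
      (MvPolynomial.monomial m c : MvPolynomial (Fin 3) ℤ)) =
      fun z => (c : ℂ) * (fa z ^ m 0 * fb z ^ m 1 * fE z ^ m 2) := funext e1
  have e4 : (fun z => MvPolynomial.aeval ![fa (sc 6 z), fb (sc 6 z), fE (sc 6 z)]
      (MvPolynomial.monomial m c : MvPolynomial (Fin 3) ℤ)) =
      fun z => (c : ℂ) * (fa (sc 6 z) ^ m 0 * fb (sc 6 z) ^ m 1 * fE (sc 6 z) ^ m 2) :=
    funext (fun z => e1 (sc 6 z))
  rw [e3, e2, e4]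
  constructor
  · have h1 := (((MC_fa.pow (m 0)).mul (MC_fb.pow (m 1))).mul (MC_fE.pow (m 2))).smul (c : ℂ)
    have h2 := h1.parity (ε' := 1) (by
      rw [Nat.odd_iff] at hodd
      omega)
    refine FCX_wt h2 ?_
    rw [← hd]
    push_cast
    ring
  · rw [FCX_toC_mul, FCX_toC_mul, FCX_toC_mul, FCX_toC_pow, FCX_toC_pow, FCX_toC_pow, FCX_toC_int]
    exact (HasQ.const (c : ℂ)).mul (((hasQ_fa.pow (m 0)).mul (hasQ_fb.pow (m 1))).mul
      (hasQ_fE.pow (m 2)))

private theorem FCX_poly (G : MvPolynomial (Fin 3) ℤ) {d : ℕ} (hG : G.IsHomogeneous d)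
    (hodd : ∀ s ∈ G.support, Odd (s 0 + s 1)) :
    MC 1 (2 * d : ℤ) (fun z => MvPolynomial.aeval ![fa (sc 6 z), fb (sc 6 z), fE (sc 6 z)] G) ∧
    HasQ (fun z => MvPolynomial.aeval ![fa z, fb z, fE z] G)
      (toC (MvPolynomial.aeval ![sa, sb, sE] G)) := by
  classical
  have key : ∀ s : Finset (Fin 3 →₀ ℕ), s ⊆ G.support →
      MC 1 (2 * d : ℤ) (fun z => MvPolynomial.aeval ![fa (sc 6 z), fb (sc 6 z), fE (sc 6 z)]
        (∑ m ∈ s, MvPolynomial.monomial m (MvPolynomial.coeff m G))) ∧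
      HasQ (fun z => MvPolynomial.aeval ![fa z, fb z, fE z]
        (∑ m ∈ s, MvPolynomial.monomial m (MvPolynomial.coeff m G)))
        (toC (MvPolynomial.aeval ![sa, sb, sE]
          (∑ m ∈ s, MvPolynomial.monomial m (MvPolynomial.coeff m G)))) := by
    intro s
    induction s using Finset.induction_on with
    | empty =>
      intro _
      simp only [Finset.sum_empty, map_zero, FCX_toC_zero]
      refine ⟨MC.zero _ _, ?_⟩
      have h := HasQ.const 0
      rw [map_zero] at h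
      exact h
    | insert m s hm ih =>
      intro hs
      obtain ⟨i1, i2⟩ := ih fun x hx => hs (Finset.mem_insert_of_mem hx)
      have hms : m ∈ G.support := hs (Finset.mem_insert_self _ _)
      have hdeg : m 0 + m 1 + m 2 = d := by
        have h1 := hG (MvPolynomial.mem_support_iff.1 hms)
        rw [Finsupp.weight_apply, Finsupp.sum_fintype _ _ (fun i => by simp)] at h1
        simpa [Fin.sum_univ_three] using h1
      obtain ⟨j1, j2⟩ := FCX_mono m (MvPolynomial.coeff m G) hdeg (hodd m hms)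
      simp only [Finset.sum_insert hm, map_add, FCX_toC_add]
      exact ⟨j1.add i1, j2.add i2⟩
  have h := key G.support subset_rfl
  have hsum : ∑ m ∈ G.support, MvPolynomial.monomial m (MvPolynomial.coeff m G) = G :=
    (MvPolynomial.as_sum G).symm
  rw [hsum] at h
  exact h

private theorem FCX_lift (M : ℕ) [NeZero M] (G : MvPolynomial (Fin 3) (ZMod M)) {d : ℕ}
    (hG : G.IsHomogeneous d) (hodd : ∀ s ∈ G.support, Odd (s 0 + s 1)) :
    ∃ G' : MvPolynomial (Fin 3) ℤ, G'.IsHomogeneous d ∧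
      (∀ s ∈ G'.support, Odd (s 0 + s 1)) ∧
      MvPolynomial.map (Int.castRingHom (ZMod M)) G' = G := by
  classical
  refine ⟨∑ m ∈ G.support, MvPolynomial.monomial m (((MvPolynomial.coeff m G).val : ℤ)), ?_, ?_, ?_⟩
  · refine MvPolynomial.IsHomogeneous.sum _ _ _ fun m hm => ?_
    refine MvPolynomial.isHomogeneous_monomial _ ?_
    have h1 := hG (MvPolynomial.mem_support_iff.1 hm)
    rw [Finsupp.weight_apply, Finsupp.sum_fintype _ _ (fun i => by simp)] at h1
    rw [Finsupp.degree_eq_sum]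
    simpa using h1
  · intro s hs
    apply hodd s
    have h1 := MvPolynomial.support_sum (s := G.support)
      (f := fun m => MvPolynomial.monomial m (((MvPolynomial.coeff m G).val : ℤ))) hs
    rw [Finset.mem_biUnion] at h1
    obtain ⟨m, hm, hsm⟩ := h1
    have h2 := MvPolynomial.support_monomial_subset hsm
    rw [Finset.mem_singleton] at h2
    rw [h2]
    exact hm
  · rw [map_sum]
    conv_rhs => rw [MvPolynomial.as_sum G]
    refine Finset.sum_congr rfl fun m _ => ?_
    rw [MvPolynomial.map_monomial]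
    congr 1
    simp

private theorem FCX_red_aeval (p : ℕ) (G : MvPolynomial (Fin 3) ℤ) :
    red p (MvPolynomial.aeval ![sa, sb, sE] G) =
      MvPolynomial.aeval ![red p sa, red p sb, red p sE]
        (MvPolynomial.map (Int.castRingHom (ZMod p)) G) := by
  induction G using MvPolynomial.induction_on with
  | C a =>
    rw [MvPolynomial.map_C, MvPolynomial.aeval_C, MvPolynomial.aeval_C, eq_intCast, eq_intCast,
      map_intCast]
    exact map_intCast (PowerSeries.map (Int.castRingHom (ZMod p))) a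
  | add a b ha hb =>
    rw [map_add, map_add, map_add, ← ha, ← hb]
    exact map_add (PowerSeries.map (Int.castRingHom (ZMod p))) _ _
  | mul_X a i ha =>
    rw [map_mul, map_mul, map_mul, ← ha, MvPolynomial.map_X, MvPolynomial.aeval_X,
      MvPolynomial.aeval_X]
    have h : (![red p sa, red p sb, red p sE] : Fin 3 → (ZMod p)⟦X⟧) i =
        red p ((![sa, sb, sE] : Fin 3 → ℤ⟦X⟧) i) := by
      fin_cases i <;> rfl
    rw [h]
    exact map_mul (PowerSeries.map (Int.castRingHom (ZMod p))) _ _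

private theorem FCX_exp (c : ℤ⟦X⟧) : toC (PowerSeries.expand 6 (by norm_num) c) =
    PowerSeries.expand 6 (by norm_num) (toC c) :=
  PowerSeries.map_expand _ _ _ _

private theorem FCX_toC_X : toC PowerSeries.X = PowerSeries.X :=
  PowerSeries.map_X _

private theorem FCX_coeff (c : ℤ⟦X⟧) (n : ℕ) :
    PowerSeries.coeff (6 * n + 1) (PowerSeries.X * PowerSeries.expand 6 (by norm_num) c) =
      PowerSeries.coeff n c := by
  rw [PowerSeries.coeff_succ_X_mul, PowerSeries.coeff_expand_mul]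

private theorem FCX_frob (c : (ZMod 5)⟦X⟧) :
    PowerSeries.expand 5 (by norm_num) c = c ^ 5 := by
  have : Fact (Nat.Prime 5) := ⟨by norm_num⟩
  have h := MvPowerSeries.map_frobenius_expand (R := ZMod 5) 5 (by norm_num) (f := c)
  have h1 : frobenius (ZMod 5) 5 = RingHom.id (ZMod 5) := by
    ext x
    simp [frobenius_def, ZMod.pow_card]
  rw [h1, MvPowerSeries.map_id] at h
  exact h

private theorem FCX_sa : red 5 sa = 1 := by
  have : Fact (Nat.Prime 5) := ⟨by norm_num⟩
  have h1 : red 5 sa * red 5 (ex5 phi) = red 5 phi ^ 5 := by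
    have h2 := congrArg (PowerSeries.map (Int.castRingHom (ZMod 5))) sa_mul
    rw [map_mul, map_pow] at h2
    exact h2
  have h3 : red 5 (ex5 phi) = PowerSeries.expand 5 (by norm_num) (red 5 phi) :=
    PowerSeries.map_expand _ _ _ _
  rw [h3, FCX_frob] at h1
  have h4 : red 5 phi ^ 5 ≠ 0 := by
    apply pow_ne_zero
    intro h0
    have h5 : PowerSeries.constantCoeff (red 5 phi) = 1 := by
      show PowerSeries.constantCoeff (PowerSeries.map (Int.castRingHom (ZMod 5)) phi) = 1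
      rw [← PowerSeries.coeff_zero_eq_constantCoeff_apply, PowerSeries.coeff_map,
        PowerSeries.coeff_zero_eq_constantCoeff_apply, phi_coeff_zero, map_one]
    rw [h0, map_zero] at h5
    exact zero_ne_one h5
  exact mul_right_cancel₀ h4 (h1.trans (one_mul _).symm)

private theorem FCX_dvd : ((5 : ℕ) : ℤ⟦X⟧) ∣ sa - 1 := by
  have h0 : red 5 (sa - 1) = 0 := by
    have h1 : red 5 (sa - 1) = red 5 sa - red 5 1 := map_sub _ _ _
    have h2 : red 5 (1 : ℤ⟦X⟧) = 1 := map_one _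
    rw [h1, h2, FCX_sa, sub_self]
  have hdiv : ∀ n, (5 : ℤ) ∣ PowerSeries.coeff n (sa - 1) := by
    intro n
    have h1 := congrArg (PowerSeries.coeff n) h0
    have h2 : PowerSeries.coeff n (red 5 (sa - 1)) =
        ((PowerSeries.coeff n (sa - 1) : ℤ) : ZMod 5) := PowerSeries.coeff_map _ _ _
    rw [h2, map_zero] at h1
    exact (ZMod.intCast_zmod_eq_zero_iff_dvd _ 5).1 h1
  refine ⟨PowerSeries.mk (fun n => PowerSeries.coeff n (sa - 1) / 5), ?_⟩
  ext n
  have h3 : ((5 : ℕ) : ℤ⟦X⟧) = PowerSeries.C (5 : ℤ) := by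
    rw [map_ofNat]
    norm_num
  rw [h3, PowerSeries.coeff_C_mul, PowerSeries.coeff_mk, Int.mul_ediv_cancel' (hdiv n)]

theorem form_pk (p : ℕ) [Fact p.Prime] (hp : 5 < p) (k : ℕ) (hk : 1 ≤ k) :
    ∃ K : ℕ, 1 ≤ K ∧ p ^ (k - 1) * (p - 1) ∣ K ∧ ∃ c ∈ LC 1 K, ∀ n : ℕ,
      ((PowerSeries.coeff (6 * n + 1) c : ℤ) : ZMod (p ^ k)) =
        ((psi p (6 * n + 1) : ℤ) : ZMod (p ^ k)) * (b5 n : ZMod (p ^ k)) := by
  have hpp : p.Prime := Fact.out
  have : NeZero (p ^ k) := ⟨pow_ne_zero k hpp.ne_zero⟩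
  obtain ⟨K, G, hK2, hKe, hKd, hG, hodd, hco⟩ := sieve_pk p hp k hk
  obtain ⟨G', hG', hodd', hmap⟩ := FCX_lift (p ^ k) G hG hodd
  obtain ⟨h1, h2⟩ := FCX_poly G' hG' hodd'
  set d : ℕ := (K - 2) / 2 with hd
  set S : ℤ⟦X⟧ := MvPolynomial.aeval ![sa, sb, sE] G' with hS
  refine ⟨K, by omega, hKd, PowerSeries.X * PowerSeries.expand 6 (by norm_num) (phi ^ 4 * S), ?_, ?_⟩
  · refine ⟨fun z => fH z * (MvPolynomial.aeval ![fa (sc 6 z), fb (sc 6 z), fE (sc 6 z)] G'), ?_, ?_⟩
    · have h3 := (MC_fH.mul h1).parity (ε' := 1) rfl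
      refine FCX_wt h3 ?_
      have h5 : 2 + 2 * d = K := by
        rw [Nat.even_iff] at hKe
        omega
      have h8 : ((K : ℕ) : ℤ) = ((2 + 2 * d : ℕ) : ℤ) := by
        congr 1
        omega
      rw [h8]
      push_cast
      ring
    · have h3 : HasQ (fun z => MvPolynomial.aeval ![fa (sc 6 z), fb (sc 6 z), fE (sc 6 z)] G')
          (PowerSeries.expand 6 (by norm_num) (toC S)) := h2.scale 6
      have h4 := hasQ_fH.mul h3
      have e : toC (PowerSeries.X * PowerSeries.expand 6 (by norm_num) (phi ^ 4 * S)) =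
          PowerSeries.X * PowerSeries.expand 6 (by norm_num) (toC phi) ^ 4 *
            PowerSeries.expand 6 (by norm_num) (toC S) := by
        rw [FCX_toC_mul, FCX_toC_X, FCX_exp, FCX_toC_mul, FCX_toC_pow, map_mul, map_pow]
        ring
      rw [e]
      exact h4
  · intro n
    rw [FCX_coeff, ← hco n, ← hmap]
    have h3 : red (p ^ k) (phi ^ 4 * S) = red (p ^ k) phi ^ 4 *
        MvPolynomial.aeval ![red (p ^ k) sa, red (p ^ k) sb, red (p ^ k) sE]
          (MvPolynomial.map (Int.castRingHom (ZMod (p ^ k))) G') := by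
      rw [← FCX_red_aeval]
      show PowerSeries.map (Int.castRingHom (ZMod (p ^ k))) (phi ^ 4 * S) = _
      rw [map_mul, map_pow]
      rfl
    rw [← h3]
    show _ = PowerSeries.coeff n (PowerSeries.map (Int.castRingHom (ZMod (p ^ k))) (phi ^ 4 * S))
    rw [PowerSeries.coeff_map]
    rfl

theorem form_5k (k : ℕ) (hk : 1 ≤ k) : ∃ c ∈ LC 0 (2 * 5 ^ (k - 1)), ∀ n : ℕ,
    ((PowerSeries.coeff (6 * n + 1) c : ℤ) : ZMod (5 ^ k)) = (b5 n : ZMod (5 ^ k)) := by
  set N : ℕ := 5 ^ (k - 1) with hN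
  have hN1 : 1 ≤ N := Nat.one_le_pow _ _ (by norm_num)
  have hNodd : N % 2 = 1 := by
    rw [hN, Nat.pow_mod]
    norm_num
  refine ⟨PowerSeries.X * PowerSeries.expand 6 (by norm_num) (phi ^ 4 * sa ^ (N - 1)), ?_, ?_⟩
  · refine ⟨fun z => fH z * (fun z => fa (sc 6 z) ^ (N - 1)) z, ?_, ?_⟩
    · have h3 := (MC_fH.mul (MC_fa.pow (N - 1))).parity (ε' := 0) (by omega)
      refine FCX_wt h3 ?_
      have h8 : ((2 * N : ℕ) : ℤ) = ((2 + 2 * (N - 1) : ℕ) : ℤ) := by
        congr 1
        omega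
      rw [h8]
      push_cast
      ring
    · have h3 : HasQ (fun z => fa (sc 6 z) ^ (N - 1))
          (PowerSeries.expand 6 (by norm_num) (toC sa ^ (N - 1))) := (hasQ_fa.pow (N - 1)).scale 6
      have h4 := hasQ_fH.mul h3
      have e : toC (PowerSeries.X * PowerSeries.expand 6 (by norm_num) (phi ^ 4 * sa ^ (N - 1))) =
          PowerSeries.X * PowerSeries.expand 6 (by norm_num) (toC phi) ^ 4 *
            PowerSeries.expand 6 (by norm_num) (toC sa ^ (N - 1)) := by
        rw [FCX_toC_mul, FCX_toC_X, FCX_exp, FCX_toC_mul, FCX_toC_pow, FCX_toC_pow, map_mul, map_pow]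
        ring
      rw [e]
      exact h4
  · intro n
    rw [FCX_coeff, ← id_B2]
    have h1 : sB * sa * sa ^ (N - 1) = sB * (sa ^ N - 1 ^ N) + sB := by
      have h2 : sa ^ N = sa * sa ^ (N - 1) := by
        rw [← pow_succ']
        congr 1
        omega
      rw [h2, one_pow]
      ring
    have h3 := dvd_sub_pow_of_dvd_sub FCX_dvd (k - 1)
    rw [← hN, show k - 1 + 1 = k by omega] at h3
    obtain ⟨w, hw⟩ := h3
    rw [h1, hw, map_add]
    have h4 : PowerSeries.coeff n (sB * (((5 : ℕ) : ℤ⟦X⟧) ^ k * w)) =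
        (5 : ℤ) ^ k * PowerSeries.coeff n (sB * w) := by
      have h5 : sB * (((5 : ℕ) : ℤ⟦X⟧) ^ k * w) = PowerSeries.C ((5 : ℤ) ^ k) * (sB * w) := by
        rw [map_pow, map_ofNat]
        push_cast
        ring
      rw [h5, PowerSeries.coeff_C_mul]
    rw [h4]
    have h6 : (((5 : ℤ) ^ k : ℤ) : ZMod (5 ^ k)) = 0 := by
      have : (((5 ^ k : ℕ) : ℤ) : ZMod (5 ^ k)) = 0 := by
        rw [Int.cast_natCast]
        exact ZMod.natCast_self _
      exact_mod_cast this
    push_cast at h6 ⊢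
    rw [h6, zero_mul, zero_add, sB, PowerSeries.coeff_mk]
    push_cast
    rfl

end Pool.Agent.B5X
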