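import Pool.Agent.B5X.Defs
import Pool.Agent.B5.MA

/-!
B5X / NX: by the Chinese remainder theorem choose x0 = 1 mod 12 and x0 = r_p mod p for the primes p > 5 dividing m, with (r_p/p) = -(-5/p) (r_p = 1 or a non-residue; -5 is not 0 mod p);
n0 = (x0 - 1)/6. The Legendre symbol only depends on the class mod p.
-/

set_option autoImplicit false

namespace Pool.Agent.B5X

open PowerSeries UpperHalfPlane Pool.Agent.B5
open scoped MatrixGroups ModularForm Manifold ArithmeticFunction.sigma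

private theorem nx_local (p : ℕ) (hp : p.Prime) (h5 : 5 < p) :
    ∃ r : ℕ, @legendreSym p ⟨hp⟩ (r : ℤ) = - @legendreSym p ⟨hp⟩ (-5) := by
  haveI : Fact p.Prime := ⟨hp⟩
  have h5' : ((-5 : ℤ) : ZMod p) ≠ 0 := by
    intro h
    rw [ZMod.intCast_zmod_eq_zero_iff_dvd] at h
    have h1 : (p : ℤ) ∣ 5 := by
      have := dvd_neg.2 h
      simpa using this
    have h2 : p ∣ 5 := by exact_mod_cast h1
    have := Nat.le_of_dvd (by norm_num) h2
    omega
  rcases legendreSym.eq_one_or_neg_one p h5' with h | h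
  · obtain ⟨a, ha⟩ := FiniteField.exists_nonsquare (F := ZMod p) (by
      rw [ZMod.ringChar_zmod_n]
      omega)
    refine ⟨a.val, ?_⟩
    rw [h]
    have h1 : legendreSym p ((a.val : ℕ) : ℤ) = -1 := by
      rw [legendreSym.eq_neg_one_iff]
      simpa using ha
    rw [h1]
  · refine ⟨1, ?_⟩
    rw [h]
    simp

theorem exists_n0 (m : ℕ) (hm : 0 < m) : ∃ n0 : ℕ, Even n0 ∧ ∀ p : ℕ, (hp : p.Prime) → p ∣ m → 5 < p →
    @legendreSym p ⟨hp⟩ (6 * n0 + 1) = - @legendreSym p ⟨hp⟩ (-5) := by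
  classical
  have key : ∀ p : ℕ, ∃ r : ℕ, ∀ (hp : p.Prime), 5 < p →
      @legendreSym p ⟨hp⟩ (r : ℤ) = - @legendreSym p ⟨hp⟩ (-5) := by
    intro p
    by_cases h : p.Prime ∧ 5 < p
    · obtain ⟨r, hr⟩ := nx_local p h.1 h.2
      exact ⟨r, fun _ _ => hr⟩
    · exact ⟨0, fun h1 h2 => absurd ⟨h1, h2⟩ h⟩
  choose r hr using key
  set S : Finset ℕ := m.primeFactors.filter (fun p => 5 < p) with hS
  have hS' : ∀ p ∈ S, p.Prime ∧ 5 < p := by
    intro p hp
    rw [hS, Finset.mem_filter] at hp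
    exact ⟨Nat.prime_of_mem_primeFactors hp.1, hp.2⟩
  let a : ℕ → ℕ := fun i => if i = 12 then 1 else r i
  have hnz : ∀ i ∈ insert 12 S, id i ≠ 0 := by
    intro i hi
    rcases Finset.mem_insert.1 hi with h | h
    · simp [h]
    · exact (hS' i h).1.ne_zero
  have hco12 : ∀ p ∈ S, Nat.Coprime 12 p := by
    intro p hp
    obtain ⟨h1, h2⟩ := hS' p hp
    have h3 : Nat.Coprime 2 p := (Nat.coprime_primes Nat.prime_two h1).2 (by omega)
    have h4 : Nat.Coprime 3 p := (Nat.coprime_primes Nat.prime_three h1).2 (by omega)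
    have := (h3.mul_left h3).mul_left h4
    exact this
  have hpw : Set.Pairwise (↑(insert 12 S) : Set ℕ) (Function.onFun Nat.Coprime (id : ℕ → ℕ)) := by
    intro i hi j hj hij
    rw [Finset.mem_coe, Finset.mem_insert] at hi hj
    change Nat.Coprime i j
    rcases hi with hi | hi
    · rcases hj with hj | hj
      · exact absurd (hi.trans hj.symm) hij
      · rw [hi]; exact hco12 j hj
    · rcases hj with hj | hj
      · rw [hj]; exact (hco12 i hi).symm
      · exact (Nat.coprime_primes (hS' i hi).1 (hS' j hj).1).2 hij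
  obtain ⟨x, hx⟩ := Nat.chineseRemainderOfFinset a id (insert 12 S) hnz hpw
  have hx12 : x % 12 = 1 := by
    have := hx 12 (Finset.mem_insert_self _ _)
    simpa [a, Nat.ModEq] using this
  refine ⟨2 * (x / 12), even_two_mul _, ?_⟩
  intro p hp hpm hp5
  haveI : Fact p.Prime := ⟨hp⟩
  have hpS : p ∈ S := by
    rw [hS, Finset.mem_filter]
    exact ⟨Nat.mem_primeFactors.2 ⟨hp, hpm, hm.ne'⟩, hp5⟩
  have h1 := hx p (Finset.mem_insert_of_mem hpS)
  have hp12 : p ≠ 12 := by
    rintro rfl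
    revert hp
    norm_num
  have h2 : x ≡ r p [MOD p] := by
    simpa [a, hp12] using h1
  have h3 : (6 * ((2 * (x / 12) : ℕ) : ℤ) + 1) = (x : ℤ) := by
    have : 6 * (2 * (x / 12)) + 1 = x := by omega
    exact_mod_cast this
  rw [h3, ← hr p hp hp5]
  have h4 : ((x : ℤ) : ZMod p) = ((r p : ℤ) : ZMod p) := by
    have := (ZMod.natCast_eq_natCast_iff _ _ _).2 h2
    exact_mod_cast this
  unfold legendreSym
  rw [h4]

end Pool.Agent.B5X
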