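import Pool.Agent.B5X.Defs
import Pool.Agent.B5.PA

/-!
B5X / PR: parity along Q-powers. By (the proof of) PA: b5(4n+2) is even and b5(4n) has the parity of the coefficient n of phi, which is odd iff n is a pentagonal number iff 24 n + 1 is a
square (24 n + 1 = (6k - 1)^2). `parity_sq`: so for n even b5 n is odd iff 6 n + 1 is a square (n = 2 mod 4: 6n+1 = 13 mod 24 is not a square mod 8). Then: x = Q^E x0 with E even is a square iff x0 is; and
with E odd, Q prime not dividing x0, it is not a square. Q = 1 mod 24 keeps n even.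
-/

set_option autoImplicit false

namespace Pool.Agent.B5X

open PowerSeries UpperHalfPlane Pool.Agent.B5
open scoped MatrixGroups ModularForm Manifold ArithmeticFunction.sigma

private theorem pr_b5_four (m : ℕ) : (b5 (4 * m) : ZMod 2) = PowerSeries.coeff m (r2 phi) := by
  obtain ⟨Z, hZ⟩ := r2_sB
  have h := coeff_r2_sB (4 * m)
  have hX : PowerSeries.coeff (4 * m) (PowerSeries.X * Z ^ 2) = 0 := by
    rcases Nat.eq_zero_or_pos m with h0 | h0
    · rw [h0]
      simp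
    · obtain ⟨j, hj⟩ : ∃ j, 4 * m = j + 1 := ⟨4 * m - 1, by omega⟩
      rw [hj, PowerSeries.coeff_succ_X_mul, sq_odd _ _ (by omega)]
  rw [hZ, map_add, hX, add_zero, show r2 phi ^ 4 = (r2 phi ^ 2) ^ 2 by ring,
    show 4 * m = 2 * (2 * m) by ring, sq_even, sq_even] at h
  rw [show 4 * m = 2 * (2 * m) by ring, ← h]

private theorem pr_coeff (m : ℕ) :
    PowerSeries.coeff m (r2 phi) ≠ 0 ↔ m ∈ Set.range pentagonal := by
  unfold r2 Pool.Agent.B5.phi
  rw [PowerSeries.coeff_map]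
  constructor
  · intro h
    by_contra hc
    apply h
    rw [PowerSeries.coeff_pentagonalSeries_eq_zero ℤ hc, map_zero]
  · rintro ⟨k, rfl⟩
    rw [PowerSeries.coeff_pentagonalSeries_pentagonal]
    rcases Int.even_or_odd k with hk | hk
    · rw [Int.negOnePow_even _ hk]
      simp
    · rw [Int.negOnePow_odd _ hk]
      simp

private theorem pr_range (m : ℕ) : m ∈ Set.range pentagonal ↔ IsSquare (24 * m + 1) := by
  constructor
  · rintro ⟨k, rfl⟩
    refine ⟨(6 * k - 1).natAbs, ?_⟩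
    have h := two_mul_natCast_pentagonal k
    have h2 : (((6 * k - 1).natAbs * (6 * k - 1).natAbs : ℕ) : ℤ) = (6 * k - 1) * (6 * k - 1) := by
      push_cast
      rw [← abs_mul_abs_self (6 * k - 1)]
    have h3 : ((24 * pentagonal k + 1 : ℕ) : ℤ) = (6 * k - 1) * (6 * k - 1) := by
      push_cast
      linear_combination 12 * h
    exact_mod_cast h3.trans h2.symm
  · rintro ⟨r, hr⟩
    have hr6 : r % 6 = 1 ∨ r % 6 = 5 := by
      have h1 : (24 * m + 1) % 6 = (r * r) % 6 := by rw [hr]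
      rw [Nat.mul_mod r r] at h1
      have h2 : r % 6 < 6 := Nat.mod_lt _ (by norm_num)
      interval_cases h : r % 6 <;> omega
    rcases hr6 with h | h
    · obtain ⟨j, hj⟩ : ∃ j, r = 6 * j + 1 := ⟨r / 6, by omega⟩
      refine ⟨-(j : ℤ), ?_⟩
      have h1 := two_mul_natCast_pentagonal (-(j : ℤ))
      have h2 : (24 * (m : ℤ) + 1) = (6 * j + 1) * (6 * j + 1) := by
        rw [hj] at hr
        exact_mod_cast hr
      have h3 : (24 : ℤ) * (pentagonal (-(j : ℤ)) : ℤ) = 24 * m := by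
        linear_combination 12 * h1 - h2
      have h4 : (pentagonal (-(j : ℤ)) : ℤ) = m := by linarith
      exact_mod_cast h4
    · obtain ⟨j, hj⟩ : ∃ j, r = 6 * j + 5 := ⟨r / 6, by omega⟩
      refine ⟨(j : ℤ) + 1, ?_⟩
      have h1 := two_mul_natCast_pentagonal ((j : ℤ) + 1)
      have h2 : (24 * (m : ℤ) + 1) = (6 * j + 5) * (6 * j + 5) := by
        rw [hj] at hr
        exact_mod_cast hr
      have h3 : (24 : ℤ) * (pentagonal ((j : ℤ) + 1) : ℤ) = 24 * m := by
        linear_combination 12 * h1 - h2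
      have h4 : (pentagonal ((j : ℤ) + 1) : ℤ) = m := by linarith
      exact_mod_cast h4

theorem parity_sq (n : ℕ) (hn : Even n) : ¬ 2 ∣ b5 n ↔ IsSquare (6 * n + 1) := by
  have h4 : n % 4 = 0 ∨ n % 4 = 2 := by
    obtain ⟨r, hr⟩ := hn
    omega
  rcases h4 with h | h
  · obtain ⟨m, hm⟩ : ∃ m, n = 4 * m := ⟨n / 4, by omega⟩
    subst hm
    rw [← ZMod.natCast_eq_zero_iff, pr_b5_four, show 6 * (4 * m) + 1 = 24 * m + 1 by ring,
      ← pr_range, ← pr_coeff]
  · obtain ⟨m, hm⟩ : ∃ m, n = 4 * m + 2 := ⟨n / 4, by omega⟩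
    subst hm
    constructor
    · intro hc
      exact absurd (parity_even m) hc
    · rintro ⟨r, hr⟩
      exfalso
      have h1 : (6 * (4 * m + 2) + 1) % 8 = (r * r) % 8 := by rw [hr]
      rw [Nat.mul_mod r r] at h1
      have h2 : r % 8 < 8 := Nat.mod_lt _ (by norm_num)
      interval_cases h : r % 8 <;> omega

theorem parity_along (Q : ℕ) (hQ : Q.Prime) (hQ1 : Q ≡ 1 [MOD 24]) (n0 : ℕ) (h0 : Even n0)
    (hQx : Nat.Coprime Q (6 * n0 + 1)) (E n : ℕ) (h : 6 * n + 1 = Q ^ E * (6 * n0 + 1)) :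
    (Even E → (2 ∣ b5 n ↔ 2 ∣ b5 n0)) ∧ (Odd E → 2 ∣ b5 n) := by
  have hne : Even n := by
    have h1 : Q ^ E ≡ 1 [MOD 24] := by
      have := hQ1.pow E
      rwa [one_pow] at this
    have h2 : 6 * n + 1 ≡ 1 * (6 * n0 + 1) [MOD 24] := by
      rw [h]
      exact h1.mul_right _
    obtain ⟨r, hr⟩ := h0
    have h3 : (6 * n + 1) % 24 = (1 * (6 * n0 + 1)) % 24 := h2
    rw [Nat.even_iff]
    omega
  have hQ0 : 0 < Q := hQ.pos
  constructor
  · rintro ⟨s, hs⟩
    rw [← not_iff_not, parity_sq n hne, parity_sq n0 h0, h, hs, pow_add]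
    constructor
    · rintro ⟨r, hr⟩
      have hd : Q ^ s ∣ r := by
        have : (Q ^ s) ^ 2 ∣ r ^ 2 := ⟨6 * n0 + 1, by rw [pow_two r, ← hr]; ring⟩
        exact (Nat.pow_dvd_pow_iff (by norm_num)).1 this
      obtain ⟨t, ht⟩ := hd
      refine ⟨t, ?_⟩
      have hp : 0 < Q ^ s * Q ^ s := Nat.mul_pos (pow_pos hQ0 _) (pow_pos hQ0 _)
      apply Nat.eq_of_mul_eq_mul_left hp
      rw [hr, ht]
      ring
    · rintro ⟨r, hr⟩
      exact ⟨Q ^ s * r, by rw [hr]; ring⟩
  · rintro ⟨s, hs⟩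
    by_contra hc
    have h1 := (parity_sq n hne).1 hc
    obtain ⟨r, hr⟩ := h1
    rw [h, hs] at hr
    have hd : Q ^ s ∣ r := by
      have : (Q ^ s) ^ 2 ∣ r ^ 2 := ⟨Q * (6 * n0 + 1), by rw [pow_two r, ← hr]; ring⟩
      exact (Nat.pow_dvd_pow_iff (by norm_num)).1 this
    obtain ⟨t, ht⟩ := hd
    have hp : 0 < Q ^ s * Q ^ s := Nat.mul_pos (pow_pos hQ0 _) (pow_pos hQ0 _)
    have h2 : Q * (6 * n0 + 1) = t * t := by
      apply Nat.eq_of_mul_eq_mul_left hp
      rw [ht] at hr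
      linarith [hr, show Q ^ (2 * s + 1) * (6 * n0 + 1) = Q ^ s * Q ^ s * (Q * (6 * n0 + 1)) by ring,
        show Q ^ s * t * (Q ^ s * t) = Q ^ s * Q ^ s * (t * t) by ring]
    have h3 : Q ∣ t := by
      have : Q ∣ t * t := ⟨6 * n0 + 1, h2.symm⟩
      rcases hQ.dvd_mul.1 this with h | h <;> exact h
    obtain ⟨u, hu⟩ := h3
    have h4 : 6 * n0 + 1 = Q * (u * u) := by
      apply Nat.eq_of_mul_eq_mul_left hQ0
      rw [h2, hu]
      ring
    have h5 : Q ∣ 6 * n0 + 1 := ⟨_, h4⟩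
    have h6 : Q = 1 := Nat.eq_one_of_dvd_coprimes hQx dvd_rfl h5
    exact hQ.one_lt.ne' h6

end Pool.Agent.B5X
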