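import Mathlib

/-!
B5X / UN: elementary facts on ZMod m. `exists_unit`: elements with the same gcd with m are associated by a unit mod m
(i = g i', u = g u' with g the gcd; i', u' prime to m/g; lift i'/u' mod m/g to a unit mod m: `ZMod.unitsMap_surjective`). `pow_solve`: raising to the power 2 * 5^(k-1) - 1 is a bijection on the units of
ZMod (5^k), as this is coprime to 4 * 5^(k-1) (`powCoprime`).
-/

set_option autoImplicit false

namespace Pool.Agent.B5X

open scoped MatrixGroups ModularForm Manifold ArithmeticFunction.sigma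

theorem exists_unit (m : ℕ) (hm : 0 < m) (i : ℤ) (u : ℕ) (h : Int.gcd i m = Nat.gcd u m) :
    ∃ t : ℕ, Nat.Coprime t m ∧ (m : ℤ) ∣ i - t * u := by
  have : NeZero m := ⟨hm.ne'⟩
  set g := Nat.gcd u m with hg
  have hg0 : 0 < g := Nat.gcd_pos_of_pos_right _ hm
  obtain ⟨m', hm'⟩ : g ∣ m := Nat.gcd_dvd_right _ _
  obtain ⟨u', hu'⟩ : g ∣ u := Nat.gcd_dvd_left _ _
  obtain ⟨i', hi'⟩ : (g : ℤ) ∣ i := by
    rw [← h]
    exact Int.gcd_dvd_left _ _
  have hm'0 : 0 < m' := by
    rcases Nat.eq_zero_or_pos m' with h0 | h0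
    · rw [h0, mul_zero] at hm'
      omega
    · exact h0
  have : NeZero m' := ⟨hm'0.ne'⟩
  have hum : Nat.Coprime u' m' := by
    have h1 : Nat.gcd (g * u') (g * m') = g := by
      rw [← hm', ← hu']
    rw [Nat.gcd_mul_left] at h1
    exact Nat.eq_of_mul_eq_mul_left hg0 (by rw [mul_one]; exact h1)
  have him : IsCoprime i' (m' : ℤ) := by
    rw [Int.isCoprime_iff_gcd_eq_one]
    have h1 : Int.gcd ((g : ℤ) * i') ((g : ℤ) * m') = g := by
      rw [← hi']
      have : ((g : ℤ) * m') = (m : ℤ) := by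
        rw [hm']
        push_cast
        rfl
      rw [this, h]
    rw [Int.gcd_mul_left] at h1
    have h2 : (g : ℤ).natAbs = g := Int.natAbs_natCast g
    rw [h2] at h1
    exact Nat.eq_of_mul_eq_mul_left hg0 (by rw [mul_one]; exact h1)
  have hiu : IsUnit ((i' : ℤ) : ZMod m') := by
    rw [ZMod.coe_int_isUnit_iff_isCoprime]
    exact him.symm
  set a : (ZMod m')ˣ := hiu.unit * (ZMod.unitOfCoprime u' hum)⁻¹ with ha
  have hdvd : m' ∣ m := ⟨g, by rw [mul_comm]; exact hm'⟩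
  obtain ⟨b, hb⟩ := ZMod.unitsMap_surjective hdvd a
  refine ⟨(b : ZMod m).val, ZMod.val_coe_unit_coprime b, ?_⟩
  have h3 : (((b : ZMod m).val : ℕ) : ZMod m') = (a : ZMod m') := by
    rw [← hb, ZMod.unitsMap_val]
    exact ZMod.natCast_val _
  have h4 : (((b : ZMod m).val : ℕ) : ZMod m') * (u' : ZMod m') = ((i' : ℤ) : ZMod m') := by
    rw [h3, ha, Units.val_mul, IsUnit.unit_spec, mul_assoc]
    have h5 : ((((ZMod.unitOfCoprime u' hum)⁻¹ : (ZMod m')ˣ)) : ZMod m') * (u' : ZMod m') = 1 := by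
      rw [← ZMod.coe_unitOfCoprime u' hum]
      exact Units.inv_mul _
    rw [h5, mul_one]
  have h6 : (m' : ℤ) ∣ i' - ((b : ZMod m).val : ℕ) * u' := by
    rw [← ZMod.intCast_zmod_eq_zero_iff_dvd]
    push_cast
    rw [sub_eq_zero, ← h4]
  obtain ⟨c, hc⟩ := h6
  refine ⟨c, ?_⟩
  have e1 : (m : ℤ) = g * m' := by exact_mod_cast hm'
  have e2 : (u : ℤ) = g * u' := by exact_mod_cast hu'
  rw [e1, e2, hi']
  linear_combination (g : ℤ) * hc

theorem pow_solve (k : ℕ) (hk : 1 ≤ k) (t : ℕ) (ht : Nat.Coprime t 5) :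
    ∃ r : ℕ, Nat.Coprime r 5 ∧ r ^ (2 * 5 ^ (k - 1) - 1) ≡ t [MOD 5 ^ k] := by
  obtain ⟨j, rfl⟩ : ∃ j, k = j + 1 := ⟨k - 1, by omega⟩
  rw [Nat.add_sub_cancel]
  have : NeZero (5 ^ (j + 1)) := ⟨by positivity⟩
  have h5 : 1 ≤ 5 ^ j := Nat.one_le_pow _ _ (by norm_num)
  have hcard : Nat.card (ZMod (5 ^ (j + 1)))ˣ = 5 ^ j * 4 := by
    rw [Nat.card_eq_fintype_card, ZMod.card_units_eq_totient, Nat.totient_prime_pow_succ (by norm_num)]
  have hcop : (Nat.card (ZMod (5 ^ (j + 1)))ˣ).Coprime (2 * 5 ^ j - 1) := by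
    rw [hcard]
    apply Nat.Coprime.mul_left
    · rcases Nat.eq_zero_or_pos j with h0 | h0
      · rw [h0]
        norm_num
      · apply Nat.Coprime.pow_left
        rw [(by norm_num : Nat.Prime 5).coprime_iff_not_dvd]
        obtain ⟨i, rfl⟩ : ∃ i, j = i + 1 := ⟨j - 1, by omega⟩
        rw [pow_succ] at h5 ⊢
        omega
    · have : Nat.Coprime (2 ^ 2) (2 * 5 ^ j - 1) := by
        apply Nat.Coprime.pow_left
        rw [Nat.prime_two.coprime_iff_not_dvd]
        omega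
      simpa using this
  have ht' : Nat.Coprime t (5 ^ (j + 1)) := Nat.Coprime.pow_right _ ht
  set a := ZMod.unitOfCoprime t ht' with ha
  set b := (powCoprime hcop).symm a with hb
  have hba : b ^ (2 * 5 ^ j - 1) = a := by
    have : (powCoprime hcop) b = a := by rw [hb, Equiv.apply_symm_apply]
    rwa [powCoprime_apply] at this
  refine ⟨(b : ZMod (5 ^ (j + 1))).val, ?_, ?_⟩
  · exact (ZMod.val_coe_unit_coprime b).coprime_dvd_right (dvd_pow_self 5 (by omega))
  · rw [← ZMod.natCast_eq_natCast_iff]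
    push_cast
    rw [ZMod.natCast_val, ZMod.cast_id, ← Units.val_pow_eq_pow_val, hba, ha, ZMod.coe_unitOfCoprime]

/-- two solutions of Q^(K-1) y = -z and t y' = z ... : from d * y = -z and d * (-t) = 1 modulo q we get y = t z -/
theorem solve_aux (q : ℕ) (d t : ZMod q) (y z : ZMod q) (h1 : d * y = -z) (h2 : d * t = -1) : y = t * z := by
  linear_combination (-t) * h1 + y * h2

end Pool.Agent.B5X
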