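import Pool.Agent.B5X.FC
import Pool.Agent.B5X.LCP
import Pool.Agent.B5X.PR
import Pool.Agent.B5X.NX
import Pool.Agent.B5X.UN
import Pool.Agent.B5.MA

/-!
B5X / MX: assembly.
-/

set_option autoImplicit false

namespace Pool.Agent.B5X

open PowerSeries UpperHalfPlane Pool.Agent.B5
open scoped MatrixGroups ModularForm Manifold

/-- unit classes and prime powers: the ratio along `Q ^ (π j - 2)`, and the zero class along `Q ^ (π j - 1)` -/
theorem step_five (k : ℕ) (hk : 1 ≤ k) (Q : ℕ) (hQ : Q.Prime) (hQ1 : Q ≡ 1 [MOD 36]) (hQ5 : Q ≠ 5)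
    (n0 : ℕ) (hQx : Nat.Coprime Q (6 * n0 + 1)) :
    ∃ π : ℕ, 0 < π ∧ ∀ j : ℕ, 2 ≤ j →
      (∀ n, 6 * n + 1 = Q ^ (π * j - 1) * (6 * n0 + 1) → (b5 n : ZMod (5 ^ k)) = 0) ∧
      (∀ n, 6 * n + 1 = Q ^ (π * j - 2) * (6 * n0 + 1) →
        (Q : ZMod (5 ^ k)) ^ (2 * 5 ^ (k - 1) - 1) * (b5 n : ZMod (5 ^ k)) = - (b5 n0 : ZMod (5 ^ k))) := by
  obtain ⟨c, hc, hcc⟩ := form_5k k hk
  have h5 : 1 ≤ 2 * 5 ^ (k - 1) := by
    have : 0 < 5 ^ (k - 1) := by positivity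
    omega
  obtain ⟨π, hπ, h⟩ := LC_period 0 _ h5 c hc Q hQ hQ1 hQ5 (5 ^ k) (by positivity)
    (Nat.Coprime.pow_right k ((Nat.coprime_primes hQ (by norm_num)).mpr hQ5))
  refine ⟨π, hπ, ?_⟩
  intro j hj
  obtain ⟨h1, h2⟩ := h j hj (6 * n0 + 1) hQx
  constructor
  · intro n hn
    rw [← hn] at h1
    rw [← hcc n]
    exact (ZMod.intCast_zmod_eq_zero_iff_dvd _ _).mpr h1
  · intro n hn
    rw [← hn] at h2
    have h3 := (ZMod.intCast_zmod_eq_zero_iff_dvd _ _).mpr h2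
    push_cast at h3
    have e1 := hcc n
    have e2 := hcc n0
    rw [e1, e2] at h3
    simpa using eq_neg_of_add_eq_zero_left h3

theorem psi_two (p : ℕ) [Fact p.Prime] (hp : 5 < p) (x : ℤ) (h : legendreSym p x = - legendreSym p (-5)) :
    psi p x = 2 := by
  unfold psi
  rw [h]
  rcases leg_five p hp with h' | h' <;> rw [h'] <;> norm_num

theorem unit_two (p : ℕ) [Fact p.Prime] (hp : 5 < p) (k : ℕ) : IsUnit (2 : ZMod (p ^ k)) := by
  have hpp : p.Prime := Fact.out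
  have h : Nat.Coprime 2 (p ^ k) :=
    Nat.Coprime.pow_right k ((Nat.coprime_primes (by norm_num) hpp).mpr (by omega))
  have := (ZMod.isUnit_iff_coprime 2 (p ^ k)).mpr h
  exact_mod_cast this

theorem step_pk (p : ℕ) [Fact p.Prime] (hp : 5 < p) (k : ℕ) (hk : 1 ≤ k) (Q : ℕ) (hQ : Q.Prime)
    (hQ1 : Q ≡ 1 [MOD 36]) (hQ5 : Q ≠ 5) (hQp : Q ≠ p)
    (n0 : ℕ) (hQx : Nat.Coprime Q (6 * n0 + 1))
    (hleg : legendreSym p (6 * (n0 : ℤ) + 1) = - legendreSym p (-5)) :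
    ∃ π : ℕ, 0 < π ∧ ∀ j : ℕ, 2 ≤ j →
      ((Q : ZMod p) = 1 → ∀ n, 6 * n + 1 = Q ^ (π * j - 1) * (6 * n0 + 1) → (b5 n : ZMod (p ^ k)) = 0) ∧
      (Even j → ∀ n, 6 * n + 1 = Q ^ (π * j - 2) * (6 * n0 + 1) → ∀ t : ZMod (p ^ k),
        ((jacobiSym (Q : ℤ) 5 : ℤ) : ZMod (p ^ k)) * t = - (Q : ZMod (p ^ k)) →
        (b5 n : ZMod (p ^ k)) = t * (b5 n0 : ZMod (p ^ k))) := by
  have hpp : p.Prime := Fact.out
  obtain ⟨K, hK1, hKw, c, hc, hcc⟩ := form_pk p hp k hk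
  obtain ⟨π, hπ, h⟩ := LC_period 1 K hK1 c hc Q hQ hQ1 hQ5 (p ^ k) (pow_pos hpp.pos k)
    (Nat.Coprime.pow_right k ((Nat.coprime_primes hQ hpp).mpr hQp))
  refine ⟨π, hπ, ?_⟩
  intro j hj
  obtain ⟨h1, h2⟩ := h j hj (6 * n0 + 1) hQx
  have h2u := unit_two p hp k
  have hQz : (Q : ZMod p) ≠ 0 := by
    rw [Ne, ZMod.natCast_eq_zero_iff]
    intro h
    exact hQp ((Nat.prime_dvd_prime_iff_eq hpp hQ).mp h).symm
  constructor
  · intro hQone n hn
    have hxx : ((6 * (n : ℤ) + 1 : ℤ) : ZMod p) = ((6 * (n0 : ℤ) + 1 : ℤ) : ZMod p) := by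
      have h3 : ((6 * n + 1 : ℕ) : ZMod p) = ((Q ^ (π * j - 1) * (6 * n0 + 1) : ℕ) : ZMod p) := by rw [hn]
      push_cast at h3
      rw [hQone, one_pow, one_mul] at h3
      push_cast
      exact h3
    have hll : legendreSym p (6 * (n : ℤ) + 1) = legendreSym p (6 * (n0 : ℤ) + 1) := by
      unfold legendreSym
      rw [hxx]
    have hps : psi p (6 * (n : ℤ) + 1) = 2 := psi_two p hp _ (by rw [hll, hleg])
    rw [← hn] at h1
    have h3 := (ZMod.intCast_zmod_eq_zero_iff_dvd _ _).mpr h1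
    rw [hcc n, hps] at h3
    have h4 : (2 : ZMod (p ^ k)) * (b5 n : ZMod (p ^ k)) = 0 := by exact_mod_cast h3
    exact (h2u.mul_right_eq_zero).mp h4
  · intro hev n hn t ht
    have hE : Even (π * j - 2) := by
      obtain ⟨r, hr⟩ := hev
      refine ⟨π * r - 1, ?_⟩
      have : 0 < π * r := by
        apply Nat.mul_pos hπ
        omega
      rw [hr]
      have e : π * (r + r) = π * r + π * r := by ring
      rw [e]
      omega
    have hll : legendreSym p (6 * (n : ℤ) + 1) = legendreSym p (6 * (n0 : ℤ) + 1) := by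
      have h3 : (6 * (n : ℤ) + 1) = (Q : ℤ) ^ (π * j - 2) * (6 * (n0 : ℤ) + 1) := by exact_mod_cast hn
      rw [h3, legendreSym.mul]
      obtain ⟨r, hr⟩ := hE
      have h4 : (Q : ℤ) ^ (π * j - 2) = ((Q : ℤ) ^ r) ^ 2 := by rw [hr, ← pow_mul]; congr 1; ring
      have h5 : legendreSym p (((Q : ℤ) ^ r) ^ 2) = 1 := by
        apply legendreSym.sq_one'
        push_cast
        exact pow_ne_zero _ hQz
      rw [h4, h5, one_mul]
    have hps : psi p (6 * (n : ℤ) + 1) = 2 := psi_two p hp _ (by rw [hll, hleg])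
    have hps0 : psi p (6 * (n0 : ℤ) + 1) = 2 := psi_two p hp _ hleg
    rw [← hn] at h2
    have h3 := (ZMod.intCast_zmod_eq_zero_iff_dvd _ _).mpr h2
    push_cast at h3
    have e1 := hcc n
    have e2 := hcc n0
    rw [hps] at e1
    rw [hps0] at e2
    push_cast at e1 e2
    rw [e1, e2] at h3
    set χ : ZMod (p ^ k) := ((jacobiSym (Q : ℤ) 5 : ℤ) : ZMod (p ^ k)) with hχ
    have hj5 : (jacobiSym (Q : ℤ) 5) ^ 2 = 1 := by
      have hco : Int.gcd (Q : ℤ) 5 = 1 := by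
        have := (Nat.coprime_primes hQ (by norm_num : Nat.Prime 5)).mpr hQ5
        simpa [Int.gcd] using this
      exact jacobiSym.sq_one hco
    have hχ2 : χ * χ = 1 := by
      have := congrArg (Int.cast : ℤ → ZMod (p ^ k)) hj5
      push_cast at this
      rw [← hχ] at this
      rw [← sq]; exact this
    have hQK : (Q : ZMod (p ^ k)) ^ K = 1 := by
      obtain ⟨r, hr⟩ := hKw
      have hco : Nat.Coprime Q (p ^ k) := Nat.Coprime.pow_right k ((Nat.coprime_primes hQ hpp).mpr hQp)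
      have htot : (p ^ k).totient = p ^ (k - 1) * (p - 1) := Nat.totient_prime_pow hpp (by omega)
      have h5 : (ZMod.unitOfCoprime Q hco) ^ (p ^ k).totient = 1 := ZMod.pow_totient _
      have h6 := congrArg (fun u : (ZMod (p ^ k))ˣ => (u : ZMod (p ^ k))) h5
      simp only [Units.val_pow_eq_pow_val, ZMod.coe_unitOfCoprime, Units.val_one] at h6
      rw [hr, pow_mul, ← htot, h6, one_pow]
    have hpow : (Q : ZMod (p ^ k)) ^ (K - 1) * (Q : ZMod (p ^ k)) = 1 := by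
      rw [← pow_succ, Nat.sub_add_cancel hK1, hQK]
    -- 2 (χ Q^(K-1) y) = - 2 z
    have h4 : (2 : ZMod (p ^ k)) * (χ * (Q : ZMod (p ^ k)) ^ (K - 1) * (b5 n : ZMod (p ^ k))) =
        2 * (- (b5 n0 : ZMod (p ^ k))) := by
      have h3' : χ ^ 1 * (Q : ZMod (p ^ k)) ^ (K - 1) * (2 * (b5 n : ZMod (p ^ k))) +
          2 * (b5 n0 : ZMod (p ^ k)) = 0 := h3
      linear_combination h3'
    have h5 : χ * (Q : ZMod (p ^ k)) ^ (K - 1) * (b5 n : ZMod (p ^ k)) = - (b5 n0 : ZMod (p ^ k)) :=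
      h2u.mul_left_cancel h4
    -- t = - χ Q
    have ht' : t = - (χ * (Q : ZMod (p ^ k))) := by
      calc t = χ * χ * t := by rw [hχ2, one_mul]
        _ = χ * (χ * t) := by ring
        _ = _ := by rw [ht]; ring
    rw [ht']
    calc (b5 n : ZMod (p ^ k)) = (χ * χ) * ((Q : ZMod (p ^ k)) ^ (K - 1) * (Q : ZMod (p ^ k))) *
          (b5 n : ZMod (p ^ k)) := by rw [hχ2, hpow]; ring
      _ = χ * (Q : ZMod (p ^ k)) * (χ * (Q : ZMod (p ^ k)) ^ (K - 1) * (b5 n : ZMod (p ^ k))) := by ring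
      _ = _ := by rw [h5]; ring

/-- divisibility by `m` prime power by prime power -/
theorem dvd_of_factorization (m : ℕ) (hm : 0 < m) (z : ℤ)
    (h : ∀ p : ℕ, p.Prime → p ∣ m → ((p ^ (m.factorization p) : ℕ) : ℤ) ∣ z) : (m : ℤ) ∣ z := by
  rw [Int.natCast_dvd]
  rw [Nat.dvd_iff_prime_pow_dvd_dvd]
  intro p k hp hk
  rcases Nat.eq_zero_or_pos k with h0 | h0
  · subst h0; simp
  have hpm : p ∣ m := (dvd_pow_self p h0.ne').trans hk
  have h1 := h p hp hpm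
  have h2 : k ≤ m.factorization p := (hp.pow_dvd_iff_le_factorization hm.ne').mp hk
  exact (pow_dvd_pow p h2).trans (Int.natCast_dvd.mp h1)

theorem prime_cases (m p : ℕ) (hp : p.Prime) (hpm : p ∣ m) (h3 : ¬ 3 ∣ m) : p = 2 ∨ p = 5 ∨ 5 < p := by
  by_cases h : 5 < p
  · exact Or.inr (Or.inr h)
  · have h7 : p ≤ 5 := by omega
    have h8 := hp.two_le
    have h9 : p ≠ 4 := by
      intro h
      rw [h] at hp
      revert hp
      norm_num
    have h10 : p ≠ 3 := by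
      intro h
      exact h3 (h ▸ hpm)
    omega

theorem fact_two (m : ℕ) (h2 : 2 ∣ m) (hm : 0 < m) (h4 : ¬ 4 ∣ m) : m.factorization 2 = 1 := by
  have h5 : 1 ≤ m.factorization 2 := (Nat.prime_two.pow_dvd_iff_le_factorization hm.ne').mp (by simpa using h2)
  by_contra h
  have h6 : 2 ≤ m.factorization 2 := by omega
  exact h4 ((Nat.prime_two.pow_dvd_iff_le_factorization hm.ne').mpr h6)

/-- the residue classes for the auxiliary prime -/
theorem exists_Q5 (m : ℕ) (hm : 0 < m) (t : ℕ) (ht : Nat.Coprime t m) (B : ℕ) :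
    ∃ Q : ℕ, Q.Prime ∧ B < Q ∧ Q ≡ 1 [MOD 72] ∧
      (5 ∣ m → (Q : ZMod (5 ^ (m.factorization 5))) ^ (2 * 5 ^ (m.factorization 5 - 1) - 1) *
        (t : ZMod (5 ^ (m.factorization 5))) = -1) ∧
      (∀ p : ℕ, p.Prime → p ∣ m → 5 < p → ((jacobiSym (Q : ℤ) 5 : ℤ) : ZMod (p ^ (m.factorization p))) *
        (t : ZMod (p ^ (m.factorization p))) = - (Q : ZMod (p ^ (m.factorization p)))) := by
  classical
  -- the residue modulo the power of 5
  obtain ⟨r5, hr5, hr5'⟩ : ∃ r : ℕ, Nat.Coprime r 5 ∧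
      (5 ∣ m → (r : ZMod (5 ^ (m.factorization 5))) ^ (2 * 5 ^ (m.factorization 5 - 1) - 1) *
        (t : ZMod (5 ^ (m.factorization 5))) = -1) := by
    by_cases h5 : 5 ∣ m
    · have hk : 1 ≤ m.factorization 5 :=
        (Nat.prime_five.pow_dvd_iff_le_factorization hm.ne').mp (by simpa using h5)
      set k := m.factorization 5 with hkdef
      have ht5 : Nat.Coprime t (5 ^ k) :=
        ht.coprime_dvd_right ((Nat.prime_five.pow_dvd_iff_le_factorization hm.ne').mpr le_rfl)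
      have : NeZero (5 ^ k) := ⟨(by positivity)⟩
      let t' : ℕ := (-(t : ZMod (5 ^ k))⁻¹).val
      have hcast : (t' : ZMod (5 ^ k)) = -(t : ZMod (5 ^ k))⁻¹ := by simp [t']
      have hmul : (t : ZMod (5 ^ k)) * (t : ZMod (5 ^ k))⁻¹ = 1 := ZMod.coe_mul_inv_eq_one t ht5
      have hu : IsUnit (t' : ZMod (5 ^ k)) := by
        rw [hcast]
        exact (IsUnit.of_mul_eq_one_right _ hmul).neg
      have hco : Nat.Coprime t' (5 ^ k) := (ZMod.isUnit_iff_coprime _ _).mp hu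
      have hco5 : Nat.Coprime t' 5 := Nat.Coprime.coprime_dvd_right (dvd_pow_self 5 (by omega)) hco
      obtain ⟨r, hr1, hr2⟩ := pow_solve k hk t' hco5
      refine ⟨r, hr1, fun _ => ?_⟩
      have h6 := (ZMod.natCast_eq_natCast_iff _ _ _).mpr hr2
      push_cast at h6
      rw [h6, hcast]
      rw [neg_mul, mul_comm, hmul]
    · exact ⟨1, by norm_num, fun h => absurd h h5⟩
  -- the part prime to 10
  let m1 : ℕ := ∏ p ∈ m.primeFactors.filter (fun p => 5 < p), p ^ (m.factorization p)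
  have hm1pos : 0 < m1 := Finset.prod_pos (fun p hp =>
    pow_pos (Nat.pos_of_mem_primeFactors (Finset.mem_filter.mp hp).1) _)
  have hm1dvd : ∀ p : ℕ, p.Prime → p ∣ m → 5 < p → p ^ (m.factorization p) ∣ m1 := by
    intro p hp hpm h5
    exact Finset.dvd_prod_of_mem (fun p => p ^ (m.factorization p))
      (Finset.mem_filter.mpr ⟨Nat.mem_primeFactors.mpr ⟨hp, hpm, hm.ne'⟩, h5⟩)
  have hcop : ∀ a : ℕ, (∀ p : ℕ, p.Prime → p ∣ m → 5 < p → Nat.Coprime a p) → Nat.Coprime a m1 := by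
    intro a ha
    apply Nat.Coprime.prod_right
    intro p hp
    have hp1 := Finset.mem_filter.mp hp
    exact Nat.Coprime.pow_right _ (ha p (Nat.prime_of_mem_primeFactors hp1.1)
      (Nat.dvd_of_mem_primeFactors hp1.1) hp1.2)
  have hsmall : ∀ q : ℕ, q.Prime → q ≤ 5 → Nat.Coprime q m1 := by
    intro q hq hq5
    apply hcop
    intro p hp _ h5
    exact (Nat.coprime_primes hq hp).mpr (by omega)
  let k5 : ℕ := max (m.factorization 5) 1
  have hk5 : 1 ≤ k5 := le_max_right _ _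
  have hj : jacobiSym (r5 : ℤ) 5 = 1 ∨ jacobiSym (r5 : ℤ) 5 = -1 := by
    apply jacobiSym.eq_one_or_neg_one
    simpa [Int.gcd] using hr5
  -- target modulo m1
  have : NeZero m1 := ⟨hm1pos.ne'⟩
  have htm1 : Nat.Coprime t m1 := by
    apply hcop
    intro p hp hpm _
    exact ht.coprime_dvd_right hpm
  let s : ℕ := (-(((jacobiSym (r5 : ℤ) 5 : ℤ) : ZMod m1) * (t : ZMod m1))).val
  have hs : (s : ZMod m1) = -(((jacobiSym (r5 : ℤ) 5 : ℤ) : ZMod m1) * (t : ZMod m1)) := by simp [s]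
  have hsco : Nat.Coprime s m1 := by
    rw [← ZMod.isUnit_iff_coprime, hs]
    apply IsUnit.neg
    apply IsUnit.mul
    · rcases hj with h | h <;> rw [h] <;> simp
    · exact (ZMod.isUnit_iff_coprime _ _).mpr htm1
  have hco1 : Nat.Coprime (5 ^ k5) m1 := Nat.Coprime.pow_left _ (hsmall 5 (by norm_num) le_rfl)
  obtain ⟨t0, ht0a, ht0b⟩ := Nat.chineseRemainder hco1 r5 s
  have ht0co : Nat.Coprime t0 (5 ^ k5 * m1) := by
    apply Nat.Coprime.mul_right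
    · have h1 := ht0a.gcd_eq
      rw [Nat.Coprime, h1]
      exact Nat.Coprime.pow_right _ hr5
    · have h1 := ht0b.gcd_eq
      rw [Nat.Coprime, h1]
      exact hsco
  have hco72 : Nat.Coprime 72 (5 ^ k5 * m1) := by
    apply Nat.Coprime.mul_right
    · exact Nat.Coprime.pow_right _ (by norm_num)
    · have h2 := hsmall 2 (by norm_num) (by norm_num)
      have h3 := hsmall 3 (by norm_num) (by norm_num)
      have h4 : (72 : ℕ) = 2 ^ 3 * 3 ^ 2 := by norm_num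
      rw [h4]
      exact Nat.Coprime.mul_left (Nat.Coprime.pow_left _ h2) (Nat.Coprime.pow_left _ h3)
  obtain ⟨Q, hQp, hQB, hQ1, hQ2⟩ := exists_Q 72 (5 ^ k5 * m1) (by norm_num) (by positivity) hco72 t0 ht0co B
  have hQ5 : Q ≡ r5 [MOD 5 ^ k5] := (hQ2.of_mul_right m1).trans ht0a
  have hQm1 : Q ≡ s [MOD m1] := (hQ2.of_mul_left (5 ^ k5)).trans ht0b
  have hjQ : jacobiSym (Q : ℤ) 5 = jacobiSym (r5 : ℤ) 5 := by
    have h1 : Q ≡ r5 [MOD 5] := hQ5.of_dvd (dvd_pow_self 5 (by omega))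
    have h2 : (Q : ℤ) % 5 = (r5 : ℤ) % 5 := by
      have : Q % 5 = r5 % 5 := h1
      omega
    rw [jacobiSym.mod_left (Q : ℤ) 5, jacobiSym.mod_left (r5 : ℤ) 5]
    push_cast
    rw [h2]
  refine ⟨Q, hQp, hQB, hQ1, ?_, ?_⟩
  · intro h5
    have h1 : Q ≡ r5 [MOD 5 ^ (m.factorization 5)] := hQ5.of_dvd (pow_dvd_pow 5 (le_max_left _ _))
    rw [(ZMod.natCast_eq_natCast_iff _ _ _).mpr h1]
    exact hr5' h5
  · intro p hp hpm h5
    have h1 : ((p ^ (m.factorization p) : ℕ) : ℤ) ∣ ((s : ℤ) + jacobiSym (r5 : ℤ) 5 * t) := by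
      have h2 : (m1 : ℤ) ∣ ((s : ℤ) + jacobiSym (r5 : ℤ) 5 * t) := by
        apply (ZMod.intCast_zmod_eq_zero_iff_dvd _ _).mp
        push_cast
        rw [hs]
        ring
      exact (Int.natCast_dvd_natCast.mpr (hm1dvd p hp hpm h5)).trans h2
    have h3 := (ZMod.intCast_zmod_eq_zero_iff_dvd _ _).mpr h1
    have h4 : Q ≡ s [MOD p ^ (m.factorization p)] := hQm1.of_dvd (hm1dvd p hp hpm h5)
    rw [hjQ, (ZMod.natCast_eq_natCast_iff _ _ _).mpr h4]
    push_cast at h3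
    exact eq_neg_of_add_eq_zero_right h3

theorem cop_of_gt (Q : ℕ) (hQ : Q.Prime) (n0 : ℕ) (h : 6 * n0 + 1 < Q) : Nat.Coprime Q (6 * n0 + 1) :=
  (Nat.Prime.coprime_iff_not_dvd hQ).mpr (fun h1 => by
    have := Nat.le_of_dvd (by omega) h1
    omega)

/-- one prime power, unit ratio -/
theorem step_unit (m : ℕ) (hm : 0 < m) (h4 : ¬ 4 ∣ m) (h3 : ¬ 3 ∣ m) (n0 : ℕ) (h2 : 2 ∣ m → Even n0)
    (hleg : ∀ p : ℕ, (hp : p.Prime) → p ∣ m → 5 < p →
      @legendreSym p ⟨hp⟩ (6 * n0 + 1) = - @legendreSym p ⟨hp⟩ (-5))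
    (i : ℤ) (t : ℕ) (htco : Nat.Coprime t m) (hti : (m : ℤ) ∣ i - t * b5 n0)
    (Q : ℕ) (hQp : Q.Prime) (hQB : m + (6 * n0 + 1) + 5 < Q) (hQ1 : Q ≡ 1 [MOD 72])
    (hQ5 : 5 ∣ m → (Q : ZMod (5 ^ (m.factorization 5))) ^ (2 * 5 ^ (m.factorization 5 - 1) - 1) *
        (t : ZMod (5 ^ (m.factorization 5))) = -1)
    (hQ7 : ∀ p : ℕ, p.Prime → p ∣ m → 5 < p → ((jacobiSym (Q : ℤ) 5 : ℤ) : ZMod (p ^ (m.factorization p))) *
        (t : ZMod (p ^ (m.factorization p))) = - (Q : ZMod (p ^ (m.factorization p))))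
    (p : ℕ) (hp : p.Prime) (hpm : p ∣ m) :
    ∃ π : ℕ, 0 < π ∧ ∀ j : ℕ, 2 ≤ j → Even j → ∀ n, 6 * n + 1 = Q ^ (π * j - 2) * (6 * n0 + 1) →
      ((p ^ (m.factorization p) : ℕ) : ℤ) ∣ (b5 n : ℤ) - i := by
  have hQx := cop_of_gt Q hQp n0 (by omega)
  have hQ36 : Q ≡ 1 [MOD 36] := hQ1.of_dvd (by norm_num)
  have hpow : ∀ k, p ^ k ∣ m → ((p ^ k : ℕ) : ℤ) ∣ i - t * b5 n0 := fun k hk =>
    (Int.natCast_dvd_natCast.mpr hk).trans hti
  have hkm : p ^ (m.factorization p) ∣ m := (hp.pow_dvd_iff_le_factorization hm.ne').mpr le_rfl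
  have hk1 : 1 ≤ m.factorization p := (hp.pow_dvd_iff_le_factorization hm.ne').mp (by simpa using hpm)
  rcases prime_cases m p hp hpm h3 with rfl | rfl | h5
  · -- p = 2
    refine ⟨1, one_pos, ?_⟩
    intro j hj hje n hn
    have hE : Even (1 * j - 2) := by
      rw [one_mul]
      obtain ⟨r, hr⟩ := hje
      exact ⟨r - 1, by omega⟩
    have h6 := (parity_along Q hQp (hQ1.of_dvd (by norm_num)) n0 (h2 hpm) hQx _ n hn).1 hE
    rw [fact_two m hpm hm h4, pow_one]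
    have h7 : ((2 : ℕ) : ℤ) ∣ i - t * b5 n0 := (Int.natCast_dvd_natCast.mpr hpm).trans hti
    have h8 : Odd t := by
      rw [← Nat.not_even_iff_odd, even_iff_two_dvd]
      intro h
      have := Nat.Coprime.coprime_dvd_right hpm htco
      have := Nat.Coprime.eq_one_of_dvd (Nat.Coprime.symm this) h
      omega
    obtain ⟨v, hv⟩ := h8
    have h9 : (2 : ℤ) ∣ i - b5 n0 := by
      push_cast at h7
      have e : i - (b5 n0 : ℤ) = (i - t * b5 n0) + 2 * (v * b5 n0) := by rw [hv]; push_cast; ring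
      rw [e]
      exact dvd_add h7 (dvd_mul_right _ _)
    have h10 : (b5 n) % 2 = (b5 n0) % 2 := by
      have e1 : (2 ∣ b5 n) ↔ (b5 n) % 2 = 0 := Nat.dvd_iff_mod_eq_zero
      have e2 : (2 ∣ b5 n0) ↔ (b5 n0) % 2 = 0 := Nat.dvd_iff_mod_eq_zero
      rw [e1, e2] at h6
      omega
    push_cast
    omega
  · -- p = 5
    obtain ⟨π, hπ, h⟩ := step_five (m.factorization 5) hk1 Q hQp hQ36 (by omega) n0 hQx
    refine ⟨π, hπ, ?_⟩
    intro j hj _ n hn
    have h6 := (h j hj).2 n hn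
    have h7 := solve_aux _ _ (t : ZMod (5 ^ (m.factorization 5))) _ _ h6 (hQ5 hpm)
    have h8 := (ZMod.intCast_zmod_eq_zero_iff_dvd _ _).mpr (hpow _ hkm)
    apply (ZMod.intCast_zmod_eq_zero_iff_dvd _ _).mp
    push_cast at h8 ⊢
    rw [h7]
    linear_combination - h8
  · -- p > 5
    have : Fact p.Prime := ⟨hp⟩
    have hple : p ≤ m := Nat.le_of_dvd hm hpm
    obtain ⟨π, hπ, h⟩ := step_pk p h5 (m.factorization p) hk1 Q hQp hQ36 (by omega) (by omega) n0 hQx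
      (hleg p hp hpm h5)
    refine ⟨π, hπ, ?_⟩
    intro j hj hje n hn
    have h7 := (h j hj).2 hje n hn _ (hQ7 p hp hpm h5)
    have h8 := (ZMod.intCast_zmod_eq_zero_iff_dvd _ _).mpr (hpow _ hkm)
    apply (ZMod.intCast_zmod_eq_zero_iff_dvd _ _).mp
    push_cast at h8 ⊢
    rw [h7]
    linear_combination - h8

/-- one prime power, the zero class -/
theorem step_zero (m : ℕ) (hm : 0 < m) (h4 : ¬ 4 ∣ m) (h3 : ¬ 3 ∣ m) (n0 : ℕ) (h2 : 2 ∣ m → Even n0)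
    (hleg : ∀ p : ℕ, (hp : p.Prime) → p ∣ m → 5 < p →
      @legendreSym p ⟨hp⟩ (6 * n0 + 1) = - @legendreSym p ⟨hp⟩ (-5))
    (Q : ℕ) (hQp : Q.Prime) (hQB : m + (6 * n0 + 1) + 5 < Q) (hQ1 : Q ≡ 1 [MOD 72])
    (hQ7 : Q ≡ 1 [MOD m])
    (p : ℕ) (hp : p.Prime) (hpm : p ∣ m) :
    ∃ π : ℕ, 0 < π ∧ ∀ j : ℕ, 2 ≤ j → Even j → ∀ n, 6 * n + 1 = Q ^ (π * j - 1) * (6 * n0 + 1) →
      ((p ^ (m.factorization p) : ℕ) : ℤ) ∣ (b5 n : ℤ) := by
  have hQx := cop_of_gt Q hQp n0 (by omega)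
  have hQ36 : Q ≡ 1 [MOD 36] := hQ1.of_dvd (by norm_num)
  have hk1 : 1 ≤ m.factorization p := (hp.pow_dvd_iff_le_factorization hm.ne').mp (by simpa using hpm)
  rcases prime_cases m p hp hpm h3 with rfl | rfl | h5
  · refine ⟨1, one_pos, ?_⟩
    intro j hj hje n hn
    have hE : Odd (1 * j - 1) := by
      rw [one_mul]
      obtain ⟨r, hr⟩ := hje
      exact ⟨r - 1, by omega⟩
    have h6 := (parity_along Q hQp (hQ1.of_dvd (by norm_num)) n0 (h2 hpm) hQx _ n hn).2 hE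
    rw [fact_two m hpm hm h4, pow_one]
    exact Int.natCast_dvd_natCast.mpr h6
  · obtain ⟨π, hπ, h⟩ := step_five (m.factorization 5) hk1 Q hQp hQ36 (by omega) n0 hQx
    refine ⟨π, hπ, ?_⟩
    intro j hj _ n hn
    exact Int.natCast_dvd_natCast.mpr ((ZMod.natCast_eq_zero_iff _ _).mp ((h j hj).1 n hn))
  · have : Fact p.Prime := ⟨hp⟩
    have hple : p ≤ m := Nat.le_of_dvd hm hpm
    obtain ⟨π, hπ, h⟩ := step_pk p h5 (m.factorization p) hk1 Q hQp hQ36 (by omega) (by omega) n0 hQx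
      (hleg p hp hpm h5)
    refine ⟨π, hπ, ?_⟩
    intro j hj _ n hn
    have h6 : (Q : ZMod p) = 1 := by
      have := (ZMod.natCast_eq_natCast_iff Q 1 p).mpr (hQ7.of_dvd hpm)
      simpa using this
    exact Int.natCast_dvd_natCast.mpr ((ZMod.natCast_eq_zero_iff _ _).mp ((h j hj).1 h6 n hn))

/-- the general theorem -/
theorem main_all (m : ℕ) (hm : 0 < m) (h3 : ¬ 3 ∣ m) (h4 : ¬ 4 ∣ m) (n0 : ℕ) (h2 : 2 ∣ m → Even n0)
    (hleg : ∀ p : ℕ, (hp : p.Prime) → p ∣ m → 5 < p →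
      @legendreSym p ⟨hp⟩ (6 * n0 + 1) = - @legendreSym p ⟨hp⟩ (-5))
    (i : ℤ) (hi : Int.gcd i m = Nat.gcd (b5 n0) m ∨ (m : ℤ) ∣ i) :
    {n : ℕ | (b5 n : ℤ) ≡ i [ZMOD m]}.Infinite := by
  classical
  rcases hi with hi | hi
  · obtain ⟨t, htco, hti⟩ := exists_unit m hm i (b5 n0) hi
    obtain ⟨Q, hQp, hQB, hQ1, hQ5, hQ7⟩ := exists_Q5 m hm t htco (m + (6 * n0 + 1) + 5)
    have key' : ∀ p : ℕ, ∃ π : ℕ, 0 < π ∧ (p.Prime → p ∣ m → ∀ j, 2 ≤ j → Even j → ∀ n,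
        6 * n + 1 = Q ^ (π * j - 2) * (6 * n0 + 1) →
        ((p ^ (m.factorization p) : ℕ) : ℤ) ∣ (b5 n : ℤ) - i) := by
      intro p
      by_cases h : p.Prime ∧ p ∣ m
      · obtain ⟨π, h1, h2'⟩ := step_unit m hm h4 h3 n0 h2 hleg i t htco hti Q hQp hQB hQ1 hQ5 hQ7 p h.1 h.2
        exact ⟨π, h1, fun _ _ => h2'⟩
      · exact ⟨1, one_pos, fun h1 h2 => absurd ⟨h1, h2⟩ h⟩
    choose π hπ hper using key'
    let PP : ℕ := ∏ p ∈ m.primeFactors, π p
    have hPP : 0 < PP := Finset.prod_pos (fun p _ => hπ p)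
    refine infinite_of_seq Q (6 * n0 + 1) hQp.two_le (hQ1.of_dvd (by norm_num)) ?_ (by omega)
      (fun j => PP * (2 * (j + 1)) - 2) ?_ _ ?_
    · show (6 * n0 + 1) % 6 = 1 % 6
      omega
    · intro a b hab
      show PP * (2 * (a + 1)) - 2 < PP * (2 * (b + 1)) - 2
      have h1 : PP * (2 * (a + 1)) < PP * (2 * (b + 1)) := Nat.mul_lt_mul_of_pos_left (by omega) hPP
      have h2 : 2 ≤ PP * (2 * (a + 1)) := by nlinarith
      omega
    · intro j n hn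
      show (b5 n : ℤ) ≡ i [ZMOD m]
      apply Int.ModEq.symm
      rw [Int.modEq_iff_dvd]
      apply dvd_of_factorization m hm
      intro p hp hpm
      have hmem : p ∈ m.primeFactors := Nat.mem_primeFactors.mpr ⟨hp, hpm, hm.ne'⟩
      obtain ⟨w, hw⟩ : π p ∣ PP := Finset.dvd_prod_of_mem π hmem
      have hw0 : 0 < w := by
        rcases Nat.eq_zero_or_pos w with h | h
        · rw [h, mul_zero] at hw; omega
        · exact h
      apply hper p hp hpm (w * (2 * (j + 1))) (by nlinarith) ⟨w * (j + 1), by ring⟩ n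
      rw [← mul_assoc, ← hw]
      exact hn
  · obtain ⟨Q, hQp, hQB, hQ1, _⟩ := exists_Q (72 * m) 1 (by positivity) one_pos (Nat.coprime_one_right _)
      1 (by norm_num) (m + (6 * n0 + 1) + 5)
    have hQ72 : Q ≡ 1 [MOD 72] := hQ1.of_dvd (dvd_mul_right _ _)
    have hQm : Q ≡ 1 [MOD m] := hQ1.of_dvd (dvd_mul_left _ _)
    have key' : ∀ p : ℕ, ∃ π : ℕ, 0 < π ∧ (p.Prime → p ∣ m → ∀ j, 2 ≤ j → Even j → ∀ n,
        6 * n + 1 = Q ^ (π * j - 1) * (6 * n0 + 1) →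
        ((p ^ (m.factorization p) : ℕ) : ℤ) ∣ (b5 n : ℤ)) := by
      intro p
      by_cases h : p.Prime ∧ p ∣ m
      · obtain ⟨π, h1, h2'⟩ := step_zero m hm h4 h3 n0 h2 hleg Q hQp hQB hQ72 hQm p h.1 h.2
        exact ⟨π, h1, fun _ _ => h2'⟩
      · exact ⟨1, one_pos, fun h1 h2 => absurd ⟨h1, h2⟩ h⟩
    choose π hπ hper using key'
    let PP : ℕ := ∏ p ∈ m.primeFactors, π p
    have hPP : 0 < PP := Finset.prod_pos (fun p _ => hπ p)
    refine infinite_of_seq Q (6 * n0 + 1) hQp.two_le (hQ72.of_dvd (by norm_num)) ?_ (by omega)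
      (fun j => PP * (2 * (j + 1)) - 1) ?_ _ ?_
    · show (6 * n0 + 1) % 6 = 1 % 6
      omega
    · intro a b hab
      show PP * (2 * (a + 1)) - 1 < PP * (2 * (b + 1)) - 1
      have h1 : PP * (2 * (a + 1)) < PP * (2 * (b + 1)) := Nat.mul_lt_mul_of_pos_left (by omega) hPP
      have h2 : 2 ≤ PP * (2 * (a + 1)) := by nlinarith
      omega
    · intro j n hn
      show (b5 n : ℤ) ≡ i [ZMOD m]
      apply Int.ModEq.symm
      rw [Int.modEq_iff_dvd]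
      apply dvd_sub _ hi
      apply dvd_of_factorization m hm
      intro p hp hpm
      have hmem : p ∈ m.primeFactors := Nat.mem_primeFactors.mpr ⟨hp, hpm, hm.ne'⟩
      obtain ⟨w, hw⟩ : π p ∣ PP := Finset.dvd_prod_of_mem π hmem
      have hw0 : 0 < w := by
        rcases Nat.eq_zero_or_pos w with h | h
        · rw [h, mul_zero] at hw; omega
        · exact h
      apply hper p hp hpm (w * (2 * (j + 1))) (by nlinarith) ⟨w * (j + 1), by ring⟩ n
      rw [← mul_assoc, ← hw]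
      exact hn

/-- the zero class, unconditionally -/
theorem main_zero (m : ℕ) (hm : 0 < m) (h3 : ¬ 3 ∣ m) (h4 : ¬ 4 ∣ m) (i : ℤ) (hi : (m : ℤ) ∣ i) :
    {n : ℕ | (b5 n : ℤ) ≡ i [ZMOD m]}.Infinite := by
  obtain ⟨n0, h1, h2⟩ := exists_n0 m hm
  exact main_all m hm h3 h4 n0 (fun _ => h1) h2 i (Or.inr hi)

/-- prime powers: unit classes and the zero class -/
theorem main_pow (p k : ℕ) (hp : p.Prime) (hp5 : 5 ≤ p) (i : ℤ) (hi : ¬ (p : ℤ) ∣ i ∨ ((p ^ k : ℕ) : ℤ) ∣ i) :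
    {n : ℕ | (b5 n : ℤ) ≡ i [ZMOD ((p ^ k : ℕ) : ℤ)]}.Infinite := by
  have : Fact p.Prime := ⟨hp⟩
  have hpos : 0 < p ^ k := pow_pos hp.pos k
  have hcop : ∀ q : ℕ, q.Prime → q < 5 → ¬ q ∣ p ^ k := by
    intro q hq hq5 h
    have := (Nat.prime_dvd_prime_iff_eq hq hp).mp (hq.dvd_of_dvd_pow h)
    omega
  have h3 : ¬ 3 ∣ p ^ k := hcop 3 (by norm_num) (by norm_num)
  have h2' : ¬ 2 ∣ p ^ k := hcop 2 (by norm_num) (by norm_num)
  have h4 : ¬ 4 ∣ p ^ k := fun h => h2' (dvd_trans (by norm_num) h)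
  rcases hi with hi | hi
  · have hgen : ∃ n0 : ℕ, (∀ q : ℕ, (hq : q.Prime) → q ∣ p ^ k → 5 < q →
        @legendreSym q ⟨hq⟩ (6 * n0 + 1) = - @legendreSym q ⟨hq⟩ (-5)) ∧ ¬ p ∣ b5 n0 := by
      by_cases h5 : 5 < p
      · have hgen' : ∃ n0 : ℕ, legendreSym p (6 * (n0 : ℤ) + 1) = - legendreSym p (-5) ∧ ¬ p ∣ b5 n0 := by
          rcases leg_five p h5 with h | h
          · obtain ⟨n, h1, h2⟩ := nonvanish p h5
            exact ⟨n, by rw [h1, h], h2⟩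
          · refine ⟨0, ?_, ?_⟩
            · rw [h]; simp
            · rw [b5_zero]
              exact hp.one_lt.ne' ∘ Nat.dvd_one.mp
        obtain ⟨n0, h1, h2⟩ := hgen'
        refine ⟨n0, ?_, h2⟩
        intro q hq hqp _
        have := (Nat.prime_dvd_prime_iff_eq hq hp).mp (hq.dvd_of_dvd_pow hqp)
        subst this
        exact h1
      · have h6 : p = 5 := by omega
        refine ⟨0, ?_, ?_⟩
        · intro q hq hqp h7
          have := (Nat.prime_dvd_prime_iff_eq hq hp).mp (hq.dvd_of_dvd_pow hqp)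
          omega
        · rw [b5_zero]
          exact hp.one_lt.ne' ∘ Nat.dvd_one.mp
    obtain ⟨n0, h1, h2⟩ := hgen
    refine main_all (p ^ k) hpos h3 h4 n0 (fun h => absurd h h2') h1 i (Or.inl ?_)
    have e1 : Nat.gcd (b5 n0) (p ^ k) = 1 :=
      Nat.Coprime.pow_right k (((Nat.Prime.coprime_iff_not_dvd hp).mpr h2).symm)
    have e2 : Int.gcd i ((p ^ k : ℕ) : ℤ) = 1 := by
      have h5 : IsCoprime i ((p : ℕ) : ℤ) :=
        ((Prime.coprime_iff_not_dvd (Nat.prime_iff_prime_int.mp hp)).mpr hi).symm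
      have h6 : IsCoprime i (((p ^ k : ℕ)) : ℤ) := by
        push_cast
        exact h5.pow_right
      exact Int.isCoprime_iff_gcd_eq_one.mp h6
    rw [e1, e2]
  · exact main_zero (p ^ k) hpos h3 h4 i hi

/-- the criterion in terms of squares -/
theorem main_sq (m : ℕ) (hm : 0 < m) (h3 : ¬ 3 ∣ m) (h4 : ¬ 4 ∣ m) (n0 : ℕ) (h2 : 2 ∣ m → Even n0)
    (hsq : ∀ p : ℕ, p.Prime → p ∣ m → 5 < p → ¬ IsSquare (-5 * (6 * (n0 : ZMod p) + 1)))
    (i : ℤ) (hi : Int.gcd i m = Nat.gcd (b5 n0) m) :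
    {n : ℕ | (b5 n : ℤ) ≡ i [ZMOD m]}.Infinite := by
  refine main_all m hm h3 h4 n0 h2 ?_ i (Or.inl hi)
  intro p hp hpm h5
  have : Fact p.Prime := ⟨hp⟩
  have h6 := hsq p hp hpm h5
  have h7 : ((-5 * (6 * (n0 : ℤ) + 1) : ℤ) : ZMod p) = -5 * (6 * (n0 : ZMod p) + 1) := by push_cast; ring
  have h8 : legendreSym p (-5 * (6 * (n0 : ℤ) + 1)) = -1 := by
    rw [legendreSym.eq_neg_one_iff, h7]
    exact h6
  rw [legendreSym.mul] at h8
  rcases leg_five p h5 with h | h <;> rw [h] at h8 ⊢ <;> linarith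

end Pool.Agent.B5X
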